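import Pool.Agent.Lib.MP_4c860b_pr.FZ.Spec

set_option autoImplicit false

namespace Pool.Agent.Lib.MP4c860b.FZ

open MeasureTheory Set Filter Topology

theorem specAG1 (hGEO : SpecGEO) (hCLU : SpecCLU) (hDIA : SpecDIA) (hLOB : SpecLOB)
    (hKCO : SpecKCO) : SpecAG1 := by
  have _hG := hGEO
  obtain ⟨c1, c2, c3, -, -, -, c7⟩ := hCLU
  intro N C Q η s₀ τ τ' Fr Fr' hT t v ht hv nq agr hTouch hBig
  have sh := hT.sh
  set B := Cl (Bk τ Fr v) v with hB
  have hBv : v ∈ B := (c2 _ v).1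
  have hBc : Conn B := (c2 _ v).2
  obtain ⟨l1, l2, l3⟩ := hLOB N τ Fr hT.i1 hT.p1
  have hBx : ∀ x ∈ B, x = v ∨ x ∈ Bk τ Fr v := fun x hx => c1 _ _ _ hx
  have h0D : (0 : V) ∈ C ∪ Q := Or.inl sh.zero
  have hη : η ≤ τ v := by
    by_contra hlt
    push Not at hlt
    apply hT.small
    have hsub : B ∪ (C ∪ Q) ⊆ Cl (Ea η τ (C ∪ Q)) 0 := by
      apply c3
      · apply c7 B (C ∪ Q) hBc sh.conn
        obtain ⟨u, hu, h⟩ := hTouch
        rcases h with h | ⟨d, hd, h⟩
        · exact ⟨u, hu, u, h, Or.inl rfl⟩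
        · exact ⟨u, hu, d, hd, Or.inr h⟩
      · exact Or.inr h0D
      · rintro x (hx | hx)
        · right
          right
          rcases hBx x hx with h | h
          · rw [h]
            exact hlt
          · exact h.1.trans hlt
        · right
          left
          exact hx
    obtain ⟨a, ha, b, hb, hab⟩ := hBig
    exact ⟨a, hsub (Or.inl ha), b, hsub (Or.inl hb), hab⟩
  obtain ⟨kc, kb⟩ := hKCO C Q sh N B hBc hTouch hBig
  have hQ : ∀ x ∈ Q, τ' x < τ v ∧ ∀ w, τ' w < τ v → x ∉ Fr' w := by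
    intro x hx
    refine ⟨(hT.early x hx).trans_le hη, fun w hw hxw => nq x hx ⟨w, (hw.le.trans hv), hxw⟩⟩
  have hO : ∀ x ∈ B, x ∉ C ∪ Q → (x ≠ v → τ' x < τ v) ∧ ∀ w, τ' w < τ v → x ∉ Fr' w := by
    intro x hx hxD
    have hd : dis v x ≤ N + 2 := by
      have := l1 v x hx
      linarith
    refine ⟨fun hne => ?_, ?_⟩
    · rw [hT.off x hxD]
      rcases hBx x hx with h | h
      · exact absurd h hne
      · exact h.1
    · refine (agr x hxD hd).1 ?_
      intro w hw hxw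
      rcases hBx x hx with h | h
      · have := (l2 w x hxw).1
        rw [h] at this
        linarith
      · exact h.2 w hw hxw
  obtain ⟨q0, hq0, -⟩ := sh.dom 0 sh.zero 0
  by_cases hvD : v ∈ C ∪ Q
  · refine hDIA N τ' Fr' hT.i2 hT.p2 (τ v) ((B \ C) ∪ Q) kc ?_ kb
    intro x hx
    by_cases hxQ : x ∈ Q
    · exact hQ x hxQ
    · rcases hx with hx | hx
      · have hxD : x ∉ C ∪ Q := fun h => h.elim hx.2 hxQ
        have h := hO x hx.1 hxD
        exact ⟨h.1 (fun e => hxD (e ▸ hvD)), h.2⟩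
      · exact absurd hx hxQ
  · have hvv : τ' v = τ v := hT.off v hvD
    have hvK : v ∈ (B \ C) ∪ Q := Or.inl ⟨hBv, fun h => hvD (Or.inl h)⟩
    have hK : (B \ C) ∪ Q ⊆ insert v (Bk τ' Fr' v) := by
      intro x hx
      by_cases hxv : x = v
      · exact Or.inl hxv
      · right
        show τ' x < τ' v ∧ ∀ w, τ' w < τ' v → x ∉ Fr' w
        rw [hvv]
        by_cases hxQ : x ∈ Q
        · exact hQ x hxQ
        · rcases hx with hx | hx
          · have hxD : x ∉ C ∪ Q := fun h => h.elim hx.2 hxQ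
            have h := hO x hx.1 hxD
            exact ⟨h.1 hxv, h.2⟩
          · exact absurd hx hxQ
    have hsub := c3 _ _ _ kc hvK hK
    have hbig : Big N (Cl (Bk τ' Fr' v) v) := by
      obtain ⟨a, ha, b, hb, hab⟩ := kb
      exact ⟨a, hsub ha, b, hsub hb, hab⟩
    have hqF : q0 ∈ Fr' v := by
      rw [hT.p2 v]
      exact ⟨hsub (Or.inr hq0), hbig⟩
    exact nq q0 hq0 ⟨v, by rw [hvv]; exact hv, hqF⟩

end Pool.Agent.Lib.MP4c860b.FZ
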