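import Pool.Agent.Lib.MP_4c860b_pr.FZ.Spec

/-!
# Modified diameter-frozen percolation (MP_4c860b_pr): module AGR
-/

set_option autoImplicit false

namespace Pool.Agent.Lib.MP4c860b.FZ

open MeasureTheory Set Filter Topology

namespace AGRM

theorem mem_fr {N : ℕ} {τ : V → ℝ} {Fr : V → Set V} (hp : IsProc N τ Fr) {u v : V} (h : u ∈ Fr v) :
    u ∈ Cl (Bk τ Fr v) v ∧ Big N (Cl (Bk τ Fr v) v) := by
  rw [hp v] at h
  exact h

theorem fr_mem {N : ℕ} {τ : V → ℝ} {Fr : V → Set V} (hp : IsProc N τ Fr) {u v : V}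
    (h : u ∈ Cl (Bk τ Fr v) v) (hb : Big N (Cl (Bk τ Fr v) v)) : u ∈ Fr v := by
  rw [hp v]
  exact ⟨h, hb⟩

theorem fr_empty {N : ℕ} {τ : V → ℝ} {Fr : V → Set V} (hp : IsProc N τ Fr) {v : V}
    (hb : ¬ Big N (Cl (Bk τ Fr v) v)) : Fr v = ∅ := by
  rw [Set.eq_empty_iff_forall_notMem]
  intro u hu
  exact hb (mem_fr hp hu).2

theorem self_mem {S : Set V} {v : V} : v ∈ Cl S v := Relation.ReflTransGen.refl

theorem step_mem {S : Set V} {v u x : V} (hu : u ∈ Cl S v) (ha : Adj u x) (hx : x ∈ S) :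
    x ∈ Cl S v := Relation.ReflTransGen.tail hu ⟨ha, hx⟩

theorem big_mono {N : ℕ} {A B : Set V} (h : A ⊆ B) (hb : Big N A) : Big N B := by
  obtain ⟨u, hu, v, hv, huv⟩ := hb
  exact ⟨u, h hu, v, h hv, huv⟩

end AGRM

open AGRM in
theorem specAGR (hGEO : SpecGEO) (hCLU : SpecCLU) (hLOB : SpecLOB) (hAG1 : SpecAG1) : SpecAGR := by
  intro N C Q η s₀ τ τ' Fr Fr' h v₀ hv₀ h0
  by_contra hcon
  have nq : ∀ q ∈ Q, ¬ Froz τ' Fr' (τ v₀) q := fun q hq hf => hcon ⟨q, hq, hf⟩
  obtain ⟨g1, g2, -, -, -⟩ := hGEO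
  obtain ⟨c1, c2, c3, c4, -, -, c7⟩ := hCLU
  obtain ⟨l1, l2, l3⟩ := hLOB N τ Fr h.i1 h.p1
  obtain ⟨l1', l2', l3'⟩ := hLOB N τ' Fr' h.i2 h.p2
  -- the claim
  let Cm : V → Prop := fun v => τ v < τ v₀ → (v ∈ C ∪ Q → Fr v = ∅) ∧ (v ∉ C ∪ Q → Fr v = Fr' v)
  have key : ∀ v, τ v ≤ τ v₀ → (∀ w, τ w < τ v → dis w v ≤ 2 * (N : ℝ) + 5 → Cm w) →
      ∀ x, x ∉ C ∪ Q → dis v x ≤ N + 2 →
        ((∀ w, τ w < τ v → x ∉ Fr w) ↔ ∀ w, τ' w < τ v → x ∉ Fr' w) := by
    intro v hv IH x hx hdx
    constructor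
    · intro hF w hw hxw
      have hwC : w ∉ C := by
        intro hwC
        have := h.late w hwC
        linarith
      have hwQ : w ∉ Q := by
        intro hwQ
        have hb := (mem_fr h.p2 hxw).2
        exact nq w hwQ ⟨w, by linarith, fr_mem h.p2 self_mem hb⟩
      have hwD : w ∉ C ∪ Q := fun hh => hh.elim hwC hwQ
      have hτ : τ' w = τ w := h.off w hwD
      have hd : dis w v ≤ 2 * (N : ℝ) + 5 := by
        have e1 := (l2' w x hxw).2
        have e2 := (g1 w x v).2.2
        have e3 := (g1 x v v).1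
        linarith
      have hlt : τ w < τ v := hτ ▸ hw
      have hc := (IH w hlt hd (lt_of_lt_of_le hlt hv)).2 hwD
      exact hF w hlt (hc ▸ hxw)
    · intro hF w hw hxw
      have hd : dis w v ≤ 2 * (N : ℝ) + 5 := by
        have e1 := (l2 w x hxw).2
        have e2 := (g1 w x v).2.2
        have e3 := (g1 x v v).1
        linarith
      have hc := IH w hw hd (lt_of_lt_of_le hw hv)
      have hwD : w ∉ C ∪ Q := by
        intro hwD
        have := hc.1 hwD
        rw [this] at hxw
        exact hxw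
      have hτ : τ' w = τ w := h.off w hwD
      exact hF w (hτ ▸ hw) (hc.2 hwD ▸ hxw)
  have main : ∀ v, Cm v := by
    intro v
    refine h.wf.induction (C := Cm) v ?_
    intro v IH hv
    have F := key v hv.le (fun w hw hd => IH w ⟨hw, hd⟩)
    by_cases ht : Touch C Q (Cl (Bk τ Fr v) v)
    · have hB : ¬ Big N (Cl (Bk τ Fr v) v) :=
        hAG1 N C Q η s₀ τ τ' Fr Fr' h (τ v₀) v hv₀ hv.le nq F ht
      have hFr : Fr v = ∅ := fr_empty h.p1 hB
      refine ⟨fun _ => hFr, fun hvD => ?_⟩
      rw [hFr]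
      symm
      rw [Set.eq_empty_iff_forall_notMem]
      intro u₀ hu₀
      have hτv : τ' v = τ v := h.off v hvD
      have hBig' : Big N (Cl (Bk τ' Fr' v) v) := (mem_fr h.p2 hu₀).2
      have hmem' : ∀ u, u ∈ Cl (Bk τ' Fr' v) v → u ∈ Fr' v := fun u hu => fr_mem h.p2 hu hBig'
      have nQ : ∀ q ∈ Q, q ∉ Cl (Bk τ' Fr' v) v := by
        intro q hq hqB
        exact nq q hq ⟨v, by rw [hτv]; exact hv.le, hmem' q hqB⟩
      have nC : ∀ c ∈ C, c ∉ Cl (Bk τ' Fr' v) v := by
        intro c hc hcB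
        have e1 := (l2' v c (hmem' c hcB)).1
        have e2 := h.late c hc
        linarith
      have nD : ∀ d ∈ C ∪ Q, d ∉ Cl (Bk τ' Fr' v) v := fun d hd => hd.elim (nC d) (nQ d)
      have hno : ¬ Touch C Q (Cl (Bk τ' Fr' v) v) := by
        rintro ⟨u, hu, hu' | ⟨d, hd, had⟩⟩
        · exact nD u hu' hu
        · rcases hd with hdC | hdQ
          · rcases h.sh.nbr d hdC u ((g2 u d had).1) with h1 | h1
            · exact nC u h1 hu
            · exact nQ u h1 hu
          · rcases le_or_gt η (τ v) with hη | hη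
            · refine nQ d hdQ (step_mem hu had ⟨?_, ?_⟩)
              · have := h.early d hdQ
                rw [hτv]
                linarith
              · intro w hw hdw
                refine nq d hdQ ⟨w, ?_, hdw⟩
                rw [hτv] at hw
                linarith
            · apply h.small
              have hsub : Cl (Bk τ' Fr' v) v ∪ (C ∪ Q) ⊆ insert 0 (Ea η τ (C ∪ Q)) := by
                intro x hx
                right
                rcases hx with hx | hx
                · right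
                  have hxD : x ∉ C ∪ Q := fun hh => nD x hh hx
                  have e1 := (l2' v x (hmem' x hx)).1
                  have e2 := h.off x hxD
                  rw [← e2]
                  linarith
                · left
                  exact hx
              have hconn : Conn (Cl (Bk τ' Fr' v) v ∪ (C ∪ Q)) :=
                c7 _ _ (c2 _ _).2 h.sh.conn ⟨u, hu, d, Or.inr hdQ, Or.inr had⟩
              have h0D : (0 : V) ∈ Cl (Bk τ' Fr' v) v ∪ (C ∪ Q) := Or.inr (Or.inl h.sh.zero)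
              have hcl := c3 (Ea η τ (C ∪ Q)) _ 0 hconn h0D hsub
              exact big_mono (fun x hx => hcl (Or.inl hx)) hBig'
      have hEq : Cl (Bk τ Fr v) v = Cl (Bk τ' Fr' v) v := by
        apply c4
        rintro x ⟨u, hu, hux⟩
        have hxD : x ∉ C ∪ Q := fun hh => hno ⟨u, hu, Or.inr ⟨x, hh, hux⟩⟩
        have hdx : dis v x ≤ N + 2 := by
          have e1 := l1' v u hu
          have e2 := (g1 v u x).2.2
          have e3 := (g2 u x hux).2
          linarith
        have hFx := F x hxD hdx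
        have hτx := h.off x hxD
        constructor
        · rintro ⟨a1, a2⟩
          refine ⟨by rw [← hτx, ← hτv]; exact a1, ?_⟩
          apply hFx.2
          intro w hw
          exact a2 w (by rw [hτv]; exact hw)
        · rintro ⟨a1, a2⟩
          refine ⟨by rw [hτx, hτv]; exact a1, ?_⟩
          intro w hw
          rw [hτv] at hw
          exact hFx.1 a2 w hw
      rw [hEq] at ht
      exact hno ht
    · have hvD : v ∉ C ∪ Q := fun hh => ht ⟨v, self_mem, Or.inl hh⟩
      refine ⟨fun hh => absurd hh hvD, fun _ => ?_⟩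
      have hτv : τ' v = τ v := h.off v hvD
      have hEq : Cl (Bk τ' Fr' v) v = Cl (Bk τ Fr v) v := by
        apply c4
        rintro x ⟨u, hu, hux⟩
        have hxD : x ∉ C ∪ Q := fun hh => ht ⟨u, hu, Or.inr ⟨x, hh, hux⟩⟩
        have hdx : dis v x ≤ N + 2 := by
          have e1 := l1 v u hu
          have e2 := (g1 v u x).2.2
          have e3 := (g2 u x hux).2
          linarith
        have hFx := F x hxD hdx
        have hτx := h.off x hxD
        constructor
        · rintro ⟨a1, a2⟩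
          refine ⟨by rw [hτx, hτv]; exact a1, ?_⟩
          intro w hw
          rw [hτv] at hw
          exact hFx.1 a2 w hw
        · rintro ⟨a1, a2⟩
          refine ⟨by rw [← hτx, ← hτv]; exact a1, ?_⟩
          apply hFx.2
          intro w hw
          exact a2 w (by rw [hτv]; exact hw)
      rw [h.p1 v, h.p2 v, hEq]
  have F0 := key v₀ le_rfl (fun w _ _ => main w)
  have h0' := mem_fr h.p1 h0
  exact hAG1 N C Q η s₀ τ τ' Fr Fr' h (τ v₀) v₀ hv₀ le_rfl nq F0
    ⟨0, h0'.1, Or.inl (Or.inl h.sh.zero)⟩ h0'.2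

end Pool.Agent.Lib.MP4c860b.FZ
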