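import Pool.Agent.Lib.MP_4c860b_pr.FZ.Spec

/-!
# MP_4c860b_pr, FZ, module CEE: the cluster of `D` among the early vertices is small
-/

set_option autoImplicit false

namespace Pool.Agent.Lib.MP4c860b.FZ

open MeasureTheory Set Filter Topology

noncomputable section

namespace CEEM

/-- `u` is reached from `D` by a path of length `k` through early vertices. -/
def Rch (D : Set V) (η : ℝ) (τ : V → ℝ) : ℕ → V → Prop
  | 0, u => u ∈ D
  | k + 1, u => ∃ y, Rch D η τ k y ∧ Adj y u ∧ τ u < η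

/-- the length is minimal -/
def Mn (D : Set V) (η : ℝ) (τ : V → ℝ) (k : ℕ) (u : V) : Prop :=
  Rch D η τ k u ∧ ∀ j < k, ¬ Rch D η τ j u

theorem Mn.uniq {D : Set V} {η : ℝ} {τ : V → ℝ} {k l : ℕ} {u : V} (h : Mn D η τ k u)
    (h' : Mn D η τ l u) : k = l := by
  rcases lt_trichotomy k l with h1 | h1 | h1
  · exact absurd h.1 (h'.2 k h1)
  · exact h1
  · exact absurd h'.1 (h.2 l h1)

theorem Mn.pred {D : Set V} {η : ℝ} {τ : V → ℝ} {k : ℕ} {u : V} (h : Mn D η τ (k + 1) u) :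
    ∃ y, Mn D η τ k y ∧ Adj y u ∧ τ u < η := by
  obtain ⟨y, hy, ha, ht⟩ := h.1
  refine ⟨y, ⟨hy, fun j hj hr => h.2 (j + 1) (by omega) ⟨y, hr, ha, ht⟩⟩, ha, ht⟩

theorem exists_rch {D : Set V} {η : ℝ} {τ : V → ℝ} (h0 : (0 : V) ∈ D) {u : V}
    (hu : u ∈ Cl (Ea η τ D) 0) : ∃ k, Rch D η τ k u := by
  unfold Cl at hu
  induction hu with
  | refl => exact ⟨0, h0⟩
  | tail _ hbc ih =>
    obtain ⟨k, hk⟩ := ih
    rcases hbc.2 with h | h
    · exact ⟨0, h⟩
    · exact ⟨k + 1, _, hk, hbc.1, h⟩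

theorem exists_mn {D : Set V} {η : ℝ} {τ : V → ℝ} {u : V} (h : ∃ k, Rch D η τ k u) :
    ∃ k, Mn D η τ k u := by
  classical
  exact ⟨Nat.find h, Nat.find_spec h, fun j hj => Nat.find_min h hj⟩

theorem exists_mn_level {D : Set V} {η : ℝ} {τ : V → ℝ} {n : ℕ} :
    ∀ (m : ℕ) (u : V), Mn D η τ (n + m) u → ∃ w, Mn D η τ n w := by
  intro m
  induction m with
  | zero => exact fun u h => ⟨u, h⟩
  | succ m ih =>
    intro u h
    obtain ⟨y, hy, _⟩ := Mn.pred h
    exact ih y hy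

theorem rch_dist (hG : SpecGEO) {D : Set V} {η : ℝ} {τ : V → ℝ} :
    ∀ (k : ℕ) (u : V), Rch D η τ k u → ∃ d ∈ D, dis d u ≤ k := by
  intro k
  induction k with
  | zero =>
    intro u hu
    exact ⟨u, hu, by rw [(hG.1 u u u).2.1]; simp⟩
  | succ k ih =>
    rintro u ⟨y, hy, ha, _⟩
    obtain ⟨d, hd, hdy⟩ := ih y hy
    refine ⟨d, hd, ((hG.1 d y u).2.2).trans ?_⟩
    have := (hG.2.1 y u ha).2
    push_cast
    linarith

/-- the paths: end point and the set of the vertices after the start -/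
def Fam (D : Finset V) (nb : V → Finset V) : ℕ → Finset (V × Finset V)
  | 0 => D.image (fun d => (d, ∅))
  | n + 1 => (Fam D nb n).biUnion (fun p => (nb p.1).image (fun w => (w, insert w p.2)))

theorem card_fam (D : Finset V) (nb : V → Finset V) (hnb : ∀ u, (nb u).card ≤ 6) (n : ℕ) :
    (Fam D nb n).card ≤ D.card * 6 ^ n := by
  induction n with
  | zero =>
    rw [Fam, pow_zero, mul_one]
    exact Finset.card_image_le
  | succ n ih =>
    rw [Fam]
    calc ((Fam D nb n).biUnion (fun p => (nb p.1).image (fun w => (w, insert w p.2)))).card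
        ≤ (Fam D nb n).card * 6 :=
          Finset.card_biUnion_le_card_mul _ _ _ fun p _ => Finset.card_image_le.trans (hnb _)
      _ ≤ (D.card * 6 ^ n) * 6 := Nat.mul_le_mul_right _ ih
      _ = D.card * 6 ^ (n + 1) := by rw [pow_succ, mul_assoc]

theorem mem_fam {D : Finset V} {nb : V → Finset V} (hnb : ∀ u v, Adj u v → v ∈ nb u) {η : ℝ}
    {τ : V → ℝ} : ∀ (n : ℕ) (u : V), Mn (D : Set V) η τ n u →
      ∃ p ∈ Fam D nb n, p.1 = u ∧ p.2.card = n ∧
        ∀ x ∈ p.2, τ x < η ∧ ∃ i ≤ n, Mn (D : Set V) η τ i x := by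
  intro n
  induction n with
  | zero =>
    intro u hu
    refine ⟨(u, ∅), ?_, rfl, rfl, by simp⟩
    rw [Fam, Finset.mem_image]
    have hD : u ∈ (D : Set V) := hu.1
    exact ⟨u, by exact_mod_cast hD, rfl⟩
  | succ n ih =>
    intro u hu
    obtain ⟨y, hy, ha, ht⟩ := hu.pred
    obtain ⟨p, hp, h1, h2, h3⟩ := ih y hy
    have hnot : u ∉ p.2 := by
      intro hup
      obtain ⟨i, hi, hm⟩ := (h3 u hup).2
      have := hm.uniq hu
      omega
    refine ⟨(u, insert u p.2), ?_, rfl, ?_, ?_⟩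
    · rw [Fam, Finset.mem_biUnion]
      refine ⟨p, hp, Finset.mem_image.2 ⟨u, ?_, rfl⟩⟩
      rw [h1]
      exact hnb y u ha
    · simp only
      rw [Finset.card_insert_of_notMem hnot, h2]
    · intro x hx
      rcases Finset.mem_insert.1 hx with rfl | hx
      · exact ⟨ht, n + 1, le_rfl, hu⟩
      · obtain ⟨a, i, hi, hm⟩ := h3 x hx
        exact ⟨a, i, by omega, hm⟩

theorem unif_Iio (η : ℝ) : unif (Iio η) ≤ ENNReal.ofReal η := by
  unfold unif
  rw [Measure.restrict_apply measurableSet_Iio]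
  calc volume (Iio η ∩ Icc 0 1) ≤ volume (Ico 0 η) :=
        measure_mono fun x hx => ⟨hx.2.1, hx.1⟩
    _ = ENNReal.ofReal η := by rw [Real.volume_Ico, sub_zero]

theorem prob_le (η : ℝ) (A : Finset V) :
    P {τ : V → ℝ | ∀ x ∈ A, τ x < η} ≤ ENNReal.ofReal η ^ A.card := by
  have e : {τ : V → ℝ | ∀ x ∈ A, τ x < η} = Set.pi (A : Set V) (fun _ => Iio η) := by
    ext τ
    simp [Set.mem_pi]
  rw [e]
  unfold P
  rw [Measure.infinitePi_pi _ (fun _ _ => measurableSet_Iio), Finset.prod_const]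
  exact pow_le_pow_left' (unif_Iio η) _

theorem main (hG : SpecGEO) (D : Finset V) (h0 : (0 : V) ∈ D) {η : ℝ} (hη : 0 < η)
    (hη2 : η ≤ 1 / 12) (r : ℝ) (hr : ∀ a ∈ D, ∀ b ∈ D, dis a b ≤ r) (n N : ℕ)
    (hN : 2 * (n : ℝ) + r < N) :
    P {τ | Big N (Cl (Ea η τ D) 0)} ≤ (D.card : ENNReal) * (1 / 2) ^ n := by
  classical
  choose nb hnb1 hnb2 using hG.2.2.2.1
  have hsub : {τ : V → ℝ | Big N (Cl (Ea η τ D) 0)} ⊆
      ⋃ p ∈ (Fam D nb n).filter (fun p => p.2.card = n), {τ : V → ℝ | ∀ x ∈ p.2, τ x < η} := by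
    rintro τ ⟨u, hu, v, hv, huv⟩
    have hex : ∃ w, Mn (D : Set V) η τ n w := by
      by_contra hcon
      have hall : ∀ w ∈ Cl (Ea η τ D) 0, ∃ d ∈ (D : Set V), dis d w ≤ n := by
        intro w hw
        obtain ⟨k, hk⟩ := exists_mn (exists_rch (D := (D : Set V)) (by exact_mod_cast h0) hw)
        have hkn : k < n := by
          by_contra hkn
          push Not at hkn
          obtain ⟨m, rfl⟩ := Nat.exists_eq_add_of_le hkn
          exact hcon (exists_mn_level m w hk)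
        obtain ⟨d, hd, hdw⟩ := rch_dist hG k w hk.1
        refine ⟨d, hd, hdw.trans ?_⟩
        exact_mod_cast hkn.le
      obtain ⟨d, hd, hdu⟩ := hall u hu
      obtain ⟨d', hd', hdv⟩ := hall v hv
      have t1 := (hG.1 u d v).2.2
      have t2 := (hG.1 d d' v).2.2
      have t3 := (hG.1 u d v).1
      have t4 := hr d (by exact_mod_cast hd) d' (by exact_mod_cast hd')
      linarith
    obtain ⟨w, hw⟩ := hex
    obtain ⟨p, hp, _, h2, h3⟩ := mem_fam hnb2 n w hw
    refine mem_biUnion (x := p) (Finset.mem_coe.2 (Finset.mem_filter.2 ⟨hp, h2⟩)) ?_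
    exact fun x hx => (h3 x hx).1
  refine (measure_mono hsub).trans ((measure_biUnion_finset_le _ _).trans ?_)
  calc ∑ p ∈ (Fam D nb n).filter (fun p => p.2.card = n), P {τ : V → ℝ | ∀ x ∈ p.2, τ x < η}
      ≤ ∑ p ∈ (Fam D nb n).filter (fun p => p.2.card = n), ENNReal.ofReal η ^ n := by
        refine Finset.sum_le_sum fun p hp => ?_
        have := prob_le η p.2
        rwa [(Finset.mem_filter.1 hp).2] at this
    _ = (((Fam D nb n).filter (fun p => p.2.card = n)).card : ENNReal) * ENNReal.ofReal η ^ n := by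
        rw [Finset.sum_const, nsmul_eq_mul]
    _ ≤ ((D.card * 6 ^ n : ℕ) : ENNReal) * ENNReal.ofReal η ^ n := by
        refine mul_le_mul_left ?_ _
        exact_mod_cast (Finset.card_filter_le _ _).trans (card_fam D nb hnb1 n)
    _ = (D.card : ENNReal) * (6 * ENNReal.ofReal η) ^ n := by
        push_cast
        rw [mul_pow, mul_assoc]
    _ ≤ (D.card : ENNReal) * (1 / 2) ^ n := by
        refine mul_le_mul_right (pow_le_pow_left' ?_ n) _
        have e6 : (6 : ENNReal) = ENNReal.ofReal 6 := by norm_num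
        rw [e6, ← ENNReal.ofReal_mul (by norm_num)]
        have e2 : (1 / 2 : ENNReal) = ENNReal.ofReal (1 / 2) := by
          rw [ENNReal.ofReal_div_of_pos (by norm_num)]
          norm_num
        rw [e2]
        exact ENNReal.ofReal_le_ofReal (by linarith)

end CEEM

open CEEM in
theorem specCEE (hGEO : SpecGEO) : SpecCEE := by
  intro D hD h0 η hη hη2
  obtain ⟨r, hr⟩ := ((hD.prod hD).image (fun p : V × V => dis p.1 p.2)).bddAbove
  have hr' : ∀ a ∈ hD.toFinset, ∀ b ∈ hD.toFinset, dis a b ≤ r := by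
    intro a ha b hb
    refine hr ⟨(a, b), ⟨?_, ?_⟩, rfl⟩
    · exact hD.mem_toFinset.1 ha
    · exact hD.mem_toFinset.1 hb
  have h0' : (0 : V) ∈ hD.toFinset := hD.mem_toFinset.2 h0
  have hlim : Tendsto (fun n : ℕ => (hD.toFinset.card : ENNReal) * (1 / 2) ^ n) atTop (𝓝 0) := by
    have h1 : Tendsto (fun n : ℕ => (1 / 2 : ENNReal) ^ n) atTop (𝓝 0) :=
      ENNReal.tendsto_pow_atTop_nhds_zero_of_lt_one (by norm_num)
    have h2 := ENNReal.Tendsto.const_mul (a := (hD.toFinset.card : ENNReal)) h1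
      (Or.inr (ENNReal.natCast_ne_top _))
    rwa [mul_zero] at h2
  rw [ENNReal.tendsto_nhds_zero] at hlim ⊢
  intro ε hε
  obtain ⟨n, hn⟩ := (hlim ε hε).exists
  filter_upwards [(tendsto_natCast_atTop_atTop (R := ℝ)).eventually_gt_atTop (2 * (n : ℝ) + r)]
    with N hN
  have := main hGEO hD.toFinset h0' hη hη2 r hr' n N hN
  rw [hD.coe_toFinset] at this
  exact this.trans hn

end

end Pool.Agent.Lib.MP4c860b.FZ
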