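import Pool.Agent.Lib.MP_4c860b_pr.FZ.Spec

/-!
# Module CLU (helper52)
-/

set_option autoImplicit false

namespace Pool.Agent.Lib.MP4c860b.FZ

namespace CLUM

open Relation

theorem cl_cases {S : Set V} {v u : V} (h : u ∈ Cl S v) : u = v ∨ u ∈ S := by
  rcases ReflTransGen.cases_tail h with h1 | ⟨c, -, -, hc⟩
  · exact Or.inl h1
  · exact Or.inr hc

theorem cl_self (S : Set V) (v : V) : v ∈ Cl S v := ReflTransGen.refl

theorem cl_step {S : Set V} {v b c : V} (hb : b ∈ Cl S v) (ha : Adj b c) (hc : c ∈ S) :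
    c ∈ Cl S v := ReflTransGen.tail hb ⟨ha, hc⟩

theorem cl_trans {S : Set V} {u v w : V} (h1 : v ∈ Cl S u) (h2 : w ∈ Cl S v) : w ∈ Cl S u :=
  ReflTransGen.trans h1 h2

theorem cl_mono {S T : Set V} (h : S ⊆ T) {u v : V} (h1 : v ∈ Cl S u) : v ∈ Cl T u := by
  induction h1 with
  | refl => exact ReflTransGen.refl
  | @tail b c hb hbc ih => exact cl_step ih hbc.1 (h hbc.2)

theorem cl_conn (hsym : ∀ u v : V, Adj u v → Adj v u) (S : Set V) (v : V) : Conn (Cl S v) := by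
  have h1 : ∀ u ∈ Cl S v, u ∈ Cl (Cl S v) v := by
    intro u hu
    induction hu with
    | refl => exact ReflTransGen.refl
    | @tail b c hb hbc ih => exact cl_step ih hbc.1 (cl_step hb hbc.1 hbc.2)
  have h2 : ∀ u ∈ Cl S v, v ∈ Cl (Cl S v) u := by
    intro u hu
    induction hu with
    | refl => exact ReflTransGen.refl
    | @tail b c hb hbc ih =>
      exact ReflTransGen.head ⟨hsym b c hbc.1, hb⟩ ih
  intro u hu u' hu'
  exact cl_trans (h2 u hu) (h1 u' hu')

theorem conn_sub {S A : Set V} {v : V} (hA : Conn A) (hv : v ∈ A) (hS : A ⊆ insert v S) :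
    A ⊆ Cl S v := by
  intro u hu
  have h := hA v hv u hu
  clear hu
  induction h with
  | refl => exact ReflTransGen.refl
  | @tail b c hb hbc ih =>
    rcases hS hbc.2 with h1 | h1
    · rw [h1]; exact cl_self S v
    · exact cl_step ih hbc.1 h1

theorem cl_congr {S S' : Set V} {v : V}
    (h : ∀ x, (∃ u ∈ Cl S v, Adj u x) → (x ∈ S ↔ x ∈ S')) : Cl S' v = Cl S v := by
  apply Set.Subset.antisymm
  · intro u hu
    induction hu with
    | refl => exact ReflTransGen.refl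
    | @tail b c hb hbc ih =>
      exact cl_step ih hbc.1 ((h c ⟨b, ih, hbc.1⟩).2 hbc.2)
  · intro u hu
    induction hu with
    | refl => exact ReflTransGen.refl
    | @tail b c hb hbc ih =>
      exact cl_step ih hbc.1 ((h c ⟨b, hb, hbc.1⟩).1 hbc.2)

theorem conn_union (hsym : ∀ u v : V, Adj u v → Adj v u) {A B : Set V} (hA : Conn A)
    (hB : Conn B) (h : ∃ u ∈ A, ∃ v ∈ B, u = v ∨ Adj u v) : Conn (A ∪ B) := by
  obtain ⟨u, hu, v, hv, huv⟩ := h
  have hAm : ∀ p ∈ A, ∀ q ∈ A, q ∈ Cl (A ∪ B) p := fun p hp q hq =>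
    cl_mono Set.subset_union_left (hA p hp q hq)
  have hBm : ∀ p ∈ B, ∀ q ∈ B, q ∈ Cl (A ∪ B) p := fun p hp q hq =>
    cl_mono Set.subset_union_right (hB p hp q hq)
  have h1 : v ∈ Cl (A ∪ B) u := by
    rcases huv with h1 | h1
    · rw [← h1]; exact cl_self _ u
    · exact cl_step (cl_self _ u) h1 (Or.inr hv)
  have h2 : u ∈ Cl (A ∪ B) v := by
    rcases huv with h1 | h1
    · rw [← h1]; exact cl_self _ u
    · exact cl_step (cl_self _ v) (hsym u v h1) (Or.inl hu)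
  intro p hp q hq
  rcases hp with hp | hp <;> rcases hq with hq | hq
  · exact hAm p hp q hq
  · exact cl_trans (hAm p hp u hu) (cl_trans h1 (hBm v hv q hq))
  · exact cl_trans (hBm p hp v hv) (cl_trans h2 (hAm u hu q hq))
  · exact hBm p hp q hq

theorem conn_singleton (u : V) : Conn {u} := by
  intro a ha b hb
  rw [Set.mem_singleton_iff] at ha hb
  rw [ha, hb]
  exact cl_self _ u

theorem finite_path (hsym : ∀ u v : V, Adj u v → Adj v u) {A : Set V} {u : V} (hu : u ∈ A)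
    {v : V} (hv : v ∈ Cl A u) : ∃ A' ⊆ A, A'.Finite ∧ Conn A' ∧ u ∈ A' ∧ v ∈ A' := by
  induction hv with
  | refl =>
    exact ⟨{u}, Set.singleton_subset_iff.2 hu, Set.finite_singleton u, conn_singleton u,
      Set.mem_singleton u, Set.mem_singleton u⟩
  | @tail b c hb hbc ih =>
    obtain ⟨A', h1, h2, h3, h4, h5⟩ := ih
    refine ⟨A' ∪ {c}, Set.union_subset h1 (Set.singleton_subset_iff.2 hbc.2),
      h2.union (Set.finite_singleton c), ?_, Or.inl h4, Or.inr (Set.mem_singleton c)⟩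
    exact conn_union hsym h3 (conn_singleton c) ⟨b, h5, c, Set.mem_singleton c, Or.inr hbc.1⟩

theorem big_finite (hsym : ∀ u v : V, Adj u v → Adj v u) {N : ℕ} {A : Set V} (hA : Conn A)
    (hb : Big N A) : ∃ A' ⊆ A, A'.Finite ∧ Conn A' ∧ Big N A' := by
  obtain ⟨u, hu, v, hv, huv⟩ := hb
  obtain ⟨A', h1, h2, h3, h4, h5⟩ := finite_path hsym hu (hA u hu v hv)
  exact ⟨A', h1, h2, h3, u, h4, v, h5, huv⟩

theorem big_ball (hG : SpecGEO) {N : ℕ} {A : Set V} {v : V} (hA : Conn A) (hv : v ∈ A)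
    (hb : Big N A) :
    ∃ A' ⊆ A, Conn A' ∧ v ∈ A' ∧ Big N A' ∧ ∀ x ∈ A', dis v x ≤ N + 2 := by
  obtain ⟨g1, g2, -, -, -⟩ := hG
  by_cases hall : ∀ x ∈ A, dis v x ≤ N + 2
  · exact ⟨A, subset_rfl, hA, hv, hb, hall⟩
  · push Not at hall
    obtain ⟨x, hx, hxN⟩ := hall
    obtain ⟨B, hB⟩ : ∃ B : Set V, B = {y | dis v y ≤ (N : ℝ) + 2} := ⟨_, rfl⟩
    have hvB : v ∈ B := by
      rw [hB, Set.mem_ofPred_eq, (g1 v v v).2.1]
      positivity
    have hsub : ∀ y ∈ Cl (A ∩ B) v, y ∈ A ∩ B := by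
      intro y hy
      rcases cl_cases hy with h | h
      · rw [h]; exact ⟨hv, hvB⟩
      · exact h
    have key : ∀ w ∈ Cl A v, w ∈ Cl (A ∩ B) v ∨
        ∃ y ∈ Cl (A ∩ B) v, ∃ z, Adj y z ∧ z ∉ B := by
      intro w hw
      induction hw with
      | refl => exact Or.inl (cl_self _ v)
      | @tail b c hb hbc ih =>
        rcases ih with h | h
        · by_cases hc : c ∈ B
          · exact Or.inl (cl_step h hbc.1 ⟨hbc.2, hc⟩)
          · exact Or.inr ⟨b, h, c, hbc.1, hc⟩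
        · exact Or.inr h
    have hxB : x ∉ B := by
      rw [hB, Set.mem_ofPred_eq, not_le]
      exact hxN
    refine ⟨Cl (A ∩ B) v, fun y hy => (hsub y hy).1, cl_conn (fun u v h => (g2 u v h).1) _ v,
      cl_self _ v, ?_, ?_⟩
    · rcases key x (hA v hv x hx) with h | ⟨y, hy, z, hyz, hz⟩
      · exact absurd (hsub x h).2 hxB
      · refine ⟨v, cl_self _ v, y, hy, ?_⟩
        rw [hB, Set.mem_ofPred_eq, not_le] at hz
        have h1 := (g1 v y z).2.2
        have h2 := (g2 y z hyz).2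
        linarith
    · intro y hy
      have h1 := (hsub y hy).2
      rw [hB] at h1
      exact h1

end CLUM

theorem specCLU (hGEO : SpecGEO) : SpecCLU := by
  have hsym : ∀ u v : V, Adj u v → Adj v u := fun u v h => (hGEO.2.1 u v h).1
  exact ⟨fun S v u h => CLUM.cl_cases h,
    fun S v => ⟨CLUM.cl_self S v, CLUM.cl_conn hsym S v⟩,
    fun S A v h1 h2 h3 => CLUM.conn_sub h1 h2 h3,
    fun S S' v h => CLUM.cl_congr h,
    fun N A h1 h2 => CLUM.big_finite hsym h1 h2,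
    fun N A v h1 h2 h3 => CLUM.big_ball hGEO h1 h2 h3,
    fun A B h1 h2 h3 => CLUM.conn_union hsym h1 h2 h3⟩

end Pool.Agent.Lib.MP4c860b.FZ
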