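import Pool.Agent.Lib.MP_4c860b_pr.FZ.Spec

/-!
# MP_4c860b_pr : module DIA (connected sets of unfrozen vertices are small)
-/

set_option autoImplicit false

namespace Pool.Agent.Lib.MP4c860b.FZ

open Set

theorem specDIA (hCLU : SpecCLU) : SpecDIA := by
  intro N τ Fr hτ hP s A hA hs hB
  obtain ⟨c1, c2, c3, c4, c5, c6, c7⟩ := hCLU
  obtain ⟨A', hA'A, hfin, hconn, hbig⟩ := c5 N A hA hB
  obtain ⟨a, ha, b, hb, hab⟩ := hbig
  obtain ⟨v, hv, hmax⟩ := Set.exists_max_image A' τ hfin ⟨a, ha⟩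
  have hvs := hs v (hA'A hv)
  have hsub : A' ⊆ insert v (Bk τ Fr v) := by
    intro x hx
    by_cases hxv : x = v
    · left
      exact hxv
    · right
      have h1 : τ x < τ v := lt_of_le_of_ne (hmax x hx) (fun e => hxv (hτ e))
      exact ⟨h1, fun w hw => (hs x (hA'A hx)).2 w (hw.trans hvs.1)⟩
  have hcl := c3 (Bk τ Fr v) A' v hconn hv hsub
  have hbig2 : Big N (Cl (Bk τ Fr v) v) := ⟨a, hcl ha, b, hcl hb, hab⟩
  have hvF : v ∈ Fr v := by
    rw [hP v]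
    exact ⟨(c2 _ v).1, hbig2⟩
  exact hvs.2 v hvs.1 hvF

end Pool.Agent.Lib.MP4c860b.FZ
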