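import Mathlib

/-!
# Modified diameter-frozen percolation on the triangular lattice (MP_4c860b_pr): definitions
-/

set_option autoImplicit false

namespace Pool.Agent.Lib.MP4c860b.FZ

open MeasureTheory Set Filter Topology

noncomputable section

/-- The vertices of the triangular lattice: `(x, y)` stands for `x + y e^{iπ/3}`. -/
abbrev V := ℤ × ℤ

/-- Adjacent vertices (at Euclidean distance `1`). -/
def Adj (u v : V) : Prop :=
  (v.1 - u.1 = 1 ∧ v.2 - u.2 = 0) ∨ (v.1 - u.1 = -1 ∧ v.2 - u.2 = 0) ∨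
  (v.1 - u.1 = 0 ∧ v.2 - u.2 = 1) ∨ (v.1 - u.1 = 0 ∧ v.2 - u.2 = -1) ∨
  (v.1 - u.1 = 1 ∧ v.2 - u.2 = -1) ∨ (v.1 - u.1 = -1 ∧ v.2 - u.2 = 1)

/-- `‖u - v‖_∞` in the plane (the coordinates of `(x, y)` are `x + y / 2` and `(√3 / 2) y`). -/
def dis (u v : V) : ℝ :=
  max |((u.1 : ℝ) + (u.2 : ℝ) / 2) - ((v.1 : ℝ) + (v.2 : ℝ) / 2)|
    |Real.sqrt 3 / 2 * (u.2 : ℝ) - Real.sqrt 3 / 2 * (v.2 : ℝ)|

/-- `diam A ≥ N`. -/
def Big (N : ℕ) (A : Set V) : Prop := ∃ u ∈ A, ∃ v ∈ A, (N : ℝ) ≤ dis u v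

/-- The cluster of `v` in `{v} ∪ S`: the vertices which can be reached from `v` by a path all of
whose further vertices are in `S`. -/
def Cl (S : Set V) (v : V) : Set V :=
  {u | Relation.ReflTransGen (fun a b => Adj a b ∧ b ∈ S) v u}

/-- Connected sets of vertices. -/
def Conn (A : Set V) : Prop := ∀ u ∈ A, ∀ v ∈ A, v ∈ Cl A u

/-- `Fr w` is the set of the vertices which freeze at the time `τ w`. The black (unfrozen) vertices
just before the time `τ v`. -/
def Bk (τ : V → ℝ) (Fr : V → Set V) (v : V) : Set V :=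
  {x | τ x < τ v ∧ ∀ w, τ w < τ v → x ∉ Fr w}

/-- The process with parameter `N` driven by the times `τ`: at the time `τ v` the set
`B = Cl (Bk τ Fr v) v` (`v` and the black clusters adjacent to it) freezes if `diam B ≥ N`, and
otherwise nothing freezes (`v` becomes black). -/
def IsProc (N : ℕ) (τ : V → ℝ) (Fr : V → Set V) : Prop :=
  ∀ v, Fr v = {u | u ∈ Cl (Bk τ Fr v) v ∧ Big N (Cl (Bk τ Fr v) v)}

open Classical in
/-- The process (it exists and is unique for almost all `τ`). -/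
def proc (N : ℕ) (τ : V → ℝ) : V → Set V :=
  if h : ∃ Fr, IsProc N τ Fr then h.choose else fun _ => ∅

/-- `x` freezes at a time `≤ s`. -/
def Froz (τ : V → ℝ) (Fr : V → Set V) (s : ℝ) (x : V) : Prop := ∃ v, τ v ≤ s ∧ x ∈ Fr v

/-- The black unfrozen cluster of the origin at time `1` (when every vertex is black or frozen);
it is empty if the origin is frozen. -/
def C1 (Fr : V → Set V) : Set V := {u | (∀ v, (0 : V) ∉ Fr v) ∧ u ∈ Cl {x | ∀ v, x ∉ Fr v} 0}

/-- The uniform distribution on `[0, 1]`. -/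
def unif : Measure ℝ := volume.restrict (Icc 0 1)

instance : IsProbabilityMeasure unif := ⟨by simp [unif]⟩

/-- The law of the independent uniform times. -/
def P : Measure (V → ℝ) := Measure.infinitePi (fun _ : V => unif)

instance : IsProbabilityMeasure P := by unfold P; infer_instance

end

end Pool.Agent.Lib.MP4c860b.FZ
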