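import Pool.Agent.Lib.MP_4c860b_pr.FZ.Spec

/-!
# MP_4c860b_pr, module EXC: exchangeability
-/

set_option autoImplicit false

namespace Pool.Agent.Lib.MP4c860b.FZ

open MeasureTheory Set Filter Topology

namespace EXCM

/-- the relabelling as a measurable equivalence -/
def rel (e : Equiv.Perm V) : (V → ℝ) ≃ᵐ (V → ℝ) where
  toFun τ := τ ∘ e
  invFun τ := τ ∘ e.symm
  left_inv τ := by funext x; simp
  right_inv τ := by funext x; simp
  measurable_toFun := measurable_pi_lambda _ (fun x => measurable_pi_apply (e x))
  measurable_invFun := measurable_pi_lambda _ (fun x => measurable_pi_apply (e.symm x))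

lemma map_rel (e : Equiv.Perm V) : P.map (rel e) = P := by
  unfold P
  apply Measure.eq_infinitePi
  intro s t ht
  rw [(rel e).map_apply]
  have h1 : (rel e) ⁻¹' (Set.pi (s : Set V) t) =
      Set.pi ((s.map e.toEmbedding : Finset V) : Set V) (fun y => t (e.symm y)) := by
    ext τ
    constructor
    · intro h y hy
      obtain ⟨a, ha, rfl⟩ := Finset.mem_map.1 (Finset.mem_coe.1 hy)
      have h3 : τ (e a) ∈ t a := h a ha
      show τ (e a) ∈ t (e.symm (e a))
      have h2 : e.symm (e a) = a := e.symm_apply_apply a
      rw [h2]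
      exact h3
    · intro h a ha
      have h3 : τ (e a) ∈ t (e.symm (e a)) := h (e a)
        (Finset.mem_coe.2 (Finset.mem_map_of_mem e.toEmbedding ha))
      have h2 : e.symm (e a) = a := e.symm_apply_apply a
      rw [h2] at h3
      exact h3
  rw [h1, Measure.infinitePi_pi _ (fun i _ => ht _), Finset.prod_map]
  refine Finset.prod_congr rfl (fun x _ => ?_)
  have h2 : e.symm (e x) = x := e.symm_apply_apply x
  show unif (t (e.symm (e x))) = unif (t x)
  rw [h2]

end EXCM

theorem specEXC : SpecEXC := by
  intro e A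
  have h : P ((EXCM.rel e) ⁻¹' A) = P A := by
    rw [← (EXCM.rel e).map_apply, EXCM.map_rel]
  exact h

end Pool.Agent.Lib.MP4c860b.FZ
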