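import Pool.Agent.Lib.MP_4c860b_pr.FZ.Spec

/-!
# Modified diameter-frozen percolation (MP_4c860b_pr): module EXI, existence of the process
-/

set_option autoImplicit false

namespace Pool.Agent.Lib.MP4c860b.FZ

open MeasureTheory Set Filter Topology

noncomputable section

namespace EXIM

/-- The black vertices near `v` just before the time `τ v`. -/
def S (N : ℕ) (τ : V → ℝ) (F : V → Set V) (v : V) : Set V :=
  {x | τ x < τ v ∧ dis v x ≤ N + 2 ∧ ∀ w, (τ w < τ v ∧ dis w v ≤ 2 * N + 5) → x ∉ F w}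

theorem exists_fix (N : ℕ) (τ : V → ℝ) (hwf : Wf (2 * N + 5) τ) :
    ∃ F : V → Set V, ∀ v, F v = {u | u ∈ Cl (S N τ F v) v ∧ Big N (Cl (S N τ F v) v)} := by
  unfold Wf at hwf
  let step : (v : V) → ((w : V) → (τ w < τ v ∧ dis w v ≤ 2 * (N : ℝ) + 5) → Set V) → Set V :=
    fun v G =>
      {u | u ∈ Cl {x | τ x < τ v ∧ dis v x ≤ N + 2 ∧
              ∀ (w : V) (h : τ w < τ v ∧ dis w v ≤ 2 * (N : ℝ) + 5), x ∉ G w h} v ∧
           Big N (Cl {x | τ x < τ v ∧ dis v x ≤ N + 2 ∧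
              ∀ (w : V) (h : τ w < τ v ∧ dis w v ≤ 2 * (N : ℝ) + 5), x ∉ G w h} v)}
  refine ⟨hwf.fix step, fun v => ?_⟩
  rw [hwf.fix_eq]
  rfl

variable {N : ℕ} {τ : V → ℝ} {F : V → Set V}

theorem nobig (hCLU : SpecCLU) (hτ : Function.Injective τ)
    (hF : ∀ v, F v = {u | u ∈ Cl (S N τ F v) v ∧ Big N (Cl (S N τ F v) v)})
    (s : ℝ) (A : Set V) (hA : Conn A) (hs : ∀ x ∈ A, τ x < s ∧ ∀ w, τ w < s → x ∉ F w) :
    ¬ Big N A := by
  obtain ⟨-, h2, h3, -, h5, h6, -⟩ := hCLU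
  intro hbig
  obtain ⟨A', hA'A, hfin, hconn, hbig'⟩ := h5 N A hA hbig
  have hne : A'.Nonempty := by
    obtain ⟨u, hu, -⟩ := hbig'
    exact ⟨u, hu⟩
  obtain ⟨v, hv, hmax⟩ := Set.exists_max_image A' τ hfin hne
  obtain ⟨A'', hA''A', hconn'', hv'', hbig'', hdis⟩ := h6 N A' v hconn hv hbig'
  have hsub : A'' ⊆ insert v (S N τ F v) := by
    intro x hx
    by_cases hxv : x = v
    · exact Or.inl hxv
    · right
      have hlt : τ x < τ v :=
        lt_of_le_of_ne (hmax x (hA''A' hx)) (fun h => hxv (hτ h))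
      refine ⟨hlt, hdis x hx, fun w hw => ?_⟩
      exact (hs x (hA'A (hA''A' hx))).2 w (hw.1.trans (hs v (hA'A hv)).1)
  have hcl : A'' ⊆ Cl (S N τ F v) v := h3 _ _ _ hconn'' hv'' hsub
  have hB : Big N (Cl (S N τ F v) v) := by
    obtain ⟨a, ha, b, hb, hab⟩ := hbig''
    exact ⟨a, hcl ha, b, hcl hb, hab⟩
  have hvF : v ∈ F v := by
    rw [hF v]
    exact ⟨(h2 _ v).1, hB⟩
  exact (hs v (hA'A hv)).2 v (hs v (hA'A hv)).1 hvF

theorem near (hGEO : SpecGEO) (hCLU : SpecCLU) (hτ : Function.Injective τ)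
    (hF : ∀ v, F v = {u | u ∈ Cl (S N τ F v) v ∧ Big N (Cl (S N τ F v) v)})
    (v u : V) (hu : u ∈ Cl (Bk τ F v) v) : dis v u < N + 1 := by
  have hN : (0 : ℝ) ≤ N := Nat.cast_nonneg N
  have hu' : Relation.ReflTransGen (fun a b => Adj a b ∧ b ∈ Bk τ F v) v u := hu
  rcases Relation.ReflTransGen.cases_head hu' with h | ⟨x₁, ⟨hadj, hx₁⟩, hpath⟩
  · subst h
    rw [(hGEO.1 v v v).2.1]
    linarith
  · have hnb : ¬ Big N (Cl (Bk τ F v) x₁) := by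
      refine nobig hCLU hτ hF (τ v) _ (hCLU.2.1 _ x₁).2 (fun x hx => ?_)
      rcases hCLU.1 _ _ _ hx with h | h
      · rw [h]; exact ⟨hx₁.1, hx₁.2⟩
      · exact ⟨h.1, h.2⟩
    have h1 : dis x₁ u < N := by
      by_contra hcon
      push Not at hcon
      exact hnb ⟨x₁, (hCLU.2.1 _ x₁).1, u, hpath, hcon⟩
    have h2 := (hGEO.1 v x₁ u).2.2
    have h3 := (hGEO.2.1 v x₁ hadj).2
    linarith

theorem inball (hGEO : SpecGEO) (hCLU : SpecCLU)
    (hF : ∀ v, F v = {u | u ∈ Cl (S N τ F v) v ∧ Big N (Cl (S N τ F v) v)})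
    (w x : V) (hx : x ∈ F w) : dis w x ≤ N + 2 := by
  have hN : (0 : ℝ) ≤ N := Nat.cast_nonneg N
  rw [hF w] at hx
  rcases hCLU.1 _ _ _ hx.1 with h | h
  · rw [h, (hGEO.1 w w w).2.1]
    linarith
  · exact h.2.1

theorem cleq (hGEO : SpecGEO) (hCLU : SpecCLU) (hτ : Function.Injective τ)
    (hF : ∀ v, F v = {u | u ∈ Cl (S N τ F v) v ∧ Big N (Cl (S N τ F v) v)})
    (v : V) : Cl (S N τ F v) v = Cl (Bk τ F v) v := by
  refine hCLU.2.2.2.1 _ _ _ (fun x hx => ?_)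
  obtain ⟨u, hu, hadj⟩ := hx
  have h1 := near hGEO hCLU hτ hF v u hu
  have h2 := (hGEO.2.1 u x hadj).2
  have h3 := (hGEO.1 v u x).2.2
  constructor
  · rintro ⟨hlt, hw⟩
    exact ⟨hlt, by linarith, fun w hw' => hw w hw'.1⟩
  · rintro ⟨hlt, hd, hw⟩
    refine ⟨hlt, fun w hwv hxw => ?_⟩
    have h4 := inball hGEO hCLU hF w x hxw
    refine hw w ⟨hwv, ?_⟩ hxw
    have h5 := (hGEO.1 w x v).2.2
    have h6 := (hGEO.1 x v v).1
    linarith

end EXIM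

open EXIM in
/-- **EXI.** The process exists. -/
theorem specEXI (hGEO : SpecGEO) (hCLU : SpecCLU) : SpecEXI := by
  intro N τ hτ hwf
  obtain ⟨F, hF⟩ := exists_fix N τ hwf
  refine ⟨F, fun v => ?_⟩
  have h1 := hF v
  rw [cleq hGEO hCLU hτ hF v] at h1
  exact h1

end

end Pool.Agent.Lib.MP4c860b.FZ
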