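import Pool.Agent.Lib.MP_4c860b_pr.FZ.Spec

/-!
# Module FIN: the equivalence
-/

set_option autoImplicit false

namespace Pool.Agent.Lib.MP4c860b.FZ

open MeasureTheory Set Filter Topology

noncomputable section

namespace FINM

theorem froz_mono {τ : V → ℝ} {Fr : V → Set V} {s t : ℝ} {x : V} (hst : s ≤ t)
    (h : Froz τ Fr s x) : Froz τ Fr t x := by
  obtain ⟨v, hv, hx⟩ := h
  exact ⟨v, hv.trans hst, hx⟩

/-- A positive liminf of numbers at most `1`: eventually above a positive `a ≤ 1`. -/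
theorem exists_lower {f : ℕ → ENNReal} (hf : ∀ N, f N ≤ 1) (h : 0 < liminf f atTop) :
    ∃ a : ENNReal, 0 < a ∧ a ≤ 1 ∧ ∀ᶠ N in atTop, a ≤ f N := by
  obtain ⟨a, ha0, ha1⟩ := exists_between h
  have hev : ∀ᶠ N in atTop, a < f N := eventually_lt_of_lt_liminf ha1
  obtain ⟨N, hN⟩ := hev.exists
  exact ⟨a, ha0, hN.le.trans (hf N), hev.mono fun _ h => h.le⟩

theorem liminf_pos {f : ℕ → ENNReal} {a : ENNReal} (ha : 0 < a) (h : ∀ᶠ N in atTop, a ≤ f N) :
    0 < liminf f atTop :=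
  lt_of_lt_of_le ha (le_liminf_of_le (by isBoundedDefault) h)

end FINM

open FINM in
theorem specFIN (hUPP : SpecUPP) (hLOW : SpecLOW) : SpecFIN := by
  intro C hCf h0 hC hCc
  constructor
  · intro h
    obtain ⟨a, ha0, ha1, hev⟩ := exists_lower (fun N => prob_le_one) h
    have hatop : a ≠ ⊤ := ne_top_of_le_ne_top ENNReal.one_ne_top ha1
    have har : 0 < a.toReal := ENNReal.toReal_pos ha0.ne' hatop
    obtain ⟨δ, hδ0, hδ1, hδa⟩ : ∃ δ : ℝ, 0 < δ ∧ δ < 1 ∧ δ ≤ a.toReal / 2 := by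
      refine ⟨min (1 / 2) (a.toReal / 2), lt_min (by norm_num) (by linarith), ?_,
        min_le_right _ _⟩
      exact lt_of_le_of_lt (min_le_left _ _) (by norm_num)
    refine ⟨1 - δ, by linarith, ?_⟩
    have hδe : ENNReal.ofReal δ ≤ a / 2 := by
      calc ENNReal.ofReal δ ≤ ENNReal.ofReal (a.toReal / 2) := ENNReal.ofReal_le_ofReal hδa
        _ = a / 2 := by
            rw [ENNReal.ofReal_div_of_pos (by norm_num), ENNReal.ofReal_toReal hatop]
            norm_num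
    refine liminf_pos (a := a / 2) (ENNReal.half_pos ha0.ne') ?_
    filter_upwards [hev] with N hN
    have h1 := hUPP C hCf h0 N δ hδ0 hδ1
    have h2 : a / 2 + a / 2 ≤ P {τ | Froz τ (proc N τ) (1 - δ) 0} + a / 2 := by
      rw [ENNReal.add_halves]
      exact (hN.trans h1).trans (by gcongr)
    exact (ENNReal.add_le_add_iff_right
      (ne_top_of_le_ne_top hatop ENNReal.half_le_self)).1 h2
  · rintro ⟨s, hs, h⟩
    obtain ⟨a, ha0, ha1, hev⟩ := exists_lower (fun N => prob_le_one) h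
    have hatop : a ≠ ⊤ := ne_top_of_le_ne_top ENNReal.one_ne_top ha1
    obtain ⟨δ, hδ0, hδ1, hδs⟩ : ∃ δ : ℝ, 0 < δ ∧ δ < 1 ∧ s ≤ 1 - δ := by
      refine ⟨min (1 / 2) (1 - s), lt_min (by norm_num) (by linarith), ?_, ?_⟩
      · exact lt_of_le_of_lt (min_le_left _ _) (by norm_num)
      · have := min_le_right (1 / 2 : ℝ) (1 - s)
        linarith
    obtain ⟨c, hc, ε, hε, hlow⟩ := hLOW C hCf h0 hC hCc δ hδ0 hδ1
    have ha2 : 0 < a / 2 := ENNReal.half_pos ha0.ne'
    have hεev : ∀ᶠ N in atTop, ε N ≤ a / 2 :=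
      (hε.eventually (gt_mem_nhds ha2)).mono fun _ h => h.le
    refine liminf_pos (a := c * (a / 2)) (ENNReal.mul_pos hc.ne' ha2.ne') ?_
    filter_upwards [hev, hεev] with N hN hεN
    refine le_trans ?_ (hlow N)
    gcongr
    have h1 : a ≤ P {τ | Froz τ (proc N τ) (1 - δ) 0} :=
      hN.trans (measure_mono fun τ hτ => froz_mono hδs hτ)
    calc a / 2 = a - a / 2 := (ENNReal.sub_half hatop).symm
      _ ≤ P {τ | Froz τ (proc N τ) (1 - δ) 0} - ε N := tsub_le_tsub h1 hεN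

end

end Pool.Agent.Lib.MP4c860b.FZ
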