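import Pool.Agent.Lib.MP_4c860b_pr.FZ.Spec

/-!
Module FIR: if a vertex of `Q` freezes then all of `Q` freezes at this time.
-/

set_option autoImplicit false

namespace Pool.Agent.Lib.MP4c860b.FZ

open MeasureTheory Set Filter Topology

noncomputable section

namespace FIRM

/-- a cluster grows with the set -/
theorem extend {S Q : Set V} (hQS : Q ⊆ S) {v q q' : V} (hq : q ∈ Cl S v) (h : q' ∈ Cl Q q) :
    q' ∈ Cl S v := by
  have h0 : Relation.ReflTransGen (fun a b => Adj a b ∧ b ∈ Q) q q' := h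
  induction h0 with
  | refl => exact hq
  | tail h1 h2 ih => exact Relation.ReflTransGen.tail (ih h1) ⟨h2.1, hQS h2.2⟩

end FIRM

theorem specFIR (hCLU : SpecCLU) (hLOB : SpecLOB) : SpecFIR := by
  intro N C Q η s₀ τ τ' Fr Fr' h2 t _ hex
  obtain ⟨_, clu2, clu3, -, -, -, clu7⟩ := hCLU
  obtain ⟨-, lob2, lob3⟩ := hLOB N τ' Fr' h2.i2 h2.p2
  have hsh := h2.sh
  have hch : ∀ q : V, ∃ v : V, (∃ v, τ' v ≤ t ∧ q ∈ Fr' v) → τ' v ≤ t ∧ q ∈ Fr' v := by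
    intro q
    by_cases h : ∃ v, τ' v ≤ t ∧ q ∈ Fr' v
    · obtain ⟨v, hv⟩ := h
      exact ⟨v, fun _ => hv⟩
    · exact ⟨0, fun h' => absurd h' h⟩
  choose g hg using hch
  have hfin : (Q ∩ {q | Froz τ' Fr' t q}).Finite := hsh.finQ.subset Set.inter_subset_left
  have hne : (Q ∩ {q | Froz τ' Fr' t q}).Nonempty := by
    obtain ⟨q, hq, hf⟩ := hex
    exact ⟨q, hq, hf⟩
  obtain ⟨q₀, ⟨hq₀Q, hq₀F⟩, hmin⟩ := Set.exists_min_image _ (fun q => τ' (g q)) hfin hne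
  obtain ⟨hvt, hqv⟩ := hg q₀ hq₀F
  -- no vertex of `Q` froze before
  have hA : ∀ q' ∈ Q, ∀ w, τ' w < τ' (g q₀) → q' ∉ Fr' w := by
    intro q' hq' w hw hqw
    have hf : Froz τ' Fr' t q' := ⟨w, (hw.le).trans hvt, hqw⟩
    have h1 := hmin q' ⟨hq', hf⟩
    have h3 : g q' = w := lob3 q' (g q') w (hg q' hf).2 hqw
    simp only [h3] at h1
    exact absurd hw (not_lt.2 h1)
  have hfr : q₀ ∈ Cl (Bk τ' Fr' (g q₀)) (g q₀) ∧ Big N (Cl (Bk τ' Fr' (g q₀)) (g q₀)) := by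
    have h1 := hqv
    rw [h2.p2 (g q₀)] at h1
    exact h1
  -- the time is not early
  have hB : η ≤ τ' (g q₀) := by
    by_contra hlt
    have hlt' : τ' (g q₀) < η := not_le.1 hlt
    have hBE : Cl (Bk τ' Fr' (g q₀)) (g q₀) ⊆ Ea η τ (C ∪ Q) := by
      intro x hx
      have hxF : x ∈ Fr' (g q₀) := by
        rw [h2.p2 (g q₀)]
        exact ⟨hx, hfr.2⟩
      have hxt : τ' x < η := lt_of_le_of_lt (lob2 _ x hxF).1 hlt'
      by_cases hxD : x ∈ C ∪ Q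
      · exact Or.inl hxD
      · right
        rw [← h2.off x hxD]
        exact hxt
    have hconn : Conn (Cl (Bk τ' Fr' (g q₀)) (g q₀) ∪ (C ∪ Q)) :=
      clu7 _ _ (clu2 _ _).2 hsh.conn ⟨q₀, hfr.1, q₀, Or.inr hq₀Q, Or.inl rfl⟩
    have hsub : Cl (Bk τ' Fr' (g q₀)) (g q₀) ∪ (C ∪ Q) ⊆ Cl (Ea η τ (C ∪ Q)) 0 := by
      refine clu3 _ _ 0 hconn (Or.inr (Or.inl hsh.zero)) ?_
      rintro x (hx | hx)
      · exact Or.inr (hBE hx)
      · exact Or.inr (Or.inl hx)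
    apply h2.small
    obtain ⟨u, hu, w, hw, huw⟩ := hfr.2
    exact ⟨u, hsub (Or.inl hu), w, hsub (Or.inl hw), huw⟩
  have hQB : Q ⊆ Bk τ' Fr' (g q₀) := fun q' hq' =>
    ⟨lt_of_lt_of_le (h2.early q' hq') hB, hA q' hq'⟩
  intro q' hq'
  refine ⟨g q₀, hvt, ?_⟩
  rw [h2.p2 (g q₀)]
  exact ⟨FIRM.extend hQB hfr.1 (hsh.connQ q₀ hq₀Q q' hq'), hfr.2⟩

end

end Pool.Agent.Lib.MP4c860b.FZ
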