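import Pool.Agent.Lib.MP_4c860b_pr.FZ.Spec

/-!
# GEO: elementary facts on the triangular lattice
-/

set_option autoImplicit false

open MeasureTheory Set Filter Topology

namespace Pool.Agent.Lib.MP4c860b.FZ

namespace GEOM

lemma sqrt3 : 0 < Real.sqrt 3 ∧ Real.sqrt 3 ≤ 2 := by
  constructor
  · positivity
  · rw [Real.sqrt_le_left (by norm_num)]
    norm_num

lemma symm (u v : V) : dis u v = dis v u := by
  unfold dis
  rw [abs_sub_comm, abs_sub_comm (Real.sqrt 3 / 2 * (u.2 : ℝ))]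

lemma self (u : V) : dis u u = 0 := by
  unfold dis
  simp

lemma tri (u v w : V) : dis u w ≤ dis u v + dis v w := by
  unfold dis
  refine max_le ?_ ?_
  · exact (abs_sub_le _ _ _).trans (add_le_add (le_max_left _ _) (le_max_left _ _))
  · exact (abs_sub_le _ _ _).trans (add_le_add (le_max_right _ _) (le_max_right _ _))

lemma adj_symm {u v : V} (h : Adj u v) : Adj v u := by
  unfold Adj at *
  omega

lemma adj_dis {u v : V} (h : Adj u v) : dis u v ≤ 1 := by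
  obtain ⟨s0, s2⟩ := sqrt3
  have key : ∀ a b : ℤ, v.1 - u.1 = a → v.2 - u.2 = b → |(a : ℝ) + (b : ℝ) / 2| ≤ 1 →
      |(b : ℝ)| ≤ 1 → dis u v ≤ 1 := by
    intro a b ha hb h1 h2
    have ha' : (v.1 : ℝ) - u.1 = a := by exact_mod_cast ha
    have hb' : (v.2 : ℝ) - u.2 = b := by exact_mod_cast hb
    unfold dis
    refine max_le ?_ ?_
    · have e : ((u.1 : ℝ) + (u.2 : ℝ) / 2) - ((v.1 : ℝ) + (v.2 : ℝ) / 2) =
          -((a : ℝ) + (b : ℝ) / 2) := by
        rw [← ha', ← hb']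
        ring
      rw [e, abs_neg]
      exact h1
    · have e : Real.sqrt 3 / 2 * (u.2 : ℝ) - Real.sqrt 3 / 2 * (v.2 : ℝ) =
          -(Real.sqrt 3 / 2 * (b : ℝ)) := by
        rw [← hb']
        ring
      rw [e, abs_neg, abs_mul, abs_of_pos (by positivity)]
      calc Real.sqrt 3 / 2 * |(b : ℝ)| ≤ 1 * 1 :=
            mul_le_mul (by linarith) h2 (abs_nonneg _) (by norm_num)
        _ = 1 := by norm_num
  rcases h with ⟨ha, hb⟩ | ⟨ha, hb⟩ | ⟨ha, hb⟩ | ⟨ha, hb⟩ | ⟨ha, hb⟩ | ⟨ha, hb⟩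
  all_goals
    refine key _ _ ha hb ?_ ?_ <;> norm_num [abs_le]

lemma ball_finite (u : V) (r : ℝ) : {v | dis u v ≤ r}.Finite := by
  obtain ⟨s0, s2⟩ := sqrt3
  have s1 : 1 ≤ Real.sqrt 3 := by
    rw [Real.le_sqrt (by norm_num) (by norm_num)]
    norm_num
  obtain ⟨R, hR⟩ := exists_nat_ge (2 * r)
  have hsub : {v | dis u v ≤ r} ⊆
      (Icc (u.1 - 2 * (R : ℤ)) (u.1 + 2 * (R : ℤ))) ×ˢ (Icc (u.2 - (R : ℤ)) (u.2 + (R : ℤ))) := by
    intro v hv
    have hv' : dis u v ≤ r := hv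
    unfold dis at hv'
    have h1 := (le_max_left _ _).trans hv'
    have h2 := (le_max_right _ _).trans hv'
    have hr0 : 0 ≤ r := (abs_nonneg _).trans h1
    have h3 : |(u.2 : ℝ) - v.2| ≤ 2 * r := by
      have e : Real.sqrt 3 / 2 * (u.2 : ℝ) - Real.sqrt 3 / 2 * (v.2 : ℝ) =
          Real.sqrt 3 / 2 * ((u.2 : ℝ) - v.2) := by ring
      rw [e, abs_mul, abs_of_pos (by positivity)] at h2
      have h4 : 1 / 2 * |(u.2 : ℝ) - v.2| ≤ Real.sqrt 3 / 2 * |(u.2 : ℝ) - v.2| :=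
        mul_le_mul_of_nonneg_right (by linarith) (abs_nonneg _)
      linarith
    have h3' : |(u.2 : ℝ) - v.2| ≤ R := h3.trans hR
    have h5 : |(u.1 : ℝ) - v.1| ≤ 2 * R := by
      rw [abs_le] at h1 h3' h3 ⊢
      constructor <;> linarith [h1.1, h1.2, h3.1, h3.2]
    rw [abs_le] at h3' h5
    have a1 : (u.2 : ℤ) - v.2 ≤ R := by exact_mod_cast h3'.2
    have a2 : -(R : ℤ) ≤ (u.2 : ℤ) - v.2 := by exact_mod_cast h3'.1
    have a3 : (u.1 : ℤ) - v.1 ≤ 2 * R := by exact_mod_cast h5.2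
    have a4 : -(2 * (R : ℤ)) ≤ (u.1 : ℤ) - v.1 := by exact_mod_cast h5.1
    refine ⟨⟨?_, ?_⟩, ?_, ?_⟩ <;> linarith
  exact ((finite_Icc _ _).prod (finite_Icc _ _)).subset hsub

end GEOM

open GEOM in
theorem specGEO : SpecGEO := by
  refine ⟨fun u v w => ⟨symm u v, self u, tri u v w⟩, fun u v h => ⟨adj_symm h, adj_dis h⟩,
    ball_finite, fun u => ?_, fun u v a => ⟨?_, ?_⟩⟩
  · refine ⟨{(u.1 + 1, u.2), (u.1 - 1, u.2), (u.1, u.2 + 1), (u.1, u.2 - 1), (u.1 + 1, u.2 - 1),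
      (u.1 - 1, u.2 + 1)}, Finset.card_le_six, fun v hv => ?_⟩
    simp only [Finset.mem_insert, Finset.mem_singleton, Prod.ext_iff]
    unfold Adj at hv
    omega
  · unfold dis
    have e1 : (((u + a).1 : ℤ) : ℝ) = (u.1 : ℝ) + a.1 := by
      rw [Prod.fst_add]
      push_cast
      ring
    have e2 : (((v + a).1 : ℤ) : ℝ) = (v.1 : ℝ) + a.1 := by
      rw [Prod.fst_add]
      push_cast
      ring
    have e3 : (((u + a).2 : ℤ) : ℝ) = (u.2 : ℝ) + a.2 := by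
      rw [Prod.snd_add]
      push_cast
      ring
    have e4 : (((v + a).2 : ℤ) : ℝ) = (v.2 : ℝ) + a.2 := by
      rw [Prod.snd_add]
      push_cast
      ring
    rw [e1, e2, e3, e4]
    congr 2 <;> ring
  · unfold Adj
    simp only [Prod.fst_add, Prod.snd_add]
    constructor <;> intro h <;> omega

end Pool.Agent.Lib.MP4c860b.FZ
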