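import Pool.Agent.Lib.MP_4c860b_pr.FZ.Spec

/-!
# MP_4c860b_pr: the random times are almost surely distinct and in the unit interval
-/

set_option autoImplicit false

namespace Pool.Agent.Lib.MP4c860b.FZ

open MeasureTheory Set Filter Topology

namespace INJM

theorem unif_point (x : ℝ) : unif {x} = 0 := by
  unfold unif
  exact measure_singleton x

theorem diag_null : (unif.prod unif) {p : ℝ × ℝ | p.1 = p.2} = 0 := by
  have hm : MeasurableSet {p : ℝ × ℝ | p.1 = p.2} := measurableSet_eq_fun measurable_fst measurable_snd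
  rw [Measure.measure_prod_null hm]
  refine Filter.Eventually.of_forall fun x => ?_
  have e : (Prod.mk x ⁻¹' {p : ℝ × ℝ | p.1 = p.2}) = {x} := by
    ext y
    constructor
    · intro h
      exact (Eq.symm h : y = x)
    · intro h
      exact (Eq.symm h : x = y)
  show unif (Prod.mk x ⁻¹' {p : ℝ × ℝ | p.1 = p.2}) = 0
  rw [e]
  exact unif_point x

theorem map_eval (x : V) : P.map (fun τ : V → ℝ => τ x) = unif :=
  Measure.infinitePi_map_eval (fun _ : V => unif) x

theorem pair_null (x y : V) (hxy : x ≠ y) : ∀ᵐ τ ∂P, τ x ≠ τ y := by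
  have hi : ProbabilityTheory.iIndepFun (fun (v : V) (τ : V → ℝ) => τ v) P :=
    ProbabilityTheory.iIndepFun_infinitePi (P := fun _ : V => unif) (X := fun (_ : V) (t : ℝ) => t)
      (fun _ => measurable_id)
  have h2 : ProbabilityTheory.IndepFun (fun τ : V → ℝ => τ x) (fun τ : V → ℝ => τ y) P :=
    hi.indepFun hxy
  have h3 := (ProbabilityTheory.indepFun_iff_map_prod_eq_prod_map_map
    (measurable_pi_apply x).aemeasurable (measurable_pi_apply y).aemeasurable).mp h2
  rw [map_eval, map_eval] at h3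
  have hm : MeasurableSet {p : ℝ × ℝ | p.1 = p.2} := measurableSet_eq_fun measurable_fst measurable_snd
  have h4 : P ((fun τ : V → ℝ => (τ x, τ y)) ⁻¹' {p : ℝ × ℝ | p.1 = p.2}) = 0 := by
    rw [← Measure.map_apply ((measurable_pi_apply x).prodMk (measurable_pi_apply y)) hm, h3]
    exact diag_null
  rw [ae_iff]
  have e : {τ : V → ℝ | ¬ τ x ≠ τ y} = (fun τ : V → ℝ => (τ x, τ y)) ⁻¹' {p : ℝ × ℝ | p.1 = p.2} := by
    ext τ
    exact not_not
  rw [e]
  exact h4

end INJM

theorem specINJ : SpecINJ := by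
  have h1 : ∀ᵐ τ ∂P, ∀ x y : V, x ≠ y → τ x ≠ τ y := by
    rw [ae_all_iff]
    intro x
    rw [ae_all_iff]
    intro y
    by_cases hxy : x = y
    · exact Filter.Eventually.of_forall fun τ h => absurd hxy h
    · filter_upwards [INJM.pair_null x y hxy] with τ hτ _
      exact hτ
  have h2 : ∀ᵐ τ ∂P, ∀ x : V, 0 ≤ τ x ∧ τ x ≤ 1 := by
    rw [ae_all_iff]
    intro x
    have h0 : ∀ᵐ t ∂unif, 0 ≤ t ∧ t ≤ 1 := by
      unfold unif
      filter_upwards [ae_restrict_mem measurableSet_Icc] with t ht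
      exact ht
    rw [← INJM.map_eval x] at h0
    exact ae_of_ae_map (measurable_pi_apply x).aemeasurable h0
  filter_upwards [h1, h2] with τ a b
  refine ⟨fun x y hxy => ?_, b⟩
  by_contra hne
  exact a x y hne hxy

end Pool.Agent.Lib.MP4c860b.FZ
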