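import Pool.Agent.Lib.MP_4c860b_pr.FZ.Spec

/-!
# MP_4c860b_pr, FZ, module KCO: replace `C` by `Q`
-/

set_option autoImplicit false

namespace Pool.Agent.Lib.MP4c860b.FZ

open MeasureTheory Set Filter Topology

noncomputable section

namespace KCOM

lemma mem_of_path {K : Set V} {u v : V} (h : v ∈ Cl K u) (hu : u ∈ K) : v ∈ K := by
  have h' : Relation.ReflTransGen (fun a b => Adj a b ∧ b ∈ K) u v := h
  induction h' with
  | refl => exact hu
  | tail _ h2 _ => exact h2.2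

lemma symm_path (hA : ∀ u v : V, Adj u v → Adj v u) {K : Set V} {u v : V} (h : v ∈ Cl K u)
    (hu : u ∈ K) : u ∈ Cl K v := by
  have h' : Relation.ReflTransGen (fun a b => Adj a b ∧ b ∈ K) u v := h
  induction h' with
  | refl => exact Relation.ReflTransGen.refl
  | @tail b c h1 h2 ih =>
    have hb : b ∈ K := mem_of_path h1 hu
    exact Relation.ReflTransGen.head ⟨hA _ _ h2.1, hb⟩ (ih h1)

lemma trans_path {K : Set V} {u v w : V} (h : v ∈ Cl K u) (h' : w ∈ Cl K v) : w ∈ Cl K u :=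
  Relation.ReflTransGen.trans h h'

lemma mono_path {K L : Set V} (hKL : K ⊆ L) {u v : V} (h : v ∈ Cl K u) : v ∈ Cl L u := by
  have h' : Relation.ReflTransGen (fun a b => Adj a b ∧ b ∈ K) u v := h
  induction h' with
  | refl => exact Relation.ReflTransGen.refl
  | @tail b c h1 h2 ih => exact Relation.ReflTransGen.tail (ih h1) ⟨h2.1, hKL h2.2⟩

lemma to_Q (hA : ∀ u v : V, Adj u v → Adj v u) {C Q : Set V} (hS : Shield C Q) {B : Set V} {u : V}
    (huD : u ∈ C ∪ Q ∨ ∃ d ∈ C ∪ Q, Adj u d) {x : V}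
    (h : Relation.ReflTransGen (fun a b => Adj a b ∧ b ∈ B) x u) :
    x ∈ B → x ∉ C → ∃ q ∈ Q, q ∈ Cl ((B \ C) ∪ Q) x := by
  induction h using Relation.ReflTransGen.head_induction_on with
  | refl =>
    intro _ huC
    rcases huD with h1 | ⟨d, hd, h1⟩
    · rcases h1 with h1 | h1
      · exact absurd h1 huC
      · exact ⟨u, h1, Relation.ReflTransGen.refl⟩
    · rcases hd with hd | hd
      · rcases hS.nbr d hd u (hA _ _ h1) with h2 | h2
        · exact absurd h2 huC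
        · exact ⟨u, h2, Relation.ReflTransGen.refl⟩
      · exact ⟨d, hd, Relation.ReflTransGen.single ⟨h1, Or.inr hd⟩⟩
  | @head x y h1 _ ih =>
    intro _ hxC
    by_cases hyC : y ∈ C
    · rcases hS.nbr y hyC x (hA _ _ h1.1) with h2 | h2
      · exact absurd h2 hxC
      · exact ⟨x, h2, Relation.ReflTransGen.refl⟩
    · obtain ⟨q, hq, h2⟩ := ih h1.2 hyC
      exact ⟨q, hq, Relation.ReflTransGen.head ⟨h1.1, Or.inl ⟨h1.2, hyC⟩⟩ h2⟩

end KCOM

open KCOM in
theorem specKCO (hGEO : SpecGEO) (_hCLU : SpecCLU) : SpecKCO := by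
  classical
  intro C Q hS N B hB hT hBig
  have hA : ∀ u v : V, Adj u v → Adj v u := fun u v h => (hGEO.2.1 u v h).1
  have hd : ∀ u v : V, dis u v = dis v u := fun u v => (hGEO.1 u v u).1
  have hQK : Q ⊆ (B \ C) ∪ Q := fun x hx => Or.inr hx
  constructor
  · obtain ⟨u, huB, huD⟩ := hT
    have key : ∀ x ∈ (B \ C) ∪ Q, ∃ q ∈ Q, q ∈ Cl ((B \ C) ∪ Q) x := by
      intro x hx
      rcases hx with hx | hx
      · exact to_Q hA hS huD (hB x hx.1 u huB) hx.1 hx.2
      · exact ⟨x, hx, Relation.ReflTransGen.refl⟩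
    intro x hx y hy
    obtain ⟨q, hq, h1⟩ := key x hx
    obtain ⟨q', hq', h2⟩ := key y hy
    have h3 : q' ∈ Cl ((B \ C) ∪ Q) q := mono_path hQK (hS.connQ q hq q' hq')
    exact trans_path h1 (trans_path h3 (symm_path hA h2 hy))
  · obtain ⟨a, ha, b, hb, hab⟩ := hBig
    have step : ∀ z : V, z ∈ B → ∀ w : V, ∃ z' ∈ (B \ C) ∪ Q, dis w z ≤ dis w z' := by
      intro z hz w
      by_cases hzC : z ∈ C
      · obtain ⟨q, hq, h1⟩ := hS.dom z hzC w
        exact ⟨q, Or.inr hq, h1⟩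
      · exact ⟨z, Or.inl ⟨hz, hzC⟩, le_rfl⟩
    obtain ⟨b', hb', h1⟩ := step b hb a
    obtain ⟨a', ha', h2⟩ := step a ha b'
    refine ⟨a', ha', b', hb', ?_⟩
    calc (N : ℝ) ≤ dis a b := hab
      _ ≤ dis a b' := h1
      _ = dis b' a := hd _ _
      _ ≤ dis b' a' := h2
      _ = dis a' b' := hd _ _

end

end Pool.Agent.Lib.MP4c860b.FZ
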