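import Pool.Agent.Lib.MP_4c860b_pr.FZ.Spec

/-!
# Module LOB (helper52)
-/

set_option autoImplicit false

namespace Pool.Agent.Lib.MP4c860b.FZ

namespace LOBM

theorem part_a (hG : SpecGEO) (hC : SpecCLU) (hD : SpecDIA) (N : ℕ) (τ : V → ℝ)
    (Fr : V → Set V) (hi : Function.Injective τ) (hp : IsProc N τ Fr) (v u : V)
    (hu : u ∈ Cl (Bk τ Fr v) v) : dis v u < N + 1 := by
  rcases Relation.ReflTransGen.cases_head hu with h | ⟨x, hx, hxu⟩
  · rw [← h, (hG.1 v v v).2.1]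
    positivity
  · have hconn : Conn (Cl (Bk τ Fr v) x) := (hC.2.1 _ x).2
    have hsub : ∀ y ∈ Cl (Bk τ Fr v) x, y ∈ Bk τ Fr v := by
      intro y hy
      rcases hC.1 _ x y hy with h | h
      · rw [h]; exact hx.2
      · exact h
    have hnb : ¬ Big N (Cl (Bk τ Fr v) x) := hD N τ Fr hi hp (τ v) _ hconn hsub
    have h1 : dis x u < N := by
      by_contra hcon
      exact hnb ⟨x, (hC.2.1 _ x).1, u, hxu, not_lt.1 hcon⟩
    have h2 := (hG.2.1 v x hx.1).2
    have h3 := (hG.1 v x u).2.2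
    linarith

theorem part_b (hG : SpecGEO) (hC : SpecCLU) (hD : SpecDIA) (N : ℕ) (τ : V → ℝ)
    (Fr : V → Set V) (hi : Function.Injective τ) (hp : IsProc N τ Fr) (v u : V)
    (hu : u ∈ Fr v) : τ u ≤ τ v ∧ dis v u < N + 1 := by
  rw [hp v] at hu
  refine ⟨?_, part_a hG hC hD N τ Fr hi hp v u hu.1⟩
  rcases hC.1 _ v u hu.1 with h | h
  · rw [h]
  · exact h.1.le

theorem part_c (hG : SpecGEO) (hC : SpecCLU) (hD : SpecDIA) (N : ℕ) (τ : V → ℝ)
    (Fr : V → Set V) (hi : Function.Injective τ) (hp : IsProc N τ Fr) (u v w : V)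
    (huv : u ∈ Fr v) (huw : u ∈ Fr w) : ¬ τ v < τ w := by
  intro hlt
  have h1 : u ∈ Cl (Bk τ Fr w) w := by
    have h2 := huw
    rw [hp w] at h2
    exact h2.1
  rcases hC.1 _ w u h1 with h | h
  · have h3 := (part_b hG hC hD N τ Fr hi hp v u huv).1
    rw [h] at h3
    exact absurd h3 (not_le.2 hlt)
  · exact h.2 v hlt huv

end LOBM

theorem specLOB (hGEO : SpecGEO) (hCLU : SpecCLU) (hDIA : SpecDIA) : SpecLOB := by
  intro N τ Fr hi hp
  refine ⟨fun v u hu => LOBM.part_a hGEO hCLU hDIA N τ Fr hi hp v u hu,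
    fun v u hu => LOBM.part_b hGEO hCLU hDIA N τ Fr hi hp v u hu, ?_⟩
  intro u v w huv huw
  have h1 := LOBM.part_c hGEO hCLU hDIA N τ Fr hi hp u v w huv huw
  have h2 := LOBM.part_c hGEO hCLU hDIA N τ Fr hi hp u w v huw huv
  exact hi (le_antisymm (not_lt.1 h2) (not_lt.1 h1))

end Pool.Agent.Lib.MP4c860b.FZ
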