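import Pool.Agent.Lib.MP_4c860b_pr.FZ.Spec

/-!
# Module LOW: the lower bound
-/

set_option autoImplicit false

namespace Pool.Agent.Lib.MP4c860b.FZ

open MeasureTheory Set Filter Topology

noncomputable section

namespace LOWM

theorem proc_isProc (hEXI : SpecEXI) {N : ℕ} {τ : V → ℝ} (h1 : Function.Injective τ)
    (h2 : Wf (2 * N + 5) τ) : IsProc N τ (proc N τ) := by
  have h := hEXI N τ h1 h2
  unfold proc
  rw [dif_pos h]
  exact h.choose_spec

theorem unif_Iio_pos {η : ℝ} (h0 : 0 < η) (h1 : η ≤ 1) : 0 < unif (Iio η) := by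
  have hsub : Ioo 0 η ⊆ Iio η ∩ Icc 0 1 := by
    intro x hx
    exact ⟨hx.2, hx.1.le, hx.2.le.trans h1⟩
  unfold unif
  rw [Measure.restrict_apply measurableSet_Iio]
  refine lt_of_lt_of_le ?_ (measure_mono hsub)
  rw [Real.volume_Ioo]
  simpa using h0

theorem unif_Ioi_pos {s : ℝ} (h0 : 0 ≤ s) (h1 : s < 1) : 0 < unif (Ioi s) := by
  have hsub : Ioo s 1 ⊆ Ioi s ∩ Icc 0 1 := by
    intro x hx
    exact ⟨hx.1, h0.trans hx.1.le, hx.2.le⟩
  unfold unif
  rw [Measure.restrict_apply measurableSet_Ioi]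
  refine lt_of_lt_of_le ?_ (measure_mono hsub)
  rw [Real.volume_Ioo]
  simpa using h1

theorem froz_mono {τ : V → ℝ} {Fr : V → Set V} {s t : ℝ} {x : V} (hst : s ≤ t)
    (h : Froz τ Fr s x) : Froz τ Fr t x := by
  obtain ⟨v, hv, hx⟩ := h
  exact ⟨v, hv.trans hst, hx⟩

open Classical in
/-- The boxes of the resampled times. -/
def J (C Q : Set V) (η s₀ : ℝ) (x : V) : Set ℝ :=
  if x ∈ Q then Iio η else if x ∈ C then Ioi s₀ else univ

theorem J_meas (C Q : Set V) (η s₀ : ℝ) (x : V) : MeasurableSet (J C Q η s₀ x) := by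
  unfold J
  split_ifs
  · exact measurableSet_Iio
  · exact measurableSet_Ioi
  · exact MeasurableSet.univ

theorem J_pos {C Q : Set V} {η s₀ : ℝ} (h0 : 0 < η) (h1 : η ≤ 1) (h2 : 0 ≤ s₀) (h3 : s₀ < 1)
    (x : V) : 0 < unif (J C Q η s₀ x) := by
  unfold J
  split_ifs
  · exact unif_Iio_pos h0 h1
  · exact unif_Ioi_pos h2 h3
  · rw [measure_univ]; exact one_pos

end LOWM

open LOWM in
theorem specLOW (hEXI : SpecEXI) (hWFA : SpecWFA) (hTOP : SpecTOP) (hFIR : SpecFIR)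
    (hSTA : SpecSTA) (hAGR : SpecAGR) (hCEE : SpecCEE) (hRES : SpecRES) : SpecLOW := by
  intro C hCf h0 hC hCc δ hδ hδ1
  obtain ⟨Q, hQ⟩ := hTOP C hCf h0 hC hCc
  have hs0 : 0 < 1 - δ := by linarith
  have hs1 : 1 - δ < 1 := by linarith
  obtain ⟨η, hη0, hη12, hηs⟩ : ∃ η : ℝ, 0 < η ∧ η ≤ 1 / 12 ∧ η ≤ 1 - δ := by
    refine ⟨min (1 / 12) (1 - δ), lt_min (by norm_num) hs0, min_le_left _ _, min_le_right _ _⟩
  have hDf : (C ∪ Q).Finite := hQ.finC.union hQ.finQ
  have h0D : (0 : V) ∈ C ∪ Q := Or.inl h0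
  refine ⟨∏ x ∈ hDf.toFinset, unif (J C Q η (1 - δ) x), ?_,
    fun N => P {τ | Big N (Cl (Ea η τ (C ∪ Q)) 0)}, hCEE (C ∪ Q) hDf h0D η hη0 hη12, ?_⟩
  · rw [pos_iff_ne_zero]
    rw [Finset.prod_ne_zero_iff]
    intro x _
    exact (J_pos hη0 (by linarith) hs0.le hs1 x).ne'
  · intro N
    set W : Set (V → ℝ) := {τ | Function.Injective τ ∧ Wf (2 * N + 5) τ} with hW
    set A : Set (V → ℝ) := {τ | Froz τ (proc N τ) (1 - δ) 0} \
      {τ | Big N (Cl (Ea η τ (C ∪ Q)) 0)} with hA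
    have hWc : P Wᶜ = 0 := by
      have := hWFA (2 * (N : ℝ) + 5)
      rw [ae_iff] at this
      exact this
    have key := hRES hDf.toFinset (J C Q η (1 - δ)) A {τ | C1 (proc N τ) = C} W
      (J_meas C Q η (1 - δ)) hWc (by
        intro τ hτA hτW τ' hτ'W hoff hJ
        have hp := proc_isProc hEXI hτW.1 hτW.2
        have hp' := proc_isProc hEXI hτ'W.1 hτ'W.2
        have hJ' : ∀ x ∈ C ∪ Q, τ' x ∈ J C Q η (1 - δ) x := fun x hx =>
          hJ x (hDf.mem_toFinset.2 hx)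
        have htwo : Two N C Q η (1 - δ) τ τ' (proc N τ) (proc N τ') := by
          refine ⟨hQ, hτW.1, hτ'W.1, hτW.2, hp, hp', ?_, hηs, ?_, ?_, hτA.2⟩
          · intro x hx
            exact hoff x (fun h => hx (hDf.mem_toFinset.1 h))
          · intro q hq
            have := hJ' q (Or.inr hq)
            unfold J at this
            rw [if_pos hq] at this
            exact this
          · intro c hc
            have := hJ' c (Or.inl hc)
            unfold J at this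
            rw [if_neg (fun h => Set.disjoint_left.1 hQ.disj hc h), if_pos hc] at this
            exact this
        obtain ⟨v₀, hv₀, h0v⟩ := hτA.1
        have h1 := hAGR N C Q η (1 - δ) τ τ' _ _ htwo v₀ hv₀ h0v
        have h2 := hFIR N C Q η (1 - δ) τ τ' _ _ htwo (τ v₀) hv₀ h1
        exact hSTA N C Q η (1 - δ) τ τ' _ _ htwo (fun q hq => froz_mono hv₀ (h2 q hq)))
    refine le_trans ?_ key
    gcongr
    exact le_measure_sdiff

end

end Pool.Agent.Lib.MP4c860b.FZ
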