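import Pool.Agent.Lib.MP_4c860b_pr.FZ.Spec

/-!
# MP_4c860b_pr: a prescribed order of the times
-/

set_option autoImplicit false

namespace Pool.Agent.Lib.MP4c860b.FZ

open MeasureTheory Set Filter Topology

namespace ORDM

/-- the event of one order -/
def Ev {n : ℕ} (w : Fin (n + 1) → V) (σ : Equiv.Perm (Fin (n + 1))) : Set (V → ℝ) :=
  {τ | StrictAnti (fun i => τ (w (σ i)))}

theorem meas {n : ℕ} (w : Fin (n + 1) → V) (σ : Equiv.Perm (Fin (n + 1))) :
    MeasurableSet (Ev w σ) := by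
  have e : Ev w σ = ⋂ i : Fin (n + 1), ⋂ j : Fin (n + 1), ⋂ _ : i < j,
      {τ : V → ℝ | τ (w (σ j)) < τ (w (σ i))} := by
    ext τ
    simp only [Set.mem_iInter]
    constructor
    · intro h i j hij
      exact h hij
    · intro h i j hij
      exact h i j hij
  rw [e]
  exact MeasurableSet.iInter fun i => MeasurableSet.iInter fun j => MeasurableSet.iInter fun _ =>
    measurableSet_lt (measurable_pi_apply _) (measurable_pi_apply _)

theorem eq_of_mem {n : ℕ} (w : Fin (n + 1) → V) (σ ρ : Equiv.Perm (Fin (n + 1))) (τ : V → ℝ)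
    (h1 : τ ∈ Ev w σ) (h2 : τ ∈ Ev w ρ) : σ = ρ := by
  obtain ⟨f, hf⟩ : ∃ f : Fin (n + 1) → ℝᵒᵈ, f = fun i => OrderDual.toDual (τ (w i)) := ⟨_, rfl⟩
  have m1 : StrictMono (f ∘ σ) := by
    intro i j hij
    rw [hf]
    exact OrderDual.toDual_lt_toDual.mpr (h1 hij)
  have m2 : StrictMono (f ∘ ρ) := by
    intro i j hij
    rw [hf]
    exact OrderDual.toDual_lt_toDual.mpr (h2 hij)
  have hr : Set.range (f ∘ σ) = Set.range (f ∘ ρ) := by
    rw [Set.range_comp, Set.range_comp, σ.surjective.range_eq, ρ.surjective.range_eq]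
  have heq : f ∘ σ = f ∘ ρ := (StrictMono.range_inj m1 m2).mp hr
  have hinj : Function.Injective f := by
    intro a b hab
    have : (f ∘ σ) (σ.symm a) = (f ∘ σ) (σ.symm b) := by simpa using hab
    exact σ.symm.injective (m1.injective this)
  ext i
  exact congrArg Fin.val (hinj (congrFun heq i))

theorem prob_eq (hE : SpecEXC) {n : ℕ} (w : Fin (n + 1) → V) (hw : Function.Injective w)
    (σ : Equiv.Perm (Fin (n + 1))) : P (Ev w σ) = P {τ | StrictAnti (fun i => τ (w i))} := by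
  classical
  have h := hE (σ.viaFintypeEmbedding ⟨w, hw⟩) {τ | StrictAnti (fun i => τ (w i))}
  rw [← h]
  have e : ∀ i, (σ.viaFintypeEmbedding ⟨w, hw⟩) (w i) = w (σ i) := fun i =>
    Equiv.Perm.viaFintypeEmbedding_apply_image σ ⟨w, hw⟩ i
  have e2 : Ev w σ = (fun τ : V → ℝ => τ ∘ (σ.viaFintypeEmbedding ⟨w, hw⟩)) ⁻¹'
      {τ | StrictAnti (fun i => τ (w i))} := by
    ext τ
    show StrictAnti (fun i => τ (w (σ i))) ↔
      StrictAnti (fun i => τ ((σ.viaFintypeEmbedding ⟨w, hw⟩) (w i)))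
    have : (fun i => τ ((σ.viaFintypeEmbedding ⟨w, hw⟩) (w i))) = fun i => τ (w (σ i)) := by
      funext i
      rw [e i]
    rw [this]
  rw [e2]

end ORDM

theorem specORD (hE : SpecEXC) : SpecORD := by
  classical
  intro n w hw
  have hsum : ∑ σ : Equiv.Perm (Fin (n + 1)), P (ORDM.Ev w σ) ≤ 1 := by
    rw [← measure_biUnion_finset (fun σ _ ρ _ hne => ?_) (fun σ _ => ORDM.meas w σ)]
    · exact prob_le_one
    · refine Set.disjoint_left.mpr fun τ h1 h2 => hne (ORDM.eq_of_mem w σ ρ τ h1 h2)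
  have he : ∑ σ : Equiv.Perm (Fin (n + 1)), P (ORDM.Ev w σ) =
      ((n + 1).factorial : ENNReal) * P {τ | StrictAnti (fun i => τ (w i))} := by
    rw [Finset.sum_congr rfl fun σ _ => ORDM.prob_eq hE w hw σ, Finset.sum_const, Finset.card_univ,
      Fintype.card_perm, Fintype.card_fin, nsmul_eq_mul]
  rw [← he]
  exact hsum

end Pool.Agent.Lib.MP4c860b.FZ
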