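import Pool.Agent.Lib.MP_4c860b_pr.FZ.Spec

/-!
# Module RES: resampling on a finite set
-/

set_option autoImplicit false

namespace Pool.Agent.Lib.MP4c860b.FZ

open MeasureTheory Set Filter Topology

noncomputable section

namespace RESM

open scoped Classical

/-- glue the coordinates in `D` and those outside `D` -/
def e (D : Finset V) : ((∀ _ : {x : V // x ∈ D}, ℝ) × (∀ _ : {x : V // ¬ x ∈ D}, ℝ)) ≃ᵐ (V → ℝ) :=
  (MeasurableEquiv.piEquivPiSubtypeProd (fun _ : V => ℝ) (fun x => x ∈ D)).symm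

theorem e_mem (D : Finset V) (a : ∀ _ : {x : V // x ∈ D}, ℝ) (b : ∀ _ : {x : V // ¬ x ∈ D}, ℝ) (x : V)
    (hx : x ∈ D) : e D (a, b) x = a ⟨x, hx⟩ := by
  simp [e, MeasurableEquiv.piEquivPiSubtypeProd, Equiv.piEquivPiSubtypeProd, hx]

theorem e_not (D : Finset V) (a : ∀ _ : {x : V // x ∈ D}, ℝ) (b : ∀ _ : {x : V // ¬ x ∈ D}, ℝ) (x : V)
    (hx : ¬ x ∈ D) : e D (a, b) x = b ⟨x, hx⟩ := by
  simp [e, MeasurableEquiv.piEquivPiSubtypeProd, Equiv.piEquivPiSubtypeProd, hx]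

/-- the coordinates in `D` -/
def P1 (D : Finset V) : Measure (∀ _ : {x : V // x ∈ D}, ℝ) :=
  Measure.infinitePi (fun _ : {x : V // x ∈ D} => unif)

/-- the coordinates outside `D` -/
def P2 (D : Finset V) : Measure (∀ _ : {x : V // ¬ x ∈ D}, ℝ) :=
  Measure.infinitePi (fun _ : {x : V // ¬ x ∈ D} => unif)

instance (D : Finset V) : IsProbabilityMeasure (P1 D) := by unfold P1; infer_instance

instance (D : Finset V) : IsProbabilityMeasure (P2 D) := by unfold P2; infer_instance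

theorem map_e (D : Finset V) : ((P1 D).prod (P2 D)).map (e D) = P := by
  unfold P
  refine Measure.eq_infinitePi _ ?_
  intro s t ht
  rw [(e D).map_apply]
  have h1 : (e D) ⁻¹' (Set.pi s t) =
      (Set.pi (s.subtype (fun x => x ∈ D)) (fun x : {x : V // x ∈ D} => t x)) ×ˢ
      (Set.pi (s.subtype (fun x => ¬ x ∈ D)) (fun x : {x : V // ¬ x ∈ D} => t x)) := by
    ext ⟨a, b⟩
    simp only [Set.mem_preimage, Set.mem_pi, Set.mem_prod, Finset.mem_coe, Finset.mem_subtype]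
    constructor
    · intro h
      refine ⟨fun x hx => ?_, fun x hx => ?_⟩
      · have := h x hx
        rwa [e_mem D a b x x.2] at this
      · have := h x hx
        rwa [e_not D a b x x.2] at this
    · rintro ⟨ha, hb⟩ x hx
      by_cases hD : x ∈ D
      · rw [e_mem D a b x hD]
        exact ha ⟨x, hD⟩ hx
      · rw [e_not D a b x hD]
        exact hb ⟨x, hD⟩ hx
  rw [h1, Measure.prod_prod, P1, P2, Measure.infinitePi_pi, Measure.infinitePi_pi]
  · rw [← Finset.prod_filter_mul_prod_filter_not s (fun x => x ∈ D)]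
    congr 1
    · exact Finset.prod_subtype_eq_prod_filter (s := s) (p := fun x => x ∈ D) (fun x => unif (t x))
    · exact Finset.prod_subtype_eq_prod_filter (s := s) (p := fun x => ¬ x ∈ D)
        (fun x => unif (t x))
  · intro i hi
    exact ht i
  · intro i hi
    exact ht i

end RESM

open RESM in
theorem specRES : SpecRES := by
  classical
  intro D J A T W hJ hW h
  set μ := (P1 D).prod (P2 D) with hμ
  have hP : ∀ S : Set (V → ℝ), P S = μ ((e D) ⁻¹' S) := by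
    intro S
    rw [← map_e D, (e D).map_apply]
  set A₂ : Set (∀ _ : {x : V // ¬ x ∈ D}, ℝ) := {b | ∃ a, (a, b) ∈ (e D) ⁻¹' A ∧ (a, b) ∈ (e D) ⁻¹' W}
    with hA₂
  set Rb : Set (∀ _ : {x : V // x ∈ D}, ℝ) :=
    Set.pi (Finset.univ : Finset {x : V // x ∈ D}) (fun x : {x : V // x ∈ D} => J x) with hRb
  have hW' : μ ((e D) ⁻¹' W)ᶜ = 0 := by
    rw [← Set.preimage_compl, ← hP]
    exact hW
  have h1 : (Rb ×ˢ A₂) ⊆ (e D) ⁻¹' T ∪ ((e D) ⁻¹' W)ᶜ := by
    rintro ⟨a', b⟩ ⟨ha', hb⟩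
    by_cases hw : (a', b) ∈ (e D) ⁻¹' W
    · left
      obtain ⟨a, hA, hWa⟩ := hb
      refine h (e D (a, b)) hA hWa (e D (a', b)) hw ?_ ?_
      · intro x hx
        rw [e_not D a' b x hx, e_not D a b x hx]
      · intro x hx
        rw [e_mem D a' b x hx]
        exact ha' ⟨x, hx⟩ (Finset.mem_coe.2 (Finset.mem_univ _))
    · right
      exact hw
  have h2 : (e D) ⁻¹' A ⊆ (Set.univ ×ˢ A₂) ∪ ((e D) ⁻¹' W)ᶜ := by
    rintro ⟨a, b⟩ ha
    by_cases hw : (a, b) ∈ (e D) ⁻¹' W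
    · left
      exact ⟨Set.mem_univ _, a, ha, hw⟩
    · right
      exact hw
  have h3 : μ (Rb ×ˢ A₂) ≤ P T := by
    rw [hP]
    calc μ (Rb ×ˢ A₂) ≤ μ ((e D) ⁻¹' T ∪ ((e D) ⁻¹' W)ᶜ) := measure_mono h1
      _ ≤ μ ((e D) ⁻¹' T) + μ ((e D) ⁻¹' W)ᶜ := measure_union_le _ _
      _ = μ ((e D) ⁻¹' T) := by rw [hW', add_zero]
  have h4 : P A ≤ P2 D A₂ := by
    rw [hP]
    calc μ ((e D) ⁻¹' A) ≤ μ ((Set.univ ×ˢ A₂) ∪ ((e D) ⁻¹' W)ᶜ) := measure_mono h2
      _ ≤ μ (Set.univ ×ˢ A₂) + μ ((e D) ⁻¹' W)ᶜ := measure_union_le _ _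
      _ = P2 D A₂ := by rw [hW', add_zero, hμ, Measure.prod_prod, measure_univ, one_mul]
  have h5 : P1 D Rb = ∏ x ∈ D, unif (J x) := by
    rw [hRb, P1, Measure.infinitePi_pi (fun _ : {x : V // x ∈ D} => unif)
      (t := fun x : {x : V // x ∈ D} => J x) (fun i _ => hJ i)]
    exact Finset.prod_coe_sort D (fun x => unif (J x))
  calc (∏ x ∈ D, unif (J x)) * P A ≤ P1 D Rb * P2 D A₂ := by
        rw [h5]
        gcongr
    _ = μ (Rb ×ˢ A₂) := by rw [hμ, Measure.prod_prod]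
    _ ≤ P T := h3

end

end Pool.Agent.Lib.MP4c860b.FZ
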