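import Pool.Agent.Lib.MP_4c860b_pr.FZ.Spec

/-!
# MP_4c860b, part FZ, module SHI: invariance under translations
-/

set_option autoImplicit false

namespace Pool.Agent.Lib.MP4c860b.FZ

open MeasureTheory Set Filter Topology

namespace SHIM

lemma adj_add (hGEO : SpecGEO) (u v a : V) : Adj (u + a) (v + a) ↔ Adj u v :=
  (hGEO.2.2.2.2 u v a).2

lemma dis_add (hGEO : SpecGEO) (u v a : V) : dis (u + a) (v + a) = dis u v :=
  (hGEO.2.2.2.2 u v a).1

lemma cl_shift (hGEO : SpecGEO) (S : Set V) (v w : V) :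
    Cl {x | x + w ∈ S} v = {u | u + w ∈ Cl S (v + w)} := by
  ext u
  constructor
  · intro hu
    have h1 : Relation.ReflTransGen (fun a b => Adj a b ∧ b ∈ {x | x + w ∈ S}) v u := hu
    have h2 : Relation.ReflTransGen (fun a b => Adj a b ∧ b ∈ S) (v + w) (u + w) :=
      Relation.ReflTransGen.lift (r := fun a b => Adj a b ∧ b ∈ {x | x + w ∈ S})
        (p := fun a b => Adj a b ∧ b ∈ S) (fun x => x + w)
        (fun a b hab => ⟨(adj_add hGEO a b w).2 hab.1, hab.2⟩) v u h1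
    exact h2
  · intro hu
    have h1 : Relation.ReflTransGen (fun a b => Adj a b ∧ b ∈ S) (v + w) (u + w) := hu
    have h2 : Relation.ReflTransGen (fun a b => Adj a b ∧ b ∈ {x | x + w ∈ S})
        (v + w + (-w)) (u + w + (-w)) := by
      refine Relation.ReflTransGen.lift (r := fun a b => Adj a b ∧ b ∈ S)
        (p := fun a b => Adj a b ∧ b ∈ {x | x + w ∈ S}) (fun x => x + (-w)) ?_ (v + w) (u + w) h1
      intro a b hab
      refine ⟨(adj_add hGEO a b (-w)).2 hab.1, ?_⟩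
      show b + (-w) + w ∈ S
      rw [neg_add_cancel_right]
      exact hab.2
    rw [add_neg_cancel_right, add_neg_cancel_right] at h2
    exact h2

lemma bk_shift (τ : V → ℝ) (Fr : V → Set V) (v w : V) :
    Bk (fun x => τ (x + w)) (fun v => {x | x + w ∈ Fr (v + w)}) v =
      {x | x + w ∈ Bk τ Fr (v + w)} := by
  ext x
  constructor
  · intro hx
    refine ⟨hx.1, ?_⟩
    intro u hu hxu
    have h1 : τ (u + (-w) + w) < τ (v + w) := by
      rw [neg_add_cancel_right]
      exact hu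
    apply hx.2 (u + (-w)) h1
    show x + w ∈ Fr (u + (-w) + w)
    rw [neg_add_cancel_right]
    exact hxu
  · intro hx
    refine ⟨hx.1, ?_⟩
    intro u hu hxu
    exact hx.2 (u + w) hu hxu

lemma big_shift (hGEO : SpecGEO) (N : ℕ) (A : Set V) (w : V) :
    Big N {x | x + w ∈ A} ↔ Big N A := by
  constructor
  · rintro ⟨u, hu, v, hv, h⟩
    refine ⟨u + w, hu, v + w, hv, ?_⟩
    rw [dis_add hGEO]
    exact h
  · rintro ⟨u, hu, v, hv, h⟩
    refine ⟨u + (-w), ?_, v + (-w), ?_, ?_⟩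
    · show u + (-w) + w ∈ A
      rw [neg_add_cancel_right]
      exact hu
    · show v + (-w) + w ∈ A
      rw [neg_add_cancel_right]
      exact hv
    · rw [dis_add hGEO]
      exact h

lemma proc_shift (hGEO : SpecGEO) (N : ℕ) (τ : V → ℝ) (Fr : V → Set V) (w : V)
    (h : IsProc N τ Fr) :
    IsProc N (fun x => τ (x + w)) (fun v => {x | x + w ∈ Fr (v + w)}) := by
  intro v
  rw [bk_shift τ Fr v w, cl_shift hGEO]
  have h1 := h (v + w)
  show {x | x + w ∈ Fr (v + w)} = _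
  ext u
  constructor
  · intro hu
    have h2 : u + w ∈ Fr (v + w) := hu
    rw [h1] at h2
    exact ⟨h2.1, (big_shift hGEO N _ w).2 h2.2⟩
  · intro hu
    have h3 : u + w ∈ {u | u ∈ Cl (Bk τ Fr (v + w)) (v + w) ∧ Big N (Cl (Bk τ Fr (v + w)) (v + w))} :=
      ⟨hu.1, (big_shift hGEO N _ w).1 hu.2⟩
    rw [← h1] at h3
    exact h3

lemma proc_isProc (N : ℕ) (τ : V → ℝ) (h : ∃ Fr, IsProc N τ Fr) : IsProc N τ (proc N τ) := by
  unfold proc
  rw [dif_pos h]
  exact h.choose_spec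

lemma wf_shift (hGEO : SpecGEO) (R : ℝ) (τ : V → ℝ) (w : V) (h : Wf R τ) :
    Wf R (fun x => τ (x + w)) := by
  have h1 : WellFounded (InvImage (fun a b : V => τ a < τ b ∧ dis a b ≤ R) (fun x => x + w)) :=
    InvImage.wf _ h
  have h2 : (fun a b : V => τ (a + w) < τ (b + w) ∧ dis a b ≤ R) =
      InvImage (fun a b : V => τ a < τ b ∧ dis a b ≤ R) (fun x => x + w) := by
    funext a b
    show (τ (a + w) < τ (b + w) ∧ dis a b ≤ R) = (τ (a + w) < τ (b + w) ∧ dis (a + w) (b + w) ≤ R)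
    rw [dis_add hGEO]
  unfold Wf
  rw [h2]
  exact h1

lemma froz_iff (hGEO : SpecGEO) (hUNI : SpecUNI) (hEXI : SpecEXI) (N : ℕ) (s : ℝ) (w : V)
    (τ : V → ℝ) (hi : Function.Injective τ) (hw : Wf (2 * N + 5) τ) :
    Froz (fun x => τ (x + w)) (proc N (fun x => τ (x + w))) s 0 ↔ Froz τ (proc N τ) s w := by
  have h1 : IsProc N τ (proc N τ) := proc_isProc N τ (hEXI N τ hi hw)
  have hi' : Function.Injective (fun x : V => τ (x + w)) := by
    intro a b hab
    exact add_right_cancel (hi hab)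
  have hw' : Wf (2 * N + 5) (fun x => τ (x + w)) := wf_shift hGEO _ τ w hw
  have h2 : IsProc N (fun x => τ (x + w)) (proc N (fun x => τ (x + w))) :=
    proc_isProc N _ (hEXI N _ hi' hw')
  have h3 := proc_shift hGEO N τ (proc N τ) w h1
  have h4 := hUNI N _ hi' hw' _ _ h2 h3
  rw [h4]
  constructor
  · rintro ⟨v, hv, hx⟩
    refine ⟨v + w, hv, ?_⟩
    have h5 : (0 : V) + w ∈ proc N τ (v + w) := hx
    rw [zero_add] at h5
    exact h5
  · rintro ⟨v, hv, hx⟩
    refine ⟨v + (-w), ?_, ?_⟩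
    · show τ (v + (-w) + w) ≤ s
      rw [neg_add_cancel_right]
      exact hv
    · show (0 : V) + w ∈ proc N τ (v + (-w) + w)
      rw [neg_add_cancel_right, zero_add]
      exact hx

end SHIM

theorem specSHI (hGEO : SpecGEO) (hUNI : SpecUNI) (hEXI : SpecEXI) (hEXC : SpecEXC)
    (hWFA : SpecWFA) : SpecSHI := by
  intro N s w
  have h1 := hEXC (Equiv.addRight w) {τ | Froz τ (proc N τ) s 0}
  rw [← h1]
  apply measure_congr
  filter_upwards [hWFA (2 * N + 5)] with τ hτ
  have h2 := SHIM.froz_iff hGEO hUNI hEXI N s w τ hτ.1 hτ.2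
  exact propext h2.symm

end Pool.Agent.Lib.MP4c860b.FZ
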