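import Pool.Agent.Lib.MP_4c860b_pr.FZ.Spec

/-!
Module STA: if all of `Q` freezes at the time `s₀` at the latest then `C` is the final cluster.
-/

set_option autoImplicit false

namespace Pool.Agent.Lib.MP4c860b.FZ

open MeasureTheory Set Filter Topology

noncomputable section

namespace STAM

/-- a path in `B` from a vertex of `C` to a vertex outside `C` has a step which leaves `C` -/
theorem exit {B C : Set V} {c x : V} (hcB : c ∈ B) (hcC : c ∈ C)
    (h : Relation.ReflTransGen (fun a b => Adj a b ∧ b ∈ B) c x) :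
    x ∈ B ∧ (x ∉ C → ∃ a ∈ B, a ∈ C ∧ ∃ b ∈ B, b ∉ C ∧ Adj a b) := by
  induction h with
  | refl => exact ⟨hcB, fun hx => absurd hcC hx⟩
  | @tail y z _ hyz ih =>
    refine ⟨hyz.2, fun hz => ?_⟩
    by_cases hy : y ∈ C
    · exact ⟨y, ih.1, hy, z, hyz.2, hz, hyz.1⟩
    · exact ih.2 hy

end STAM

theorem specSTA (hCLU : SpecCLU) (hLOB : SpecLOB) : SpecSTA := by
  intro N C Q η s₀ τ τ' Fr Fr' h2 hQ
  obtain ⟨clu1, clu2, clu3, -, -, -, -⟩ := hCLU
  obtain ⟨-, lob2, -⟩ := hLOB N τ' Fr' h2.i2 h2.p2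
  have hsh := h2.sh
  -- (i) no vertex of `C` freezes
  have key : ∀ c ∈ C, ∀ v, c ∉ Fr' v := by
    intro c hc v hcv
    have hcv' := hcv
    rw [h2.p2 v] at hcv'
    obtain ⟨hcB, hbig⟩ := hcv'
    have hCE : C ⊆ Cl (Ea η τ (C ∪ Q)) 0 :=
      clu3 _ C 0 hsh.connC hsh.zero (fun x hx => Or.inr (Or.inl (Or.inl hx)))
    have hnot : ¬ (Cl (Bk τ' Fr' v) v ⊆ C) := by
      intro hsub
      apply h2.small
      obtain ⟨u, hu, w, hw, huw⟩ := hbig
      exact ⟨u, hCE (hsub hu), w, hCE (hsub hw), huw⟩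
    obtain ⟨x, hxB, hxC⟩ := Set.not_subset.mp hnot
    have hpath : x ∈ Cl (Cl (Bk τ' Fr' v) v) c := (clu2 (Bk τ' Fr' v) v).2 c hcB x hxB
    obtain ⟨a, haB, haC, b, hbB, hbC, hab⟩ := (STAM.exit hcB hc hpath).2 hxC
    have hbQ : b ∈ Q := (hsh.nbr a haC b hab).resolve_left hbC
    have haF : a ∈ Fr' v := by
      rw [h2.p2 v]
      exact ⟨haB, hbig⟩
    have h1 : s₀ < τ' v := lt_of_lt_of_le (h2.late a haC) (lob2 v a haF).1
    rcases clu1 _ v b hbB with h | h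
    · have h3 : τ' b < η := h2.early b hbQ
      rw [h] at h3
      exact absurd (lt_trans (lt_of_lt_of_le h3 h2.le) h1) (lt_irrefl _)
    · obtain ⟨w, hw, hbw⟩ := hQ b hbQ
      exact h.2 w (lt_of_le_of_lt hw h1) hbw
  -- (ii) the final cluster is `C`
  apply Set.Subset.antisymm
  · intro u hu
    by_contra huC
    obtain ⟨h0, hu'⟩ := hu
    obtain ⟨a, _, haC, b, hbB, hbC, hab⟩ :=
      (STAM.exit (B := {x | ∀ v, x ∉ Fr' v}) (C := C) h0 hsh.zero hu').2 huC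
    have hbQ : b ∈ Q := (hsh.nbr a haC b hab).resolve_left hbC
    obtain ⟨w, _, hbw⟩ := hQ b hbQ
    exact hbB w hbw
  · intro u hu
    refine ⟨key 0 hsh.zero, ?_⟩
    exact clu3 {x | ∀ v, x ∉ Fr' v} C 0 hsh.connC hsh.zero (fun x hx => Or.inr (key x hx)) hu

end

end Pool.Agent.Lib.MP4c860b.FZ
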