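import Pool.Agent.Lib.MP_4c860b_pr.FZ.Spec

/-!
# MP_4c860b_pr, module TOP: a shield exists
-/

set_option autoImplicit false

namespace Pool.Agent.Lib.MP4c860b.FZ

open MeasureTheory Set Filter Topology

namespace TOPM

theorem cl_mono {S S' : Set V} (h : S ⊆ S') (v : V) : Cl S v ⊆ Cl S' v := by
  intro u hu
  have h1 : Relation.ReflTransGen (fun a b => Adj a b ∧ b ∈ S) v u := hu
  have h2 : Relation.ReflTransGen (fun a b => Adj a b ∧ b ∈ S') v u := by
    clear hu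
    induction h1 with
    | refl => exact Relation.ReflTransGen.refl
    | tail _ hstep ih => exact ih.tail ⟨hstep.1, h hstep.2⟩
  exact h2

theorem conn_single (c : V) : Conn {c} := by
  intro u hu v hv
  rw [mem_singleton_iff] at hu hv
  subst hu
  subst hv
  exact Relation.ReflTransGen.refl

theorem path_finite (hCLU : SpecCLU) {A : Set V} {u v : V} (hu : u ∈ A) (hv : v ∈ Cl A u) :
    ∃ A' ⊆ A, A'.Finite ∧ Conn A' ∧ u ∈ A' ∧ v ∈ A' := by
  have h7 := hCLU.2.2.2.2.2.2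
  have hv' : Relation.ReflTransGen (fun a b => Adj a b ∧ b ∈ A) u v := hv
  clear hv
  induction hv' with
  | refl => exact ⟨{u}, by simpa using hu, finite_singleton u, conn_single u, rfl, rfl⟩
  | @tail b c _ hstep ih =>
    obtain ⟨A', h1, h2, h3, h4, h5⟩ := ih
    refine ⟨A' ∪ {c}, ?_, h2.union (finite_singleton c),
      h7 A' {c} h3 (conn_single c) ⟨b, h5, c, rfl, Or.inr hstep.1⟩, Or.inl h4, Or.inr rfl⟩
    exact union_subset h1 (by simpa using hstep.2)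

/-- the outer boundary -/
def Bd (C : Set V) : Set V := {w | w ∉ C ∧ ∃ c ∈ C, Adj c w}

theorem bd_finite (hGEO : SpecGEO) {C : Set V} (hC : C.Finite) : (Bd C).Finite := by
  have h4 := hGEO.2.2.2.1
  have hsub : Bd C ⊆ ⋃ c ∈ C, {w | Adj c w} := by
    rintro w ⟨-, c, hc, hcw⟩
    exact mem_biUnion hc hcw
  refine (hC.biUnion fun c _ => ?_).subset hsub
  obtain ⟨F, -, hF⟩ := h4 c
  exact F.finite_toSet.subset fun v hv => hF v hv

theorem ray {C : Set V} (hC : C.Finite) {c : V} (hc : c ∈ C) (s : ℤ) (hs : s = 1 ∨ s = -1) :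
    ∃ m : ℕ, ((c.1 + s * m, c.2) : V) ∈ Bd C := by
  classical
  have hex : ∃ m : ℕ, ((c.1 + s * m, c.2) : V) ∉ C := by
    by_contra hcon
    push Not at hcon
    have hinj : Function.Injective (fun m : ℕ => ((c.1 + s * m, c.2) : V)) := by
      intro a b hab
      have h1 := congrArg Prod.fst hab
      simp only at h1
      rcases hs with rfl | rfl <;> omega
    exact (infinite_range_of_injective hinj)
      (hC.subset (by rintro _ ⟨m, rfl⟩; exact hcon m))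
  have hm := Nat.find_spec hex
  have hm0 : Nat.find hex ≠ 0 := by
    intro h0
    rw [h0] at hm
    apply hm
    simpa using hc
  obtain ⟨k, hk⟩ := Nat.exists_eq_succ_of_ne_zero hm0
  have hk' : ((c.1 + s * k, c.2) : V) ∈ C := by
    by_contra h
    exact Nat.find_min hex (by omega) h
  refine ⟨Nat.find hex, hm, _, hk', ?_⟩
  rw [hk]
  unfold Adj
  rcases hs with rfl | rfl
  · left
    push_cast
    constructor <;> simp
  · right
    left
    push_cast
    constructor <;> simp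

theorem dis_ray (b c : V) (m m' : ℕ) :
    dis b c ≤ dis b (c.1 + 1 * m, c.2) ∨ dis b c ≤ dis b (c.1 + -1 * m', c.2) := by
  unfold dis
  have hm : (0 : ℝ) ≤ m := Nat.cast_nonneg m
  have hm' : (0 : ℝ) ≤ m' := Nat.cast_nonneg m'
  rcases le_total ((b.1 : ℝ) + (b.2 : ℝ) / 2) ((c.1 : ℝ) + (c.2 : ℝ) / 2) with h | h
  · left
    refine max_le_max ?_ le_rfl
    push_cast
    rw [abs_of_nonpos (by linarith), abs_of_nonpos (by linarith)]
    linarith
  · right
    refine max_le_max ?_ le_rfl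
    push_cast
    rw [abs_of_nonneg (by linarith), abs_of_nonneg (by linarith)]
    linarith

end TOPM

open TOPM in
theorem specTOP (hGEO : SpecGEO) (hCLU : SpecCLU) : SpecTOP := by
  intro C hfin h0 hconn hcompl
  have h7 := hCLU.2.2.2.2.2.2
  obtain ⟨m₀, hm₀⟩ := ray hfin h0 1 (Or.inl rfl)
  set w₀ : V := ((0 : V).1 + 1 * (m₀ : ℤ), (0 : V).2) with hw₀
  have hpath : ∀ w : V, ∃ A' : Set V, w ∈ Bd C → A' ⊆ Cᶜ ∧ A'.Finite ∧ Conn A' ∧ w₀ ∈ A' ∧ w ∈ A' := by
    intro w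
    by_cases hw : w ∈ Bd C
    · obtain ⟨A', h1, h2, h3, h4, h5⟩ := path_finite hCLU (A := Cᶜ) (u := w₀) (v := w) hm₀.1
        (hcompl w₀ hm₀.1 w hw.1)
      exact ⟨A', fun _ => ⟨h1, h2, h3, h4, h5⟩⟩
    · exact ⟨∅, fun h => absurd h hw⟩
  choose A hA using hpath
  have hQ : ∀ w ∈ Bd C, A w ⊆ ⋃ w ∈ Bd C, A w := fun w hw => subset_biUnion_of_mem hw
  have hQC : (⋃ w ∈ Bd C, A w) ⊆ Cᶜ := iUnion₂_subset fun w hw => (hA w hw).1
  have hconnQ : Conn (⋃ w ∈ Bd C, A w) := by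
    intro u hu v hv
    simp only [mem_iUnion] at hu hv
    obtain ⟨w, hw, hu⟩ := hu
    obtain ⟨w', hw', hv⟩ := hv
    have h8 := h7 (A w) (A w') (hA w hw).2.2.1 (hA w' hw').2.2.1
      ⟨w₀, (hA w hw).2.2.2.1, w₀, (hA w' hw').2.2.2.1, Or.inl rfl⟩
    exact cl_mono (union_subset (hQ w hw) (hQ w' hw')) u (h8 u (Or.inl hu) v (Or.inr hv))
  refine ⟨⋃ w ∈ Bd C, A w, hfin, ?_, h0, hconn, hconnQ, ?_, ?_, ?_, ?_⟩
  · exact (bd_finite hGEO hfin).biUnion fun w hw => (hA w hw).2.1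
  · obtain ⟨c, hc, hcw⟩ := hm₀.2
    exact h7 C _ hconn hconnQ ⟨c, hc, w₀, hQ w₀ hm₀ (hA w₀ hm₀).2.2.2.1, Or.inr hcw⟩
  · rw [Set.disjoint_left]
    intro x hx hxQ
    exact hQC hxQ hx
  · intro c hc w hcw
    by_cases hw : w ∈ C
    · exact Or.inl hw
    · have hwB : w ∈ Bd C := ⟨hw, c, hc, hcw⟩
      exact Or.inr (hQ w hwB (hA w hwB).2.2.2.2)
  · intro c hc b
    obtain ⟨m, hm⟩ := ray hfin hc 1 (Or.inl rfl)
    obtain ⟨m', hm'⟩ := ray hfin hc (-1) (Or.inr rfl)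
    rcases dis_ray b c m m' with h | h
    · exact ⟨_, hQ _ hm (hA _ hm).2.2.2.2, h⟩
    · exact ⟨_, hQ _ hm' (hA _ hm').2.2.2.2, h⟩

end Pool.Agent.Lib.MP4c860b.FZ
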