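import Pool.Agent.Lib.MP_4c860b_pr.FZ.Spec

/-!
# MP_4c860b_pr, hive fz: module UNI

Uniqueness of the process.
-/

set_option autoImplicit false

namespace Pool.Agent.Lib.MP4c860b.FZ

open MeasureTheory Set Filter Topology

noncomputable section

theorem specUNI (hGEO : SpecGEO) (hCLU : SpecCLU) (hLOB : SpecLOB) : SpecUNI := by
  obtain ⟨g1, g2, -, -, -⟩ := hGEO
  obtain ⟨-, -, -, c4, -, -, -⟩ := hCLU
  intro N τ hinj hwf Fr Fr' hp hp'
  obtain ⟨l1, l2, -⟩ := hLOB N τ Fr hinj hp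
  obtain ⟨-, l2', -⟩ := hLOB N τ Fr' hinj hp'
  funext v
  refine hwf.induction (C := fun v => Fr v = Fr' v) v ?_
  intro v ih
  have hcl : Cl (Bk τ Fr' v) v = Cl (Bk τ Fr v) v := by
    apply c4
    rintro x ⟨u, hu, hux⟩
    have h1 : dis v u < N + 1 := l1 v u hu
    have h2 : dis u x ≤ 1 := (g2 u x hux).2
    have h3 : dis v x ≤ dis v u + dis u x := (g1 v u x).2.2
    have key : ∀ w, τ w < τ v → (x ∈ Fr w ↔ x ∈ Fr' w) := by
      intro w hw
      by_cases hd : dis w v ≤ 2 * (N : ℝ) + 5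
      · rw [ih w ⟨hw, hd⟩]
      · have h4 : dis w v ≤ dis w x + dis x v := (g1 w x v).2.2
        have h5 : dis x v = dis v x := (g1 x v v).1
        have h6 : (N : ℝ) + 1 ≤ dis w x := by
          push Not at hd
          linarith
        constructor
        · intro hx
          exact absurd (l2 w x hx).2 (not_lt.2 h6)
        · intro hx
          exact absurd (l2' w x hx).2 (not_lt.2 h6)
    constructor
    · rintro ⟨ha, hb⟩
      exact ⟨ha, fun w hw hx => hb w hw ((key w hw).2 hx)⟩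
    · rintro ⟨ha, hb⟩
      exact ⟨ha, fun w hw hx => hb w hw ((key w hw).1 hx)⟩
  rw [hp v, hp' v, hcl]

end

end Pool.Agent.Lib.MP4c860b.FZ
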