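import Pool.Agent.Lib.MP_4c860b_pr.FZ.Spec

/-!
# Modified diameter-frozen percolation (MP_4c860b_pr): module WFA

The dependence is well founded for almost all times.
-/

set_option autoImplicit false

namespace Pool.Agent.Lib.MP4c860b.FZ

open MeasureTheory Set Filter Topology

noncomputable section

namespace WFAM

/-- One sequence of vertices. -/
theorem one (hORD : SpecORD) (n : ℕ) (w : Fin (n + 1) → V) :
    P {τ | StrictAnti (fun i => τ (w i))} ≤ ENNReal.ofReal (1 / (n.factorial : ℝ)) := by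
  by_cases hw : Function.Injective w
  · have h := hORD n w hw
    have hf : ((n + 1).factorial : ENNReal) ≠ 0 := by exact_mod_cast Nat.factorial_ne_zero _
    have hf' : ((n + 1).factorial : ENNReal) ≠ ⊤ := ENNReal.natCast_ne_top _
    have h1 : P {τ | StrictAnti (fun i => τ (w i))} ≤ 1 / ((n + 1).factorial : ENNReal) :=
      (ENNReal.le_div_iff_mul_le (Or.inl hf) (Or.inl hf')).2 (by rw [mul_comm]; exact h)
    refine h1.trans ?_
    have hn : (0 : ℝ) < (n.factorial : ℝ) := by exact_mod_cast Nat.factorial_pos n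
    rw [ENNReal.ofReal_div_of_pos hn, ENNReal.ofReal_one, ENNReal.ofReal_natCast]
    refine ENNReal.div_le_div_left ?_ 1
    exact_mod_cast Nat.factorial_le (Nat.le_succ n)
  · have h0 : {τ : V → ℝ | StrictAnti (fun i => τ (w i))} = ∅ := by
      ext τ
      simp only [mem_ofPred_eq, mem_empty_iff_false, iff_false]
      intro h
      apply hw
      intro i j hij
      exact h.injective (by simp only [hij])
    rw [h0, measure_empty]
    exact zero_le

/-- The times which are decreasing along a sequence of length `n` from `v0` with steps `≤ R`. -/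
def Bad (R : ℝ) (v0 : V) (n : ℕ) : Set (V → ℝ) :=
  {τ | ∃ w : Fin (n + 1) → V, w 0 = v0 ∧ (∀ i : Fin n, dis (w i.succ) (w i.castSucc) ≤ R) ∧
    StrictAnti (fun i => τ (w i))}

theorem bad (hGEO : SpecGEO) (hORD : SpecORD) (R : ℝ) :
    ∃ k : ℕ, ∀ (v0 : V) (n : ℕ), P (Bad R v0 n) ≤ ENNReal.ofReal ((k : ℝ) ^ n / (n.factorial : ℝ)) := by
  obtain ⟨hd, _, hfin, _, htr⟩ := hGEO
  have hK := hfin 0 R
  have : Fintype {v : V | dis 0 v ≤ R} := hK.fintype
  refine ⟨Fintype.card {v : V | dis 0 v ≤ R}, ?_⟩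
  intro v0 n
  have hsub : Bad R v0 n ⊆ ⋃ d : Fin n → {v : V | dis 0 v ≤ R},
      {τ | StrictAnti (fun i => τ ((v0 +ᵥ Fin.partialSum (fun j => ((d j : V)))) i))} := by
    rintro τ ⟨w, hw0, hw, hanti⟩
    rw [mem_iUnion]
    have hmem : ∀ i : Fin n, -w i.castSucc + w i.succ ∈ {v : V | dis 0 v ≤ R} := by
      intro i
      have h1 := (htr (-w i.castSucc + w i.succ) 0 (w i.castSucc)).1
      have h2 : -w i.castSucc + w i.succ + w i.castSucc = w i.succ := by abel
      rw [h2, zero_add] at h1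
      show dis 0 (-w i.castSucc + w i.succ) ≤ R
      rw [(hd 0 (-w i.castSucc + w i.succ) 0).1, ← h1]
      exact hw i
    refine ⟨fun i => ⟨-w i.castSucc + w i.succ, hmem i⟩, ?_⟩
    have hpi := Fin.partialSum_left_neg w
    show StrictAnti _
    have he : (v0 +ᵥ Fin.partialSum (fun j : Fin n =>
        (((⟨-w j.castSucc + w j.succ, hmem j⟩ : {v : V | dis 0 v ≤ R}) : V)))) = w := by
      rw [← hw0]
      exact hpi
    rw [he]
    exact hanti
  refine (measure_mono hsub).trans ((measure_iUnion_fintype_le _ _).trans ?_)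
  refine (Finset.sum_le_card_nsmul _ _ _ (fun d _ => one hORD n _)).trans ?_
  rw [Finset.card_univ, Fintype.card_fun, Fintype.card_fin, nsmul_eq_mul]
  have hn : (0 : ℝ) < (n.factorial : ℝ) := by exact_mod_cast Nat.factorial_pos n
  rw [← ENNReal.ofReal_natCast, ← ENNReal.ofReal_mul (by positivity)]
  apply ENNReal.ofReal_le_ofReal
  rw [Nat.cast_pow, mul_one_div]

theorem inter (hGEO : SpecGEO) (hORD : SpecORD) (R : ℝ) (v0 : V) : P (⋂ n : ℕ, Bad R v0 n) = 0 := by
  obtain ⟨k, hk⟩ := bad hGEO hORD R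
  have ht : Tendsto (fun n : ℕ => ENNReal.ofReal ((k : ℝ) ^ n / (n.factorial : ℝ))) atTop (𝓝 0) := by
    have h := ENNReal.tendsto_ofReal (FloorSemiring.tendsto_pow_div_factorial_atTop (k : ℝ))
    rwa [ENNReal.ofReal_zero] at h
  refine le_antisymm ?_ zero_le
  refine ge_of_tendsto' ht (fun n => ?_)
  exact (measure_mono (iInter_subset _ n)).trans (hk v0 n)

theorem main (R : ℝ) (τ : V → ℝ) (h : ¬ Wf R τ) : ∃ v0 : V, τ ∈ ⋂ n : ℕ, Bad R v0 n := by
  unfold Wf at h
  rw [wellFounded_iff_isEmpty_descending_chain, not_isEmpty_iff] at h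
  obtain ⟨⟨f, hf⟩⟩ := h
  refine ⟨f 0, ?_⟩
  rw [mem_iInter]
  intro n
  refine ⟨fun i => f i, rfl, ?_, ?_⟩
  · intro i
    exact (hf i).2
  · have ha : StrictAnti (fun i : ℕ => τ (f i)) := strictAnti_nat_of_succ_lt (fun i => (hf i).1)
    intro i j hij
    exact ha (Fin.lt_def.1 hij)

end WFAM

/-- **WFA**. -/
theorem specWFA (hGEO : SpecGEO) (hINJ : SpecINJ) (hORD : SpecORD) : SpecWFA := by
  intro R
  have h1 : ∀ᵐ τ ∂P, ∀ v0 : V, τ ∉ ⋂ n : ℕ, WFAM.Bad R v0 n := by
    rw [ae_all_iff]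
    intro v0
    exact measure_eq_zero_iff_ae_notMem.1 (WFAM.inter hGEO hORD R v0)
  filter_upwards [hINJ, h1] with τ h2 h3
  refine ⟨h2.1, ?_⟩
  by_contra h
  obtain ⟨v0, hv0⟩ := WFAM.main R τ h
  exact h3 v0 hv0

end

end Pool.Agent.Lib.MP4c860b.FZ
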