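import Pool.Agent.Lib.MP_4c860b_pr.FZ.GEO
import Pool.Agent.Lib.MP_4c860b_pr.FZ.CLU
import Pool.Agent.Lib.MP_4c860b_pr.FZ.DIA
import Pool.Agent.Lib.MP_4c860b_pr.FZ.LOB
import Pool.Agent.Lib.MP_4c860b_pr.FZ.UNI
import Pool.Agent.Lib.MP_4c860b_pr.FZ.EXI
import Pool.Agent.Lib.MP_4c860b_pr.FZ.EXC
import Pool.Agent.Lib.MP_4c860b_pr.FZ.INJ
import Pool.Agent.Lib.MP_4c860b_pr.FZ.ORD
import Pool.Agent.Lib.MP_4c860b_pr.FZ.WFA
import Pool.Agent.Lib.MP_4c860b_pr.FZ.SHI
import Pool.Agent.Lib.MP_4c860b_pr.FZ.UPP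
import Pool.Agent.Lib.MP_4c860b_pr.FZ.TOP
import Pool.Agent.Lib.MP_4c860b_pr.FZ.KCO
import Pool.Agent.Lib.MP_4c860b_pr.FZ.FIR
import Pool.Agent.Lib.MP_4c860b_pr.FZ.STA
import Pool.Agent.Lib.MP_4c860b_pr.FZ.AG1
import Pool.Agent.Lib.MP_4c860b_pr.FZ.AGR
import Pool.Agent.Lib.MP_4c860b_pr.FZ.CEE
import Pool.Agent.Lib.MP_4c860b_pr.FZ.RES
import Pool.Agent.Lib.MP_4c860b_pr.FZ.LOW
import Pool.Agent.Lib.MP_4c860b_pr.FZ.FIN

/-!
# Modified diameter-frozen percolation (MP_4c860b_pr): the modules put together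
-/

set_option autoImplicit false

namespace Pool.Agent.Lib.MP4c860b.FZ

open MeasureTheory Set Filter Topology

theorem geo : SpecGEO := specGEO

theorem clu : SpecCLU := specCLU geo

theorem dia : SpecDIA := specDIA clu

theorem lob : SpecLOB := specLOB geo clu dia

theorem uni : SpecUNI := specUNI geo clu lob

theorem exi : SpecEXI := specEXI geo clu

theorem exc : SpecEXC := specEXC

theorem ord : SpecORD := specORD exc

theorem wfa : SpecWFA := specWFA geo specINJ ord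

theorem shi : SpecSHI := specSHI geo uni exi exc wfa

theorem upp : SpecUPP := specUPP geo exi wfa shi

theorem kco : SpecKCO := specKCO geo clu

theorem ag1 : SpecAG1 := specAG1 geo clu dia lob kco

theorem agr : SpecAGR := specAGR geo clu lob ag1

theorem low : SpecLOW :=
  specLOW exi wfa (specTOP geo clu) (specFIR clu lob) (specSTA clu lob) agr (specCEE geo) specRES

theorem fin : SpecFIN := specFIN upp low

/-- Existence and uniqueness of the process for almost all times. -/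
theorem exists_unique (N : ℕ) : ∀ᵐ τ ∂P, ∃! Fr, IsProc N τ Fr := by
  filter_upwards [wfa (2 * (N : ℝ) + 5)] with τ hτ
  obtain ⟨Fr, hFr⟩ := exi N τ hτ.1 hτ.2
  exact ⟨Fr, hFr, fun Fr' hFr' => uni N τ hτ.1 hτ.2 Fr' Fr hFr' hFr⟩

end Pool.Agent.Lib.MP4c860b.FZ
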