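import Pool.Agent.Lib.MP_4c860b_pr.FZ.Glue

/-!
# HOL: a set with a hole is never the cluster of the origin (`N` large)

If the complement of the finite set `C` is not connected then `P_N(C_1(0) = C) = 0` for all large `N`;
for the ring of the six neighbours of a vertex this holds for all `N ≥ 1`.
-/

set_option autoImplicit false

namespace Pool.Agent.Lib.MP4c860b.FZ

open MeasureTheory Set Filter Topology

namespace HOLM

theorem adj_symm {u v : V} (h : Adj u v) : Adj v u := by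
  unfold Adj at h ⊢
  omega

/-- the deterministic statement -/
theorem det {N : ℕ} {τ : V → ℝ} {Fr : V → Set V} (hFr : IsProc N τ Fr) {C H : Set V}
    (h0 : (0 : V) ∈ C) (hdis : Disjoint H C) (hnb : ∀ h ∈ H, ∀ u, Adj h u → u ∈ H ∨ u ∈ C)
    (hadj : ∃ h ∈ H, ∃ c ∈ C, Adj c h) (hbig : ¬ Big N H) : C1 Fr ≠ C := by
  intro hC
  have hC0 : (0 : V) ∈ C1 Fr := hC ▸ h0
  have hn0 : ∀ v, (0 : V) ∉ Fr v := hC0.1
  -- no vertex of `C` freezes
  have hCn : ∀ c ∈ C, ∀ v, c ∉ Fr v := by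
    intro c hc
    have hc' : c ∈ C1 Fr := hC ▸ hc
    have h1 : Relation.ReflTransGen (fun a b => Adj a b ∧ b ∈ {x | ∀ v, x ∉ Fr v}) 0 c := hc'.2
    rcases Relation.ReflTransGen.cases_tail h1 with h2 | ⟨b, _, h2⟩
    · rw [h2]
      exact hn0
    · exact h2.2
  obtain ⟨h, hh, c, hc, hch⟩ := hadj
  have hfr : ∃ v, h ∈ Fr v := by
    by_contra hno
    push Not at hno
    have hc' : c ∈ C1 Fr := hC ▸ hc
    have h1 : h ∈ C1 Fr := ⟨hn0, Relation.ReflTransGen.tail hc'.2 ⟨hch, hno⟩⟩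
    rw [hC] at h1
    exact Set.disjoint_left.1 hdis hh h1
  obtain ⟨v, hv⟩ := hfr
  have hFv := hFr v
  rw [hFv] at hv
  obtain ⟨hv1, hv2⟩ := hv
  have hall : ∀ u ∈ Cl (Bk τ Fr v) v, u ∉ C := by
    intro u hu huC
    refine hCn u huC v ?_
    rw [hFv]
    exact ⟨hu, hv2⟩
  -- the centre is in `H`
  have hvH : v ∈ H := by
    have key : ∀ w, Relation.ReflTransGen (fun a b => Adj a b ∧ b ∈ Bk τ Fr v) v w → w ∈ H →
        v ∈ H := by
      intro w hw
      induction hw with
      | refl => exact fun h => h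
      | tail hab hbc ih =>
        intro hcH
        apply ih
        rcases hnb _ hcH _ (adj_symm hbc.1) with h | h
        · exact h
        · exact absurd h (hall _ hab)
    exact key h hv1 hh
  have hsub : Cl (Bk τ Fr v) v ⊆ H := by
    intro u hu
    have hu' : Relation.ReflTransGen (fun a b => Adj a b ∧ b ∈ Bk τ Fr v) v u := hu
    induction hu' with
    | refl => exact hvH
    | tail hab hbc ih =>
      rcases hnb _ (ih hab) _ hbc.1 with h | h
      · exact h
      · exact absurd h (hall _ (Relation.ReflTransGen.tail hab hbc))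
  obtain ⟨a, ha, b, hb, hab⟩ := hv2
  exact hbig ⟨a, hsub ha, b, hsub hb, hab⟩

theorem zero {N : ℕ} {C H : Set V}
    (h0 : (0 : V) ∈ C) (hdis : Disjoint H C) (hnb : ∀ h ∈ H, ∀ u, Adj h u → u ∈ H ∨ u ∈ C)
    (hadj : ∃ h ∈ H, ∃ c ∈ C, Adj c h) (hbig : ¬ Big N H) : P {τ | C1 (proc N τ) = C} = 0 := by
  have h1 : ∀ᵐ τ ∂P, ¬ (C1 (proc N τ) = C) := by
    filter_upwards [exists_unique N] with τ hτ
    have hex : ∃ Fr, IsProc N τ Fr := hτ.exists
    have hp : IsProc N τ (proc N τ) := by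
      unfold proc
      rw [dif_pos hex]
      exact hex.choose_spec
    exact det hp h0 hdis hnb hadj hbig
  rw [ae_iff] at h1
  simpa only [not_not] using h1

/-! ### the ring -/

/-- the six neighbours of `(1, 0)` -/
def Ring : Set V := {(0, 0), (0, 1), (1, 1), (2, 0), (2, -1), (1, -1)}

theorem ring_fin : Ring.Finite := by
  unfold Ring
  exact Set.toFinite _

theorem ring_zero : (0 : V) ∈ Ring := by
  left
  rfl

theorem ring_conn : Conn Ring := by
  have m0 : ((0, 0) : V) ∈ Ring := by simp [Ring]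
  have m1 : ((0, 1) : V) ∈ Ring := by simp [Ring]
  have m2 : ((1, 1) : V) ∈ Ring := by simp [Ring]
  have m3 : ((2, 0) : V) ∈ Ring := by simp [Ring]
  have m4 : ((2, -1) : V) ∈ Ring := by simp [Ring]
  have m5 : ((1, -1) : V) ∈ Ring := by simp [Ring]
  have s0 : Relation.ReflTransGen (fun a b => Adj a b ∧ b ∈ Ring) ((0, 0) : V) (0, 1) :=
    .single ⟨by simp [Adj], m1⟩
  have s1 : Relation.ReflTransGen (fun a b => Adj a b ∧ b ∈ Ring) ((0, 1) : V) (1, 1) :=
    .single ⟨by simp [Adj], m2⟩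
  have s2 : Relation.ReflTransGen (fun a b => Adj a b ∧ b ∈ Ring) ((1, 1) : V) (2, 0) :=
    .single ⟨by simp [Adj], m3⟩
  have s3 : Relation.ReflTransGen (fun a b => Adj a b ∧ b ∈ Ring) ((2, 0) : V) (2, -1) :=
    .single ⟨by simp [Adj], m4⟩
  have s4 : Relation.ReflTransGen (fun a b => Adj a b ∧ b ∈ Ring) ((2, -1) : V) (1, -1) :=
    .single ⟨by simp [Adj], m5⟩
  have s5 : Relation.ReflTransGen (fun a b => Adj a b ∧ b ∈ Ring) ((1, -1) : V) (0, 0) :=
    .single ⟨by simp [Adj], m0⟩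
  have to0 : ∀ u ∈ Ring, Relation.ReflTransGen (fun a b => Adj a b ∧ b ∈ Ring) u (0, 0) := by
    intro u hu
    simp only [Ring, mem_insert_iff, mem_singleton_iff] at hu
    rcases hu with rfl | rfl | rfl | rfl | rfl | rfl
    · exact .refl
    · exact s1.trans (s2.trans (s3.trans (s4.trans s5)))
    · exact s2.trans (s3.trans (s4.trans s5))
    · exact s3.trans (s4.trans s5)
    · exact s4.trans s5
    · exact s5
  have from0 : ∀ u ∈ Ring, Relation.ReflTransGen (fun a b => Adj a b ∧ b ∈ Ring) (0, 0) u := by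
    intro u hu
    simp only [Ring, mem_insert_iff, mem_singleton_iff] at hu
    rcases hu with rfl | rfl | rfl | rfl | rfl | rfl
    · exact .refl
    · exact s0
    · exact s0.trans s1
    · exact s0.trans (s1.trans s2)
    · exact s0.trans (s1.trans (s2.trans s3))
    · exact s0.trans (s1.trans (s2.trans (s3.trans s4)))
  intro u hu v hv
  exact (to0 u hu).trans (from0 v hv)

theorem ring_hole (N : ℕ) (hN : 1 ≤ N) : P {τ | C1 (proc N τ) = Ring} = 0 := by
  refine zero (H := {((1, 0) : V)}) ring_zero ?_ ?_ ?_ ?_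
  · rw [Set.disjoint_singleton_left]
    simp [Ring]
  · intro h hh u hu
    rw [mem_singleton_iff] at hh
    subst hh
    right
    obtain ⟨x, y⟩ := u
    unfold Adj at hu
    simp only [Ring, mem_insert_iff, mem_singleton_iff, Prod.mk.injEq]
    simp only at hu
    omega
  · exact ⟨(1, 0), rfl, (0, 0), by simp [Ring], by simp [Adj]⟩
  · rintro ⟨a, ha, b, hb, hab⟩
    rw [mem_singleton_iff] at ha hb
    subst ha
    subst hb
    have h1 : dis ((1, 0) : V) (1, 0) = 0 := by simp [dis]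
    rw [h1] at hab
    have h2 : (1 : ℝ) ≤ N := by exact_mod_cast hN
    linarith

/-! ### every set whose complement is not connected -/

/-- outside of the box -/
def Out (M : ℤ) : Set V := {v | M < |v.1| ∨ M < |v.2|}

theorem row (M y : ℤ) (hy : M < |y|) (n : ℕ) (x : ℤ) :
    Relation.ReflTransGen (fun a b => Adj a b ∧ b ∈ Out M) ((x, y) : V) (x + n, y) ∧
    Relation.ReflTransGen (fun a b => Adj a b ∧ b ∈ Out M) ((x, y) : V) (x - n, y) := by
  induction n with
  | zero => simp [Relation.ReflTransGen.refl]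
  | succ n ih =>
    constructor
    · refine ih.1.tail ⟨?_, Or.inr hy⟩
      left
      push_cast
      constructor
      · ring
      · ring
    · refine ih.2.tail ⟨?_, Or.inr hy⟩
      right; left
      push_cast
      constructor
      · ring
      · ring

theorem col (M x : ℤ) (hx : M < |x|) (n : ℕ) (y : ℤ) :
    Relation.ReflTransGen (fun a b => Adj a b ∧ b ∈ Out M) ((x, y) : V) (x, y + n) ∧
    Relation.ReflTransGen (fun a b => Adj a b ∧ b ∈ Out M) ((x, y) : V) (x, y - n) := by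
  induction n with
  | zero => simp [Relation.ReflTransGen.refl]
  | succ n ih =>
    constructor
    · refine ih.1.tail ⟨?_, Or.inl hx⟩
      right; right; left
      push_cast
      constructor
      · ring
      · ring
    · refine ih.2.tail ⟨?_, Or.inl hx⟩
      right; right; right; left
      push_cast
      constructor
      · ring
      · ring

theorem row' (M y : ℤ) (hy : M < |y|) (x x' : ℤ) :
    Relation.ReflTransGen (fun a b => Adj a b ∧ b ∈ Out M) ((x, y) : V) (x', y) := by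
  rcases le_total x x' with h | h
  · obtain ⟨n, hn⟩ := Int.eq_ofNat_of_zero_le (sub_nonneg.2 h)
    have e : x' = x + n := by omega
    rw [e]
    exact (row M y hy n x).1
  · obtain ⟨n, hn⟩ := Int.eq_ofNat_of_zero_le (sub_nonneg.2 h)
    have e : x' = x - n := by omega
    rw [e]
    exact (row M y hy n x).2

theorem col' (M x : ℤ) (hx : M < |x|) (y y' : ℤ) :
    Relation.ReflTransGen (fun a b => Adj a b ∧ b ∈ Out M) ((x, y) : V) (x, y') := by
  rcases le_total y y' with h | h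
  · obtain ⟨n, hn⟩ := Int.eq_ofNat_of_zero_le (sub_nonneg.2 h)
    have e : y' = y + n := by omega
    rw [e]
    exact (col M x hx n y).1
  · obtain ⟨n, hn⟩ := Int.eq_ofNat_of_zero_le (sub_nonneg.2 h)
    have e : y' = y - n := by omega
    rw [e]
    exact (col M x hx n y).2

theorem out_conn (M : ℤ) (hM : 0 ≤ M) {u v : V} (hu : u ∈ Out M) (hv : v ∈ Out M) :
    Relation.ReflTransGen (fun a b => Adj a b ∧ b ∈ Out M) u v := by
  have hM1 : M < |M + 1| := by
    rw [abs_of_nonneg (by omega)]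
    omega
  have to1 : ∀ u : V, u ∈ Out M →
      Relation.ReflTransGen (fun a b => Adj a b ∧ b ∈ Out M) u ((M + 1, M + 1) : V) := by
    rintro ⟨x, y⟩ (h | h)
    · exact (col' M x h y (M + 1)).trans (row' M (M + 1) hM1 x (M + 1))
    · exact (row' M y h x (M + 1)).trans (col' M (M + 1) hM1 y (M + 1))
  have from1 : ∀ u : V, u ∈ Out M →
      Relation.ReflTransGen (fun a b => Adj a b ∧ b ∈ Out M) ((M + 1, M + 1) : V) u := by
    rintro ⟨x, y⟩ (h | h)
    · exact (row' M (M + 1) hM1 (M + 1) x).trans (col' M x h (M + 1) y)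
    · exact (col' M (M + 1) hM1 (M + 1) y).trans (row' M y h (M + 1) x)
  exact (to1 u hu).trans (from1 v hv)

theorem rtg_mono {S T : Set V} (hST : S ⊆ T) {u v : V}
    (h : Relation.ReflTransGen (fun a b => Adj a b ∧ b ∈ S) u v) :
    Relation.ReflTransGen (fun a b => Adj a b ∧ b ∈ T) u v := by
  induction h with
  | refl => exact .refl
  | tail _ hbc ih => exact ih.tail ⟨hbc.1, hST hbc.2⟩

theorem cl_symm {S : Set V} {u v : V} (hu : u ∈ S) (h : v ∈ Cl S u) : u ∈ Cl S v ∧ v ∈ S := by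
  have h' : Relation.ReflTransGen (fun a b => Adj a b ∧ b ∈ S) u v := h
  induction h' with
  | refl => exact ⟨h, hu⟩
  | tail hab hbc ih =>
    obtain ⟨h1, h2⟩ := ih hab
    exact ⟨Relation.ReflTransGen.head ⟨adj_symm hbc.1, h2⟩ h1, hbc.2⟩

theorem exists_hole {C : Set V} (hC : C.Finite) (hn : ¬ Conn Cᶜ) :
    ∃ H : Set V, H.Finite ∧ Disjoint H C ∧ (∀ h ∈ H, ∀ u, Adj h u → u ∈ H ∨ u ∈ C) ∧
      ∃ h ∈ H, ∃ c ∈ C, Adj c h := by
  obtain ⟨M, hM0, hM⟩ : ∃ M : ℤ, 0 ≤ M ∧ ∀ c ∈ C, |c.1| ≤ M ∧ |c.2| ≤ M := by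
    obtain ⟨M, hM⟩ := (hC.image fun c : V => max |c.1| |c.2|).bddAbove
    refine ⟨max M 0, le_max_right _ _, fun c hc => ?_⟩
    have h := hM (mem_image_of_mem _ hc)
    exact ⟨(le_max_left _ _).trans (h.trans (le_max_left _ _)),
      (le_max_right _ _).trans (h.trans (le_max_left _ _))⟩
  have hout : Out M ⊆ Cᶜ := by
    rintro v (hv | hv) hvC
    · exact absurd (hM v hvC).1 (not_le.2 hv)
    · exact absurd (hM v hvC).2 (not_le.2 hv)
  have hcomp : ∀ a ∈ Cᶜ, (∀ u ∈ Cl Cᶜ a, u ∉ Out M) → ∃ H : Set V, H.Finite ∧ Disjoint H C ∧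
      (∀ h ∈ H, ∀ u, Adj h u → u ∈ H ∨ u ∈ C) ∧ ∃ h ∈ H, ∃ c ∈ C, Adj c h := by
    intro a ha hbox
    have hfin : (Cl Cᶜ a).Finite := by
      refine Set.Finite.subset ((Set.finite_Icc (-M) M).prod (Set.finite_Icc (-M) M)) ?_
      intro u hu
      have h1 := hbox u hu
      have h2 : ¬ (M < |u.1| ∨ M < |u.2|) := h1
      push Not at h2
      exact ⟨⟨(abs_le.1 h2.1).1, (abs_le.1 h2.1).2⟩, ⟨(abs_le.1 h2.2).1, (abs_le.1 h2.2).2⟩⟩
    have hnb : ∀ h ∈ Cl Cᶜ a, ∀ u, Adj h u → u ∈ Cl Cᶜ a ∨ u ∈ C := by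
      intro h hh u hu
      by_cases huC : u ∈ C
      · exact Or.inr huC
      · exact Or.inl (Relation.ReflTransGen.tail hh ⟨hu, huC⟩)
    refine ⟨Cl Cᶜ a, hfin, ?_, hnb, ?_⟩
    · rw [Set.disjoint_left]
      intro u hu huC
      exact (cl_symm ha hu).2 huC
    · obtain ⟨h, hh, hmax⟩ := Set.exists_max_image (Cl Cᶜ a) (fun v : V => v.1) hfin
        ⟨a, Relation.ReflTransGen.refl⟩
      have hadj : Adj h ((h.1 + 1, h.2) : V) := by
        left
        constructor
        · simp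
        · simp
      refine ⟨h, hh, (h.1 + 1, h.2), ?_, adj_symm hadj⟩
      rcases hnb h hh _ hadj with h1 | h1
      · have h2 : h.1 + 1 ≤ h.1 := hmax _ h1
        omega
      · exact h1
  unfold Conn at hn
  push Not at hn
  obtain ⟨a, ha, b, hb, hab⟩ := hn
  by_cases h1 : ∀ u ∈ Cl Cᶜ a, u ∉ Out M
  · exact hcomp a ha h1
  · by_cases h2 : ∀ u ∈ Cl Cᶜ b, u ∉ Out M
    · exact hcomp b hb h2
    · exfalso
      push Not at h1 h2
      obtain ⟨u, hu, huO⟩ := h1
      obtain ⟨v, hv, hvO⟩ := h2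
      apply hab
      have h3 : Relation.ReflTransGen (fun a b => Adj a b ∧ b ∈ Cᶜ) u v :=
        rtg_mono hout (out_conn M hM0 huO hvO)
      have h4 : Relation.ReflTransGen (fun a b => Adj a b ∧ b ∈ Cᶜ) a u := hu
      have h5 : Relation.ReflTransGen (fun a b => Adj a b ∧ b ∈ Cᶜ) v b := (cl_symm hb hv).1
      exact (h4.trans h3).trans h5

end HOLM

open HOLM in
/-- **HOL**. A finite set whose complement is not connected is not the cluster of the origin, `N` large. -/
theorem hol (C : Set V) (hC : C.Finite) (h0 : (0 : V) ∈ C) (hn : ¬ Conn Cᶜ) :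
    ∃ N₀ : ℕ, ∀ N ≥ N₀, P {τ | C1 (proc N τ) = C} = 0 := by
  obtain ⟨H, hH, h1, h2, h3⟩ := exists_hole hC hn
  obtain ⟨B, hB⟩ := ((hH.prod hH).image fun p : V × V => dis p.1 p.2).bddAbove
  obtain ⟨N₀, hN₀⟩ := exists_nat_gt B
  refine ⟨N₀, fun N hN => zero h0 h1 h2 h3 ?_⟩
  rintro ⟨a, ha, b, hb, hab⟩
  have h4 : dis a b ≤ B := hB ⟨(a, b), ⟨ha, hb⟩, rfl⟩
  have h5 : (N₀ : ℝ) ≤ N := by exact_mod_cast hN
  linarith

open HOLM in
/-- **HOLN**. The ring: the negated form of the question for all finite connected sets. -/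
theorem holn : ∃ C : Set V, C.Finite ∧ (0 : V) ∈ C ∧ Conn C ∧
    ∀ N : ℕ, 1 ≤ N → P {τ | C1 (proc N τ) = C} = 0 :=
  ⟨Ring, ring_fin, ring_zero, ring_conn, ring_hole⟩

end Pool.Agent.Lib.MP4c860b.FZ
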