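import Pool.Agent.Lib.MP_4c860b_pr.FZ.HOL

/-!
# HOM: the ring of `HOL` has a disconnected complement
-/

set_option autoImplicit false

namespace Pool.Agent.Lib.MP4c860b.FZ

open MeasureTheory Set Filter Topology

/-- The complement of the ring is not connected: every neighbour of `(1, 0)` is in the ring. -/
theorem ring_not_conn : ¬ Conn HOLM.Ringᶜ := by
  intro h
  have h1 : ((1, 0) : V) ∈ HOLM.Ringᶜ := by simp [HOLM.Ring]
  have h2 : ((5, 0) : V) ∈ HOLM.Ringᶜ := by simp [HOLM.Ring]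
  have h3 : Relation.ReflTransGen (fun a b => Adj a b ∧ b ∈ HOLM.Ringᶜ) ((1, 0) : V) (5, 0) :=
    h _ h1 _ h2
  rcases Relation.ReflTransGen.cases_head h3 with h4 | ⟨c, hc, -⟩
  · have h5 := congrArg Prod.fst h4
    simp at h5
  · obtain ⟨h6, h7⟩ := hc
    apply h7
    obtain ⟨x, y⟩ := c
    unfold Adj at h6
    simp only [HOLM.Ring, mem_insert_iff, mem_singleton_iff, Prod.mk.injEq]
    simp only at h6
    omega

theorem holm : ∃ C : Set V, C.Finite ∧ (0 : V) ∈ C ∧ Conn C ∧ ¬ Conn Cᶜ ∧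
    ∀ N : ℕ, 1 ≤ N → P {τ | C1 (proc N τ) = C} = 0 :=
  ⟨HOLM.Ring, HOLM.ring_fin, HOLM.ring_zero, HOLM.ring_conn, ring_not_conn, HOLM.ring_hole⟩

end Pool.Agent.Lib.MP4c860b.FZ
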