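import Pool.Agent.Lib.MP_4c860b_pr.FZ.Defs

/-!
# Modified diameter-frozen percolation (MP_4c860b_pr): specification (captain helper60)

THEOREM. For the modified diameter-frozen percolation process with parameter `N`: for every finite connected set `C ∋ 0` of vertices
whose complement is connected, `liminf_N P_N(C_1(0) = C) > 0` if and only if `liminf_N P_N(0 freezes at a time ≤ s) > 0` for some
`s < 1`. The second statement does not depend on `C`: so Q1 (for the sets without holes) is equivalent to its case `C = {0}`, and to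
the statement that the origin freezes with positive probability at a time bounded away from `1`. Quantitatively
`P_N(C_1(0) = C) ≤ P_N(0 freezes at a time ≤ 1 - δ) + δ` for all `C`, `N`, `δ`, and
`P_N(C_1(0) = C) ≥ c (P_N(0 freezes at a time ≤ 1 - δ) - ε_N)`, `c = c(C, δ) > 0`, `ε_N → 0`.

IDEA. (≤) If `C_1(0) = C`, `c ∈ C`, `w ∉ C` adjacent to `c`, then `w` froze before `c` became black. (≥) resample the times on
`C` (late, in `(1 - δ, 1]`) and on a finite connected set `Q` around `C` (early, `< η`): `Q` replaces `C` as a connection, so `Q`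
freezes at the latest when the origin froze before the change (the two processes agree outside the cluster of `Q`), and then
`C` is left alone.

Conventions: module `XXX` is the file `Pool/Agent/Lib/MP_4c860b_pr/FZ/XXX.lean`, it imports only
`Pool.Agent.Lib.MP_4c860b_pr.FZ.Spec` and proves `theorem specXXX (hYYY : SpecYYY) .. : SpecXXX` (the modules named after USES, in
this order) in the namespace `Pool.Agent.Lib.MP4c860b.FZ`, own lemmas in a namespace `XXXM`.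
-/

set_option autoImplicit false

namespace Pool.Agent.Lib.MP4c860b.FZ

open MeasureTheory Set Filter Topology

noncomputable section

/-- Well-foundedness of the dependence at range `R`. -/
def Wf (R : ℝ) (τ : V → ℝ) : Prop := WellFounded (fun a b : V => τ a < τ b ∧ dis a b ≤ R)

/-! ### geometry and clusters -/

/-- **GEO** (90 lines, no deps). Elementary facts on the lattice. PROOF. Third item: `|u.2 - v.2| √3/2 ≤ r` and
`|(u.1 - v.1) + (u.2 - v.2)/2| ≤ r` bound both coordinates. -/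
def SpecGEO : Prop :=
  (∀ u v w : V, dis u v = dis v u ∧ dis u u = 0 ∧ dis u w ≤ dis u v + dis v w) ∧
  (∀ u v : V, Adj u v → Adj v u ∧ dis u v ≤ 1) ∧
  (∀ (u : V) (r : ℝ), {v | dis u v ≤ r}.Finite) ∧
  (∀ u : V, ∃ F : Finset V, F.card ≤ 6 ∧ ∀ v, Adj u v → v ∈ F) ∧
  (∀ u v a : V, dis (u + a) (v + a) = dis u v ∧ (Adj (u + a) (v + a) ↔ Adj u v))

/-- **CLU** (170 lines), USES GEO. Clusters.
PROOF. (1), (3): induction along the path ((3): a path in `A` starting at `v`, every further vertex is in `A ⊆ insert v S`; a vertex `v` on it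
can be used to restart the path). (2): go back from `u` to `v` (symmetry of `Adj`; all vertices of the path are in the cluster) and then to `u'`.
(4): `⊆`: along a path of `Cl S' v` all vertices are in `Cl S v` by the hypothesis; `⊇`: along a path of `Cl S v`.
(5): a path from `u` to `v` in `A` has a finite vertex set (induction: for every `v ∈ Cl A u`, `u ∈ A`, there is a finite connected `A' ⊆ A` with
`u, v ∈ A'`). (6): if all of `A` is within `N + 2` of `v`, take `A`. If not, let `x ∈ A` be a vertex with `dis v x > N + 2`, `B` the ball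
`dis v y ≤ N + 2`, and `A' = Cl (A ∩ B) v ⊆ A ∩ B`, connected by (2). On the path from `v` to `x` in `A` let `z` be the first vertex outside
`B` and `y` its predecessor, `y ∈ A'`: `dis v y ≥ dis v z - 1 > N + 1`. (7): clear. -/
def SpecCLU : Prop :=
  (∀ (S : Set V) (v u : V), u ∈ Cl S v → u = v ∨ u ∈ S) ∧
  (∀ (S : Set V) (v : V), v ∈ Cl S v ∧ Conn (Cl S v)) ∧
  (∀ (S A : Set V) (v : V), Conn A → v ∈ A → A ⊆ insert v S → A ⊆ Cl S v) ∧
  (∀ (S S' : Set V) (v : V), (∀ x, (∃ u ∈ Cl S v, Adj u x) → (x ∈ S ↔ x ∈ S')) → Cl S' v = Cl S v) ∧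
  (∀ (N : ℕ) (A : Set V), Conn A → Big N A → ∃ A' ⊆ A, A'.Finite ∧ Conn A' ∧ Big N A') ∧
  (∀ (N : ℕ) (A : Set V) (v : V), Conn A → v ∈ A → Big N A →
    ∃ A' ⊆ A, Conn A' ∧ v ∈ A' ∧ Big N A' ∧ ∀ x ∈ A', dis v x ≤ N + 2) ∧
  (∀ A B : Set V, Conn A → Conn B → (∃ u ∈ A, ∃ v ∈ B, u = v ∨ Adj u v) → Conn (A ∪ B))

/-! ### the process for fixed times -/

/-- **DIA** (80 lines), USES CLU. Connected sets of unfrozen vertices have diameter `< N`.
PROOF. Suppose `Big N A`; by CLU (5) there is a finite connected `A' ⊆ A`, `Big N A'` (so `A' ≠ ∅`). Let `v ∈ A'` have the largest `τ`. For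
`x ∈ A'`, `x ≠ v`: `τ x < τ v` (injectivity) and `x ∉ Fr w` for `τ w < τ v < s`: `x ∈ Bk τ Fr v`. By CLU (3) `A' ⊆ Cl (Bk τ Fr v) v`, so this
cluster is `Big` and equals `Fr v`; `v ∈ Fr v`, `τ v < s`, a contradiction to the hypothesis on `v ∈ A`. -/
def SpecDIA : Prop :=
  ∀ (N : ℕ) (τ : V → ℝ) (Fr : V → Set V), Function.Injective τ → IsProc N τ Fr → ∀ (s : ℝ) (A : Set V), Conn A →
    (∀ x ∈ A, τ x < s ∧ ∀ w, τ w < s → x ∉ Fr w) → ¬ Big N A

/-- **LOB** (100 lines), USES GEO, CLU, DIA. Locality.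
PROOF. (a) `u = v`: `dis v v = 0`. Otherwise (`Relation.ReflTransGen.cases_head`) let `x₁` be the first vertex of the path after `v`, `x₁ ∈ Bk`,
`u ∈ Cl (Bk τ Fr v) x₁`. This cluster is connected and contained in `Bk τ Fr v` (CLU (1)); by DIA with `s = τ v` it is not `Big`, so
`dis x₁ u < N`, `dis v u < N + 1`. (b) `u ∈ Cl (Bk ..) v` is `v` or in `Bk`. (c) Let `u ∈ Fr v ∩ Fr w`, `v ≠ w`, say `τ v < τ w`. By CLU (1) `u = w` (then
`τ w = τ u ≤ τ v` by (b), impossible) or `u ∈ Bk τ Fr w`, impossible as `u ∈ Fr v`. -/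
def SpecLOB : Prop :=
  ∀ (N : ℕ) (τ : V → ℝ) (Fr : V → Set V), Function.Injective τ → IsProc N τ Fr →
    (∀ v, ∀ u ∈ Cl (Bk τ Fr v) v, dis v u < N + 1) ∧ (∀ v, ∀ u ∈ Fr v, τ u ≤ τ v ∧ dis v u < N + 1) ∧
    ∀ u v w, u ∈ Fr v → u ∈ Fr w → v = w

/-- **UNI** (110 lines), USES GEO, CLU, LOB. Uniqueness.
PROOF. `Fr v = Fr' v` by induction on `v` (`Wf`). It is enough that `Cl (Bk τ Fr' v) v = Cl (Bk τ Fr v) v`: CLU (4). Let `x` be adjacent to
`u ∈ Cl (Bk τ Fr v) v`, so `dis v x < N + 2`. `x ∈ Bk τ Fr v ↔ x ∈ Bk τ Fr' v`: let `τ w < τ v`. If `dis w v ≤ 2 N + 5`, `Fr w = Fr' w` by induction;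
if not, `dis w x > N + 3` and `x` is neither in `Fr w` nor in `Fr' w` by LOB. -/
def SpecUNI : Prop :=
  ∀ (N : ℕ) (τ : V → ℝ), Function.Injective τ → Wf (2 * N + 5) τ → ∀ Fr Fr' : V → Set V, IsProc N τ Fr → IsProc N τ Fr' → Fr = Fr'

/-- **EXI** (220 lines), USES GEO, CLU. Existence.
PROOF. Let `R = 2 N + 5`. By `WellFounded.fix` there is `F : V → Set V` with `F v = {u | u ∈ D v ∧ Big N (D v)}`, `D v = Cl (S v) v`,
`S v = {x | τ x < τ v ∧ dis v x ≤ N + 2 ∧ ∀ w, τ w < τ v → dis w v ≤ R → x ∉ F w}`. (1) `F w ⊆ D w ⊆ ball w (N + 2)` (CLU (1)). (2) For `dis v x ≤ N + 2`: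
`x ∈ S v ↔ x ∈ Bk τ F v` (if `dis w v > R` then `dis w x > N + 3`, `x ∉ F w`). (3) If `A` is connected and for all `x ∈ A`: `τ x < s` and `x ∉ F w` for
`τ w < s`, then `¬ Big N A`: as in DIA take a finite connected `A' ⊆ A`, `Big N A'`, `v ∈ A'` with the largest `τ`, and CLU (6): `A'' ⊆ A'`,
connected, `v ∈ A''`, `Big N A''`, within `N + 2` of `v`. `A'' \ {v} ⊆ S v`, so `A'' ⊆ D v`, `Big N (D v)`, `v ∈ F v`, contradiction. (4) So every
`u ∈ Cl (Bk τ F v) v` has `dis v u < N + 1` (proof of LOB (a)). (5) `Cl (S v) v = Cl (Bk τ F v) v` by CLU (4) and (2) (a vertex adjacent to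
the cluster is within `N + 2` of `v`). So `F` is a process. -/
def SpecEXI : Prop :=
  ∀ (N : ℕ) (τ : V → ℝ), Function.Injective τ → Wf (2 * N + 5) τ → ∃ Fr : V → Set V, IsProc N τ Fr

/-! ### the random times -/

/-- **EXC** (60 lines, no deps). Exchangeability; `A` is arbitrary (not necessarily measurable).
PROOF. `τ ↦ τ ∘ e` is a measurable equivalence which preserves `P` (`Measure.infinitePi_map_piCongrLeft` or `Measure.eq_infinitePi`); use
`MeasurableEquiv.map_apply` / `MeasurePreserving.measure_preimage_equiv`. -/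
def SpecEXC : Prop := ∀ (e : Equiv.Perm V) (A : Set (V → ℝ)), P ((fun τ => τ ∘ e) ⁻¹' A) = P A

/-- **INJ** (80 lines, no deps). PROOF. For `x ≠ y` the pair `(τ x, τ y)` has the law `unif × unif` (atomless); countably many pairs. -/
def SpecINJ : Prop := ∀ᵐ τ ∂P, Function.Injective τ ∧ ∀ x, 0 ≤ τ x ∧ τ x ≤ 1

/-- **ORD** (120 lines), USES EXC. A prescribed order has probability at most `1/(n+1)!`.
PROOF. For a permutation `σ` of `Fin (n + 1)` let `A_σ = {τ | StrictAnti (fun i => τ (w (σ i)))}`. The sets `A_σ` are disjoint, measurable, and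
`P A_σ = P A_1` by EXC (with `e = σ.viaFintypeEmbedding ⟨w, _⟩` or any permutation of `V` with `e (w i) = w (σ i)`). -/
def SpecORD : Prop :=
  ∀ (n : ℕ) (w : Fin (n + 1) → V), Function.Injective w →
    ((n + 1).factorial : ENNReal) * P {τ | StrictAnti (fun i => τ (w i))} ≤ 1

/-- **WFA** (140 lines), USES GEO, INJ, ORD. The dependence is well founded.
PROOF. If `Wf R τ` fails there are `v 0, v 1, …` with `τ (v (i + 1)) < τ (v i)`, `dis (v (i + 1)) (v i) ≤ R`. Let `k` be the number of the vertices in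
`{v | dis 0 v ≤ R}`. For fixed `v 0` and `n` there are at most `k ^ n` sequences `v 0, …, v n` with these distances (translation), and each
injective one is strictly decreasing with probability `≤ 1/(n+1)!`; so `P (∃ such a sequence from v 0 of length n) ≤ k ^ n / (n+1)!`, which tends to `0`.
Countable union over `v 0`. -/
def SpecWFA : Prop := ∀ R : ℝ, ∀ᵐ τ ∂P, Function.Injective τ ∧ Wf R τ

/-- **SHI** (110 lines), USES GEO, UNI, EXI, EXC, WFA. Invariance under translations.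
PROOF. `e x = x + w`, `τ' = τ ∘ e`. If `Fr` is the process of `τ` then `v ↦ {x | x + w ∈ Fr (v + w)}` is the process of `τ'` (GEO: `Adj`, `dis` are
invariant, so `Cl`, `Bk`, `Big` are transported). For almost all `τ` both processes exist and are unique (`Wf` and injectivity for `τ`, `τ'`), so
`Froz (τ ∘ e) (proc N (τ ∘ e)) s 0 ↔ Froz τ (proc N τ) s w`; EXC. -/
def SpecSHI : Prop :=
  ∀ (N : ℕ) (s : ℝ) (w : V), P {τ | Froz τ (proc N τ) s w} = P {τ | Froz τ (proc N τ) s 0}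

/-- **UPP** (110 lines), USES GEO, EXI, WFA, SHI. The upper bound.
PROOF. `C` is finite, so there are `c ∈ C`, `w ∉ C` adjacent. Let `C1 (proc N τ) = C`, `Fr = proc N τ` a process (almost surely, EXI). `0 ∈ C`: the
origin never freezes, and `c ∈ Cl {never frozen} 0` (`c = 0` or `c` never freezes). `w` freezes at some time: otherwise `w ∈ C1 = C`. Let `w ∈ Fr v`. If `τ c < τ v`
then `c ∈ Bk τ Fr v`, adjacent to `w ∈ Fr v = Cl (Bk τ Fr v) v`, so `c ∈ Fr v`, a contradiction. So `τ v ≤ τ c`: `τ c > 1 - δ` (probability `≤ δ`) or `w` freezes at a time `≤ 1 - δ`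
(SHI). -/
def SpecUPP : Prop :=
  ∀ C : Set V, C.Finite → (0 : V) ∈ C → ∀ (N : ℕ) (δ : ℝ), 0 < δ → δ < 1 →
    P {τ | C1 (proc N τ) = C} ≤ P {τ | Froz τ (proc N τ) (1 - δ) 0} + ENNReal.ofReal δ

/-! ### the lower bound: fixed times -/

/-- `Q` is a finite connected set around `C`. -/
structure Shield (C Q : Set V) : Prop where
  finC : C.Finite
  finQ : Q.Finite
  zero : (0 : V) ∈ C
  connC : Conn C
  connQ : Conn Q
  conn : Conn (C ∪ Q)
  disj : Disjoint C Q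
  nbr : ∀ c ∈ C, ∀ w, Adj c w → w ∈ C ∨ w ∈ Q
  dom : ∀ c ∈ C, ∀ b, ∃ q ∈ Q, dis b c ≤ dis b q

/-- **TOP** (160 lines), USES GEO, CLU. A shield exists.
PROOF. Let `∂` be the set of the `w ∉ C` adjacent to a vertex of `C`: finite, nonempty (`C` finite and nonempty); `w₀ ∈ ∂`. For `w ∈ ∂` there is a
finite connected `P_w ⊆ Cᶜ` with `w₀, w ∈ P_w` (path; induction as in CLU (5)). `Q = ⋃ P_w`. `dom`: let `c ∈ C`, `b ∈ V`. Let `m ≥ 0` be
minimal with `c + (m, 0) ∉ C` and `q = c + (m, 0) ∈ ∂`, in the same way `q' = c - (m', 0) ∈ ∂`. The second coordinates of the points `c, q, q'` of the plane are equal, the first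
ones are `x_c + m`, `x_c - m'`: one of them is at least as far from `x_b` as `x_c`. So `dis b c ≤ dis b q` or `≤ dis b q'`. `conn`: CLU (7). -/
def SpecTOP : Prop :=
  ∀ C : Set V, C.Finite → (0 : V) ∈ C → Conn C → Conn Cᶜ → ∃ Q : Set V, Shield C Q

/-- **KCO** (120 lines), USES GEO, CLU. Replace `C` by `Q`.
PROOF. `D = C ∪ Q`. Let `K = (B \ C) ∪ Q`. `Q` is connected, so it is enough that every `x ∈ B \ C` is joined to `Q` inside `K`. Let `u` be as in the
hypothesis, and go along a path from `x` to `u` inside `B`. Induction on the path (from `x`): if `x ∈ D` then `x ∈ Q`. If `x` is adjacent to some `d ∈ D` then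
`x ∈ D` or `d ∈ Q` (if `d ∈ C` then `x ∈ C ∪ Q` by `nbr`). Otherwise the next vertex is in `B \ D`, induction. `Big`: `a, b ∈ B`, `dis a b ≥ N`; if `b ∈ C` replace it by
`q ∈ Q`, `dis a q ≥ dis a b`; then the same for `a` (symmetry of `dis`). -/
def SpecKCO : Prop :=
  ∀ (C Q : Set V), Shield C Q → ∀ (N : ℕ) (B : Set V), Conn B →
    (∃ u ∈ B, u ∈ C ∪ Q ∨ ∃ d ∈ C ∪ Q, Adj u d) → Big N B → Conn ((B \ C) ∪ Q) ∧ Big N ((B \ C) ∪ Q)

/-- The early vertices, with `D`. -/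
def Ea (η : ℝ) (τ : V → ℝ) (D : Set V) : Set V := {x | x ∈ D ∨ τ x < η}

/-- Two processes whose times agree outside `C ∪ Q`; the second has early times on `Q`, late times on `C`. -/
structure Two (N : ℕ) (C Q : Set V) (η s₀ : ℝ) (τ τ' : V → ℝ) (Fr Fr' : V → Set V) : Prop where
  sh : Shield C Q
  i1 : Function.Injective τ
  i2 : Function.Injective τ'
  wf : Wf (2 * N + 5) τ
  p1 : IsProc N τ Fr
  p2 : IsProc N τ' Fr'
  off : ∀ x, x ∉ C ∪ Q → τ' x = τ x
  le : η ≤ s₀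
  early : ∀ q ∈ Q, τ' q < η
  late : ∀ c ∈ C, s₀ < τ' c
  small : ¬ Big N (Cl (Ea η τ (C ∪ Q)) 0)

/-- **FIR** (110 lines), USES CLU, LOB. If a vertex of `Q` freezes then all of `Q` freezes at this time.
PROOF. Among the `v` with `τ' v ≤ t` and `Fr' v ∩ Q ≠ ∅` (finitely many: `Q` is finite and every `q` is in at most one `Fr' v`, LOB (c)) take the one with the smallest
`τ' v`, `q ∈ Fr' v ∩ Q`. No `q' ∈ Q` is in `Fr' w` with `τ' w < τ' v`. `τ' v ≥ η`: otherwise all `x ∈ B = Fr' v = Cl (Bk τ' Fr' v) v` have `τ' x ≤ τ' v < η`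
(LOB), so `B ⊆ Ea` (off `C ∪ Q` the times agree), `B` is connected, `q ∈ B ∩ (C ∪ Q)`, `C ∪ Q` is connected, contains `0` and is in `Ea`; so `B ∪ C ∪ Q`
is connected (CLU (7)) and contained in `Cl (Ea ..) 0` (CLU (3)), which is `Big`: contradiction to `small`. So `τ' q' < η ≤ τ' v` and `q' ∈ Bk τ' Fr' v` for all `q' ∈ Q`.
`Q` is connected, `q ∈ Cl (Bk τ' Fr' v) v`, hence `Q ⊆ Cl (Bk τ' Fr' v) v = Fr' v` (extend the path from `q`). -/
def SpecFIR : Prop :=
  ∀ (N : ℕ) (C Q : Set V) (η s₀ : ℝ) (τ τ' : V → ℝ) (Fr Fr' : V → Set V), Two N C Q η s₀ τ τ' Fr Fr' →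
    ∀ t, t ≤ s₀ → (∃ q ∈ Q, Froz τ' Fr' t q) → ∀ q ∈ Q, Froz τ' Fr' t q

/-- **STA** (110 lines), USES CLU, LOB. Then `C` is the final cluster.
PROOF. (i) No `c ∈ C` freezes. Let `c ∈ Fr' v = B`, `B = Cl (Bk τ' Fr' v) v`, `Big N B`. `B ⊆ C` is impossible: `C ⊆ Cl (Ea ..) 0` (CLU (3)) is not `Big`. `B` is
connected, so there are `c' ∈ B ∩ C`, `q ∈ B \ C` adjacent (go along a path from `c` to a vertex outside `C`), and `q ∈ Q` (`nbr`). `s₀ < τ' c' ≤ τ' v` (LOB). So `q ≠ v`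
(`τ' q < η ≤ s₀`), `q ∈ Bk τ' Fr' v` (CLU (1)): but `q` is in `Fr' w` for some `τ' w ≤ s₀ < τ' v`. (ii) `C ⊆ C1 Fr'`: `C` is connected, contains `0`, its vertices never freeze.
`C1 Fr' ⊆ C`: a path of never frozen vertices cannot leave `C`, its first vertex outside `C` would be in `Q`, which is frozen. -/
def SpecSTA : Prop :=
  ∀ (N : ℕ) (C Q : Set V) (η s₀ : ℝ) (τ τ' : V → ℝ) (Fr Fr' : V → Set V), Two N C Q η s₀ τ τ' Fr Fr' →
    (∀ q ∈ Q, Froz τ' Fr' s₀ q) → C1 Fr' = C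

/-- The claim of AGR for one vertex: `B` is the cluster of `v` for `τ`. -/
def Touch (C Q B : Set V) : Prop := ∃ u ∈ B, u ∈ C ∪ Q ∨ ∃ d ∈ C ∪ Q, Adj u d

/-- **AG1** (130 lines), USES GEO, CLU, DIA, LOB, KCO. One step, clusters which touch `C ∪ Q` do not freeze.
PROOF. `D = C ∪ Q`, `B = Cl (Bk τ Fr v) v`. Suppose `Big N B`. `τ v ≥ η`: otherwise every `x ∈ B` is `v` or in `Bk`, `τ x ≤ τ v < η`, so `B ⊆ Ea`; `B` touches `D`, `D` is connected,
so `B ∪ D` is connected, contained in `Cl (Ea ..) 0`, which is `Big`: contradiction to `small`. Let `K = (B \ C) ∪ Q`, connected and `Big` by KCO. Every `x ∈ K`, `x ≠ v`, or `x ∈ Q`, has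
`τ' x < τ v` and is in no `Fr' w`, `τ' w < τ v`: for `x ∈ Q`: `τ' x < η ≤ τ v`, and `x` is in no `Fr' w` with `τ' w ≤ τ v ≤ t` (hypothesis `nq`); for `x ∈ B \ D`, `x ≠ v`: `x ∈ Bk τ Fr v`,
`τ' x = τ x < τ v`, and hypothesis `agr` (`dis v x < N + 1` by LOB). (For `x = v ∉ D` the second part follows from `agr`, too.) If `v ∉ D`: `τ' v = τ v`, `v ∈ K`, `K ⊆ insert v (Bk τ' Fr' v)`, so by
CLU (3) `K ⊆ Cl (Bk τ' Fr' v) v`, which is `Big` and equals `Fr' v`; it contains `Q ≠ ∅` and `τ' v = τ v ≤ t`: contradiction to `nq`. If `v ∈ D`: every `x ∈ K` has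
`τ' x < τ v` and is in no `Fr' w`, `τ' w < τ v` (`x = v` only if `v ∈ Q`): DIA for `Fr'`, `s = τ v`: `¬ Big N K`, contradiction. -/
def SpecAG1 : Prop :=
  ∀ (N : ℕ) (C Q : Set V) (η s₀ : ℝ) (τ τ' : V → ℝ) (Fr Fr' : V → Set V), Two N C Q η s₀ τ τ' Fr Fr' →
    ∀ (t : ℝ) (v : V), t ≤ s₀ → τ v ≤ t → (∀ q ∈ Q, ¬ Froz τ' Fr' t q) →
    (∀ x, x ∉ C ∪ Q → dis v x ≤ N + 2 → ((∀ w, τ w < τ v → x ∉ Fr w) ↔ ∀ w, τ' w < τ v → x ∉ Fr' w)) →
    Touch C Q (Cl (Bk τ Fr v) v) → ¬ Big N (Cl (Bk τ Fr v) v)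

/-- **AGR** (180 lines), USES GEO, CLU, LOB, AG1. Some vertex of `Q` freezes at a time `≤ τ v₀`.
PROOF. Suppose not: with `t = τ v₀`, (nq) no `q ∈ Q` freezes (for `τ', Fr'`) at a time `≤ t`. Claim, by induction on `v` (`wf`), for `τ v < t`: if `v ∈ D` then `Fr v = ∅`, if `v ∉ D` then
`Fr v = Fr' v`. Let `τ v ≤ t` and let the claim hold for the `w` with `τ w < τ v`, `dis w v ≤ 2 N + 5`. (F) For `x ∉ D`, `dis v x ≤ N + 2`:
`(∀ w, τ w < τ v → x ∉ Fr w) ↔ (∀ w, τ' w < τ v → x ∉ Fr' w)`. (→) let `x ∈ Fr' w`, `τ' w < τ v ≤ s₀`: `w ∉ C` (`late`); `w ∉ Q`, otherwise `w ∈ Fr' w` freezes at `τ' w ≤ t`; so `τ w = τ' w < τ v`,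
`dis w x < N + 1` (LOB), `dis w v ≤ 2 N + 3`, claim for `w`: `x ∈ Fr' w = Fr w`. (←) let `x ∈ Fr w`, `τ w < τ v`; `dis w v ≤ 2 N + 3`; claim: `w ∈ D` is impossible (`Fr w = ∅`), so `Fr' w = Fr w ∋ x`, `τ' w = τ w`.
Let `B = Cl (Bk τ Fr v) v`. If `B` touches `D`: AG1 gives `¬ Big N B`, `Fr v = ∅`. For `v = v₀` this is a contradiction (`0 ∈ Fr v₀ = B`, and then `B` touches `D` at `0`). So let `τ v < t`. `v ∈ D`: `B` touches
`D` at `v`, done. `v ∉ D`, so `τ' v = τ v`. (α) `B` does not touch `D`: every `x` adjacent to `B` is `∉ D`, `dis v x < N + 2`, so by (F) and `off` `x ∈ Bk τ Fr v ↔ x ∈ Bk τ' Fr' v`: CLU (4), the clusters and `Fr v`, `Fr' v` are equal.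
(β) `B` touches `D`: `Fr v = ∅`. Suppose `Fr' v ≠ ∅`, `B' = Cl (Bk τ' Fr' v) v = Fr' v`, `Big`. `B' ∩ Q = ∅` (nq), `B' ∩ C = ∅` (`c ∈ B'` has `τ' c ≤ τ' v ≤ s₀`). `B'` is not adjacent to `D`: adjacent to `c ∈ C` means that the vertex is in `Q ∪ C`; let
`u ∈ B'`, `q ∈ Q` be adjacent. If `τ v ≥ η` then `q ∈ Bk τ' Fr' v` (nq), `q ∈ B'`, impossible. If `τ v < η` then `B' ⊆ Ea` and `B' ∪ D` is connected, in `Cl (Ea ..) 0`, `Big`: contradiction. So `B'` does not touch `D`, and as in (α) `B = B'`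
(CLU (4) from `B'`), which does not touch `D`: contradiction. -/
def SpecAGR : Prop :=
  ∀ (N : ℕ) (C Q : Set V) (η s₀ : ℝ) (τ τ' : V → ℝ) (Fr Fr' : V → Set V), Two N C Q η s₀ τ τ' Fr Fr' →
    ∀ v₀, τ v₀ ≤ s₀ → (0 : V) ∈ Fr v₀ → ∃ q ∈ Q, Froz τ' Fr' (τ v₀) q

/-! ### the lower bound: probabilities -/

/-- **CEE** (220 lines), USES GEO. The cluster of `D` among the early vertices is small.
PROOF. Fix `τ`, `E = Ea η τ D`. Levels: `L 0 = D`, `L (k+1) = {x | τ x < η, x ∉ L 0 ∪ … ∪ L k, x adjacent to some y ∈ L k}`: disjoint. If `L n = ∅` then `L m = ∅` for `m ≥ n` and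
`⋃_(k<n) L k` is closed under adjacency in `E`, so `Cl E 0 ⊆ ⋃_(k<n) L k` (`0 ∈ D`), all of whose vertices are within `n` of `D`; so `Cl E 0` has diameter `≤ 2 n + r`, `r` = an upper bound of `dis` on `D`.
So if `N > 2 n + r` and `Big N (Cl E 0)` then `L n ≠ ∅` and there are `x 0 ∈ D`, `x i ∈ L i` (`i ≤ n`) with `Adj (x i) (x (i+1))`: they are different, `x i ∉ D` and `τ (x i) < η` for `1 ≤ i ≤ n`.
There are at most `|D| 6 ^ n` such sequences (GEO (4)) and for each `P (τ (x i) < η, 1 ≤ i ≤ n) = η ^ n` (`Measure.infinitePi_pi`). So `P (Big N ..) ≤ |D| (6 η) ^ n ≤ |D| 2 ^ (-n)` for all `N > 2 n + r`. -/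
def SpecCEE : Prop :=
  ∀ D : Set V, D.Finite → (0 : V) ∈ D → ∀ η : ℝ, 0 < η → η ≤ 1 / 12 →
    Tendsto (fun N : ℕ => P {τ | Big N (Cl (Ea η τ D) 0)}) atTop (𝓝 0)

/-- **RES** (130 lines, no deps). Resampling on a finite set; `A`, `T`, `W` are arbitrary sets.
PROOF. `(V → ℝ) ≃ᵐ (D → ℝ) × (Dᶜ → ℝ)`, the image of `P` is the product of `P_D = Measure.pi (unif)` and the product measure `P'` of the other coordinates. Let `Rb` be the box `∏ J x` in the first factor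
and `A₂` the set of the `b` such that `(a, b) ∈ A ∩ W` for some `a`. `(Rb × A₂) ∩ W ⊆ T`, `A ∩ W ⊆ univ × A₂`, `P Wᶜ = 0` (outer measures), and `(μ.prod ν) (s ×ˢ t) = μ s * ν t` for arbitrary
sets (`Measure.prod_prod`): `P T ≥ P_D Rb · P' A₂ ≥ ∏ unif (J x) · P A`. -/
def SpecRES : Prop :=
  ∀ (D : Finset V) (J : V → Set ℝ) (A T W : Set (V → ℝ)), (∀ x, MeasurableSet (J x)) → P Wᶜ = 0 →
    (∀ τ ∈ A, τ ∈ W → ∀ τ' ∈ W, (∀ x, x ∉ D → τ' x = τ x) → (∀ x ∈ D, τ' x ∈ J x) → τ' ∈ T) →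
    (∏ x ∈ D, unif (J x)) * P A ≤ P T

/-- **LOW** (140 lines), USES EXI, WFA, TOP, FIR, STA, AGR, CEE, RES. The lower bound.
PROOF. `Q` from TOP, `D = C ∪ Q`, `s₀ = 1 - δ`, `η = min (1/12) (s₀ / 2)`, `J x = Iio η` for `x ∈ Q`, `Ioi s₀` for `x ∈ C` (`univ` otherwise): `unif (J x) > 0`; `c = ∏ unif (J x)`. `W` = the `τ` which are injective with
`Wf (2 N + 5) τ`. `A = {Froz τ (proc N τ) s₀ 0} \ {Big N (Cl (Ea η τ D) 0)}`, `T = {C1 (proc N τ) = C}`. For `τ ∈ A ∩ W`, `τ' ∈ W` as in RES: `Two` holds (EXI: `proc` is a process), `0 ∈ Fr v₀`, `τ v₀ ≤ s₀`;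
AGR, FIR with `t = τ v₀`, then STA (`Froz` is monotone in `t`). So `c P A ≤ P T`, and `P A ≥ P {Froz ..} - P {Big ..}`. -/
def SpecLOW : Prop :=
  ∀ C : Set V, C.Finite → (0 : V) ∈ C → Conn C → Conn Cᶜ → ∀ δ : ℝ, 0 < δ → δ < 1 →
    ∃ c : ENNReal, 0 < c ∧ ∃ ε : ℕ → ENNReal, Tendsto ε atTop (𝓝 0) ∧ ∀ N : ℕ,
      c * (P {τ | Froz τ (proc N τ) (1 - δ) 0} - ε N) ≤ P {τ | C1 (proc N τ) = C}

/-- **FIN** (100 lines), USES UPP, LOW.
PROOF. (→) `0 < a < liminf`, `a < ∞`: eventually `P {C1 = C} ≥ a`; `δ ≤ a/2`, `δ ≤ 1/2`: `P {Froz .. (1 - δ)} ≥ a / 2` eventually. (←) `Froz` is monotone in `s`, so `s ≥ 1/2` may be assumed, `δ = 1 - s`;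
eventually `P {Froz ..} ≥ a > 0`, `ε N ≤ a / 2`, `P {C1 = C} ≥ c a / 2`. -/
def SpecFIN : Prop :=
  ∀ C : Set V, C.Finite → (0 : V) ∈ C → Conn C → Conn Cᶜ →
    (0 < liminf (fun N : ℕ => P {τ | C1 (proc N τ) = C}) atTop ↔
      ∃ s : ℝ, s < 1 ∧ 0 < liminf (fun N : ℕ => P {τ | Froz τ (proc N τ) s 0}) atTop)

end

end Pool.Agent.Lib.MP4c860b.FZ
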