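import Pool.Agent.Lib.MP_4c860b_pr.FZ.Spec

/-! Module UPP (helper99): the upper bound. -/

set_option autoImplicit false

namespace Pool.Agent.Lib.MP4c860b.FZ

open MeasureTheory Set Filter Topology

noncomputable section

namespace UPPM

lemma adj_symm {u v : V} (h : Adj u v) : Adj v u := by
  unfold Adj at *
  omega

lemma exists_boundary (C : Set V) (hC : C.Finite) (h0 : (0 : V) ∈ C) :
    ∃ c ∈ C, ∃ w, w ∉ C ∧ Adj c w := by
  obtain ⟨c, hc, hmax⟩ := hC.exists_maximalFor (fun v : V => v.1) C ⟨0, h0⟩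
  refine ⟨c, hc, (c.1 + 1, c.2), ?_, ?_⟩
  · intro hw
    have h := hmax hw (by simp)
    simp at h
  · unfold Adj
    left
    simp

lemma mem_of_cl {S : Set V} {v u : V} (h : u ∈ Cl S v) : u = v ∨ u ∈ S := by
  unfold Cl at h
  rcases Relation.ReflTransGen.cases_tail h with h | ⟨b, _, hb⟩
  · left; exact h.symm ▸ rfl
  · right; exact hb.2

lemma cl_step {S : Set V} {v u x : V} (h : u ∈ Cl S v) (ha : Adj u x) (hx : x ∈ S) : x ∈ Cl S v :=
  Relation.ReflTransGen.tail h ⟨ha, hx⟩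

lemma fixed (N : ℕ) (τ : V → ℝ) (Fr : V → Set V) (hp : IsProc N τ Fr) (C : Set V)
    (h0 : (0 : V) ∈ C) (c w : V) (hc : c ∈ C) (hw : w ∉ C) (ha : Adj c w) (hC : C1 Fr = C) (s : ℝ) :
    Froz τ Fr s w ∨ s < τ c := by
  have h0' : (0 : V) ∈ C1 Fr := by rw [hC]; exact h0
  have hc' : c ∈ C1 Fr := by rw [hC]; exact hc
  have hz : ∀ v, (0 : V) ∉ Fr v := h0'.1
  have hcn : ∀ v, c ∉ Fr v := by
    rcases mem_of_cl hc'.2 with h | h
    · rw [h]; exact hz
    · exact h
  have hwf : ∃ v, w ∈ Fr v := by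
    by_contra hno
    push Not at hno
    apply hw
    rw [← hC]
    exact ⟨hz, cl_step hc'.2 ha hno⟩
  obtain ⟨v, hv⟩ := hwf
  by_cases hs : τ v ≤ s
  · left; exact ⟨v, hs, hv⟩
  · right
    by_contra hle
    have hlt : τ c < τ v := lt_of_le_of_lt (not_lt.1 hle) (not_le.1 hs)
    have hb : c ∈ Bk τ Fr v := ⟨hlt, fun x _ => hcn x⟩
    have hv2 := hv
    rw [hp v] at hv2
    apply hcn v
    rw [hp v]
    exact ⟨cl_step hv2.1 (adj_symm ha) hb, hv2.2⟩

lemma prob_late (c : V) (δ : ℝ) : P {τ : V → ℝ | 1 - δ < τ c} ≤ ENNReal.ofReal δ := by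
  have hm : MeasurePreserving (Function.eval c) P unif := by
    unfold P
    exact measurePreserving_eval_infinitePi (fun _ : V => unif) c
  have h1 : P {τ : V → ℝ | 1 - δ < τ c} = unif (Ioi (1 - δ)) := by
    rw [← hm.measure_preimage measurableSet_Ioi.nullMeasurableSet]
    rfl
  rw [h1]
  unfold unif
  rw [Measure.restrict_apply measurableSet_Ioi]
  calc volume (Ioi (1 - δ) ∩ Icc (0 : ℝ) 1) ≤ volume (Ioc (1 - δ) 1) := by
        apply measure_mono
        intro x hx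
        exact ⟨hx.1, hx.2.2⟩
    _ = ENNReal.ofReal δ := by
        rw [Real.volume_Ioc]
        congr 1
        ring

end UPPM

open UPPM in
theorem specUPP (_hGEO : SpecGEO) (hEXI : SpecEXI) (hWFA : SpecWFA) (hSHI : SpecSHI) : SpecUPP := by
  intro C hC h0 N δ _ _
  obtain ⟨c, hc, w, hw, ha⟩ := exists_boundary C hC h0
  have hproc : ∀ᵐ τ ∂P, IsProc N τ (proc N τ) := by
    filter_upwards [hWFA (2 * N + 5)] with τ hτ
    have hex := hEXI N τ hτ.1 hτ.2
    unfold proc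
    rw [dif_pos hex]
    exact hex.choose_spec
  calc P {τ | C1 (proc N τ) = C}
      ≤ P ({τ | Froz τ (proc N τ) (1 - δ) w} ∪ {τ : V → ℝ | 1 - δ < τ c}) := by
        apply measure_mono_ae
        filter_upwards [hproc] with τ hτ hmem
        exact fixed N τ (proc N τ) hτ C h0 c w hc hw ha hmem (1 - δ)
    _ ≤ P {τ | Froz τ (proc N τ) (1 - δ) w} + P {τ : V → ℝ | 1 - δ < τ c} := measure_union_le _ _
    _ ≤ P {τ | Froz τ (proc N τ) (1 - δ) 0} + ENNReal.ofReal δ := by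
        rw [hSHI N (1 - δ) w]
        exact add_le_add le_rfl (prob_late c δ)

end

end Pool.Agent.Lib.MP4c860b.FZ
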